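import Pool.Agent.Lib_MP_bfd926_ab.AClo

/-!
# General bounds for the norms

The products of odd numbers have norm one (`padicNorm 2` is multiplicative; an odd integer has norm
one: `padicNorm.int_eq_one_iff` or as in `SXb`, `SLb`), the brackets `BL`, `BU` are integers, of norm
at most one (`padicNorm.of_int`, `padicNorm.of_nat`). In the case `e = 1`, `t = 1` one has
`BL 1 V 1 = V`, `BU 1 M 1 = M`, `Nat.choose (w - 2 * n + 1) 1 = w - 2 * n + 1`, ….
-/

namespace MT2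

private theorem ABd_prod (f : ℕ → ℤ) (hf : ∀ m, f m % 2 = 1) (t : ℕ) :
    padicNorm 2 (∏ m ∈ Finset.range t, ((f m : ℤ) : ℚ)) = 1 := by
  induction t with
  | zero => simp
  | succ t ih =>
    rw [Finset.prod_range_succ, padicNorm.mul, ih, one_mul]
    refine (padicNorm.int_eq_one_iff (p := 2) (f t)).2 ?_
    have := hf t
    intro h
    have : (2 : ℤ) ∣ f t := by exact_mod_cast h
    omega

private theorem ABd_odd (t : ℕ) :
    padicNorm 2 (∏ m ∈ Finset.range t, (2 * (m : ℚ) + 1)) = 1 := by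
  have h := ABd_prod (fun m => 2 * (m : ℤ) + 1) (fun m => by omega) t
  push_cast at h
  exact h

private theorem ABd_nn (n t : ℕ) :
    padicNorm 2 (∏ m ∈ Finset.range t, (2 * (n : ℚ) - 1 - 2 * m)) = 1 := by
  have h := ABd_prod (fun m => 2 * (n : ℤ) - 1 - 2 * m) (fun m => by omega) t
  push_cast at h
  exact h

private theorem ABd_ww (w n t : ℕ) :
    padicNorm 2 (∏ m ∈ Finset.range t, (2 * (w : ℚ) - 1 - 2 * n - 2 * m)) = 1 := by
  have h := ABd_prod (fun m => 2 * (w : ℤ) - 1 - 2 * n - 2 * m) (fun m => by omega) t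
  push_cast at h
  exact h

private theorem ABd_sgn (t : ℕ) : padicNorm 2 ((-1 : ℚ) ^ t) = 1 := by
  rcases neg_one_pow_eq_or ℚ t with h | h
  · rw [h]; exact padicNorm.one
  · rw [h, padicNorm.neg]; exact padicNorm.one

private theorem ABd_L {e w n t : ℕ} (he : e ≤ 1) (hn : 3 * n + e ≤ w) (h1 : 1 ≤ t) (ht : t < n) :
    padicNorm 2 (qL e w n (n - t)) * padicNorm 2 (Nat.choose (w - 2 * n + t) t : ℚ) =
      padicNorm 2 (Nat.choose (w - n + t) (2 * t) : ℚ) * padicNorm 2 (BL e (w - 3 * n) t : ℚ) := by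
  have h := congrArg (padicNorm 2) (qL_closed he hn h1 ht)
  simp only [padicNorm.mul, ABd_nn, ABd_odd, ABd_sgn, mul_one, one_mul] at h
  exact h

private theorem ABd_U {e w n t : ℕ} (he : e ≤ 1) (hn : 3 * n + e ≤ w) (h1 : 1 ≤ t) (htn : t ≤ n)
    (ht : 2 * n + t < w) :
    padicNorm 2 (qU e w n (n + t)) * padicNorm 2 (Nat.choose (w - 2 * n - 1) t : ℚ) =
      padicNorm 2 (Nat.choose (n + t) (2 * t) : ℚ) * padicNorm 2 (BU e (2 * w - 3 * n) t : ℚ) := by
  have h := congrArg (padicNorm 2) (qU_closed he hn h1 htn ht)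
  simp only [padicNorm.mul, ABd_ww, ABd_odd, ABd_sgn, mul_one, one_mul] at h
  exact h

theorem qL_norm {e w n t : ℕ} (he : e ≤ 1) (hn : 3 * n + e ≤ w) (h1 : 1 ≤ t) (ht : t < n) :
    padicNorm 2 (qL e w n (n - t)) * padicNorm 2 (Nat.choose (w - 2 * n + t) t : ℚ) ≤
      padicNorm 2 (Nat.choose (w - n + t) (2 * t) : ℚ) := by
  rw [ABd_L he hn h1 ht]
  exact mul_le_of_le_one_right (padicNorm.nonneg _) (padicNorm.of_nat _)

theorem qU_norm {e w n t : ℕ} (he : e ≤ 1) (hn : 3 * n + e ≤ w) (h1 : 1 ≤ t) (htn : t ≤ n)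
    (ht : 2 * n + t < w) :
    padicNorm 2 (qU e w n (n + t)) * padicNorm 2 (Nat.choose (w - 2 * n - 1) t : ℚ) ≤
      padicNorm 2 (Nat.choose (n + t) (2 * t) : ℚ) := by
  rw [ABd_U he hn h1 htn ht]
  exact mul_le_of_le_one_right (padicNorm.nonneg _) (padicNorm.of_int _)

theorem qL_one_norm {w n : ℕ} (hn : 3 * n + 1 ≤ w) (h1 : 2 ≤ n) :
    padicNorm 2 (qL 1 w n (n - 1)) * padicNorm 2 ((w - 2 * n + 1 : ℕ) : ℚ) =
      padicNorm 2 (Nat.choose (w - n + 1) 2 : ℚ) * padicNorm 2 ((w - 3 * n : ℕ) : ℚ) := by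
  have h := ABd_L (e := 1) le_rfl hn le_rfl (by omega : 1 < n)
  have e1 : Nat.choose (w - 2 * n + 1) 1 = w - 2 * n + 1 := Nat.choose_one_right _
  have e2 : BL 1 (w - 3 * n) 1 = w - 3 * n := by
    simp only [BL, if_neg (one_ne_zero : ¬ (1 : ℕ) = 0)]
    rw [Nat.choose_one_right]; omega
  rw [e1, e2] at h
  exact h

theorem qU_one_norm {w n : ℕ} (hn : 3 * n + 1 ≤ w) (h1 : 1 ≤ n) (ht : 2 * n + 1 < w) :
    padicNorm 2 (qU 1 w n (n + 1)) * padicNorm 2 ((w - 2 * n - 1 : ℕ) : ℚ) =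
      padicNorm 2 (Nat.choose (n + 1) 2 : ℚ) * padicNorm 2 ((2 * w - 3 * n : ℕ) : ℚ) := by
  have h := ABd_U (e := 1) le_rfl hn le_rfl h1 ht
  have e1 : Nat.choose (w - 2 * n - 1) 1 = w - 2 * n - 1 := Nat.choose_one_right _
  have e2 : ((BU 1 (2 * w - 3 * n) 1 : ℤ) : ℚ) = ((2 * w - 3 * n : ℕ) : ℚ) := by
    simp only [BU, if_neg (one_ne_zero : ¬ (1 : ℕ) = 0)]
    rw [Nat.choose_one_right]; push_cast; rfl
  rw [e1, e2] at h
  exact h

end MT2
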