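import Pool.Agent.Lib_MP_bfd926_ab.AUp

/-!
# Closed forms for both parities

* `row_sum`: for `e = 0` this is the definition of `hrow`; for `e = 1` by `N_Nt` (cast to `ℚ`):
  `lv_i / (w - 3 i) * Nt w i j = 2 * lv_i * N w i j / (2 w - 3 j)`, if `2 w ≠ 3 j`; `w - 3 * i ≠ 0` for
  `i ≤ n`, `3 * n + 1 ≤ w`. If `2 * w = 3 * j` then `j > 2 * n` and everything is zero
  (`NE_zero`, `N_zero`).
* `row_zero`: `N w i j = 0` for `2 * i < j`.
* `lE_ne`, `hE_ne`: `lv_self`, `del_ne`, `hrow_self`.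
* `qL_closed`: `lv_closed`, `lv_self`. For `e = 1` multiply by `(w - 3 n) / (w - 3 (n - t))` and use
  `(V + 3 t) * C(V + t - 1, t) = V * (C(V + t, t) + 2 * C(V + t - 1, t - 1))`, `V = w - 3 n ≥ 1`
  (`t * C(V+t-1,t) = V * C(V+t-1,t-1)`, `t * C(V+t,t) = (V+t) * C(V+t-1,t-1)`).
* `qU_closed`: `hrow_closed`, `hrow_self`. For `e = 1` multiply by `(2w - 3n) / (2w - 3(n + t))` and use
  `(M - 3 t) * C(M, t) = M * (C(M, t) - 3 * C(M - 1, t - 1))`, `M = 2w - 3n`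
  (`M * C(M-1,t-1) = t * C(M,t)`).
* `dE_eq`: `hrow_self`.
-/

namespace MT2

private theorem AClo_ne1 {w n i : ℕ} (hn : 3 * n + 1 ≤ w) (hi : i ≤ n) : (w : ℚ) - 3 * i ≠ 0 := by
  have h : ((w : ℤ) - 3 * i : ℤ) ≠ 0 := by omega
  have h2 : (w : ℚ) - 3 * i = (((w : ℤ) - 3 * i : ℤ) : ℚ) := by push_cast; ring
  rw [h2]
  exact_mod_cast h

private theorem AClo_ne2 {w n : ℕ} (hn : 3 * n + 1 ≤ w) : 2 * (w : ℚ) - 3 * n ≠ 0 := by
  have h : (2 * (w : ℤ) - 3 * n : ℤ) ≠ 0 := by omega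
  have h2 : 2 * (w : ℚ) - 3 * n = ((2 * (w : ℤ) - 3 * n : ℤ) : ℚ) := by push_cast; ring
  rw [h2]
  exact_mod_cast h

private theorem AClo_half {n : ℕ} (h1 : 1 ≤ n) : (n : ℚ) - 1 / 2 ≠ 0 := by
  have h : (1 : ℚ) ≤ n := by exact_mod_cast h1
  intro h2
  linarith

private theorem AClo_lv_ne {w n : ℕ} (h1 : 1 ≤ n) : lv w n n ≠ 0 := by
  rw [lv_self]
  exact AClo_half h1

theorem row_sum {e w n : ℕ} (he : e ≤ 1) (hn : 3 * n + e ≤ w) (j : ℕ) :
    ∑ i ∈ Finset.Icc 1 n, lE e w n i * (NE e w i j : ℚ) = hE e w n j := by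
  rcases Nat.le_one_iff_eq_zero_or_eq_one.mp he with rfl | rfl
  · simp only [lE, NE, hE, hrow, if_true]
  · have h10 : ¬ (1 : ℕ) = 0 := one_ne_zero
    simp only [lE, NE, hE, hrow, if_neg h10]
    by_cases hj : 2 * w = 3 * j
    · have h0 : 2 * (w : ℚ) - 3 * j = 0 := by
        have : (2 * (w : ℚ)) = 3 * j := by exact_mod_cast hj
        linarith
      rw [h0, div_zero]
      apply Finset.sum_eq_zero
      intro i hi
      rw [Finset.mem_Icc] at hi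
      rw [Nt_zero (by omega)]
      simp
    · have h0 : 2 * (w : ℚ) - 3 * j ≠ 0 := by
        have h : (2 * (w : ℤ) - 3 * j : ℤ) ≠ 0 := by omega
        have h2 : 2 * (w : ℚ) - 3 * j = ((2 * (w : ℤ) - 3 * j : ℤ) : ℚ) := by push_cast; ring
        rw [h2]
        exact_mod_cast h
      rw [Finset.mul_sum, Finset.sum_div]
      apply Finset.sum_congr rfl
      intro i hi
      rw [Finset.mem_Icc] at hi
      have h3 := AClo_ne1 hn hi.2
      have h4 := N_Nt (w : ℤ) (i : ℤ) (j : ℤ)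
      have h5 : (2 * (w : ℚ) - 3 * j) * (Nt w i j : ℚ) = 2 * ((w : ℚ) - 3 * i) * (N w i j : ℚ) := by
        exact_mod_cast h4
      rw [div_mul_eq_mul_div, div_eq_div_iff h3 h0]
      linear_combination (lv w n i) * h5

theorem row_zero {e w n j : ℕ} (he : e ≤ 1) (hj : 2 * n < j) : hE e w n j = 0 := by
  have h : hrow w n j = 0 := by
    unfold hrow
    apply Finset.sum_eq_zero
    intro i hi
    rw [Finset.mem_Icc] at hi
    rw [N_zero (by omega)]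
    simp
  unfold hE
  rw [h]
  simp

theorem lE_ne {e w n : ℕ} (he : e ≤ 1) (hn : 3 * n + e ≤ w) (h1 : 1 ≤ n) : lE e w n n ≠ 0 := by
  rcases Nat.le_one_iff_eq_zero_or_eq_one.mp he with rfl | rfl
  · simp only [lE, if_true]
    exact AClo_lv_ne h1
  · have h10 : ¬ (1 : ℕ) = 0 := one_ne_zero
    simp only [lE, if_neg h10]
    exact div_ne_zero (AClo_lv_ne h1) (AClo_ne1 hn le_rfl)

private theorem AClo_hrow_ne {w n : ℕ} (hn : 3 * n ≤ w) (h1 : 1 ≤ n) : hrow w n n ≠ 0 := by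
  rw [hrow_self hn h1]
  exact mul_ne_zero (AClo_lv_ne h1) (del_ne hn h1)

theorem hE_ne {e w n : ℕ} (he : e ≤ 1) (hn : 3 * n + e ≤ w) (h1 : 1 ≤ n) : hE e w n n ≠ 0 := by
  rcases Nat.le_one_iff_eq_zero_or_eq_one.mp he with rfl | rfl
  · simp only [hE, if_true]
    exact AClo_hrow_ne (by omega) h1
  · have h10 : ¬ (1 : ℕ) = 0 := one_ne_zero
    simp only [hE, if_neg h10]
    exact div_ne_zero (mul_ne_zero two_ne_zero (AClo_hrow_ne (by omega) h1)) (AClo_ne2 hn)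

private theorem AClo_binL (V t : ℕ) (h1 : 1 ≤ t) :
    ((Nat.choose (V + t) t : ℚ) + 2 * (Nat.choose (V + t - 1) (t - 1) : ℚ)) * V =
      ((V : ℚ) + 3 * t) * (Nat.choose (V + t - 1) t : ℚ) := by
  obtain ⟨u, rfl⟩ : ∃ u, t = u + 1 := ⟨t - 1, by omega⟩
  have e1 : V + (u + 1) - 1 = V + u := by omega
  have e2 : u + 1 - 1 = u := by omega
  rw [e1, e2]
  have a1 := Nat.add_one_mul_choose_eq (V + u) u
  have a2 := Nat.choose_succ_right_eq (V + u) u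
  rw [Nat.add_sub_cancel] at a2
  have b1 : ((V : ℚ) + u + 1) * (Nat.choose (V + u) u : ℚ) =
      (Nat.choose (V + (u + 1)) (u + 1) : ℚ) * ((u : ℚ) + 1) := by exact_mod_cast a1
  have b2 : (Nat.choose (V + u) (u + 1) : ℚ) * ((u : ℚ) + 1) = (Nat.choose (V + u) u : ℚ) * V := by
    exact_mod_cast a2
  have h0 : ((u : ℚ) + 1) ≠ 0 := by positivity
  apply mul_right_cancel₀ h0
  push_cast
  linear_combination (-(V : ℚ)) * b1 - ((V : ℚ) + 3 * ((u : ℚ) + 1)) * b2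

theorem qL_closed {e w n t : ℕ} (he : e ≤ 1) (hn : 3 * n + e ≤ w) (h1 : 1 ≤ t) (ht : t < n) :
    qL e w n (n - t) * (∏ m ∈ Finset.range t, (2 * (n : ℚ) - 1 - 2 * m)) *
        (Nat.choose (w - 2 * n + t) t : ℚ) =
      (-1) ^ t * (∏ m ∈ Finset.range t, (2 * (m : ℚ) + 1)) *
        (Nat.choose (w - n + t) (2 * t) : ℚ) * (BL e (w - 3 * n) t : ℚ) := by
  have hc := lv_closed (w := w) (n := n) (t := t) (by omega) h1 ht
  have hh : (n : ℚ) - 1 / 2 ≠ 0 := AClo_half (by omega)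
  have hcast : ((n - t : ℕ) : ℚ) = (n : ℚ) - t := Nat.cast_sub ht.le
  rcases Nat.le_one_iff_eq_zero_or_eq_one.mp he with rfl | rfl
  · simp only [qL, lE, BL, if_true]
    rw [lv_self]
    push_cast
    rw [div_mul_eq_mul_div, div_mul_eq_mul_div, div_eq_iff hh, hc]
    ring
  · have h10 : ¬ (1 : ℕ) = 0 := one_ne_zero
    simp only [qL, lE, BL, if_neg h10]
    rw [lv_self]
    obtain ⟨V, rfl⟩ : ∃ V, w = V + 3 * n := ⟨w - 3 * n, by omega⟩
    have e3 : V + 3 * n - 3 * n = V := by omega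
    rw [e3] at hc ⊢
    have hV : (V : ℚ) ≠ 0 := by
      have : V ≠ 0 := by omega
      exact_mod_cast this
    have hV3 : ((V : ℚ) + 3 * t) ≠ 0 := by positivity
    have hb := AClo_binL V t h1
    have w1 : (((V + 3 * n : ℕ) : ℚ) - 3 * ((n - t : ℕ) : ℚ)) = (V : ℚ) + 3 * t := by
      rw [hcast]; push_cast; ring
    have w2 : (((V + 3 * n : ℕ) : ℚ) - 3 * (n : ℚ)) = (V : ℚ) := by
      push_cast; ring
    rw [w1, w2]
    generalize lv (V + 3 * n) n (n - t) = L at hc ⊢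
    generalize (∏ m ∈ Finset.range t, (2 * (n : ℚ) - 1 - 2 * m)) = P1 at hc ⊢
    generalize (∏ m ∈ Finset.range t, (2 * (m : ℚ) + 1)) = P2 at hc ⊢
    generalize ((Nat.choose (V + 3 * n - 2 * n + t) t : ℕ) : ℚ) = C1 at hc ⊢
    generalize ((Nat.choose (V + 3 * n - n + t) (2 * t) : ℕ) : ℚ) = C2 at hc ⊢
    generalize ((Nat.choose (V + t) t : ℕ) : ℚ) = C3 at hc hb ⊢
    generalize ((Nat.choose (V + t - 1) (t - 1) : ℕ) : ℚ) = C4 at hc hb ⊢
    generalize ((Nat.choose (V + t - 1) t : ℕ) : ℚ) = C5 at hb ⊢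
    have key : L / ((V : ℚ) + 3 * t) / (((n : ℚ) - 1 / 2) / V) * P1 * C1 =
        (L * P1 * C1) * V / (((V : ℚ) + 3 * t) * ((n : ℚ) - 1 / 2)) := by
      field_simp
    rw [key, hc, div_eq_iff (mul_ne_zero hV3 hh)]
    linear_combination ((-1) ^ t * ((n : ℚ) - 1 / 2) * P2 * C2) * hb

private theorem AClo_binU (M t : ℕ) (h1 : 1 ≤ t) (hM : 1 ≤ M) :
    ((Nat.choose M t : ℚ) - 3 * (Nat.choose (M - 1) (t - 1) : ℚ)) * M =
      ((M : ℚ) - 3 * t) * (Nat.choose M t : ℚ) := by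
  obtain ⟨u, rfl⟩ : ∃ u, t = u + 1 := ⟨t - 1, by omega⟩
  obtain ⟨m, rfl⟩ : ∃ m, M = m + 1 := ⟨M - 1, by omega⟩
  have e1 : m + 1 - 1 = m := by omega
  have e2 : u + 1 - 1 = u := by omega
  rw [e1, e2]
  have a1 := Nat.add_one_mul_choose_eq m u
  have b1 : ((m : ℚ) + 1) * (Nat.choose m u : ℚ) =
      (Nat.choose (m + 1) (u + 1) : ℚ) * ((u : ℚ) + 1) := by exact_mod_cast a1
  push_cast
  linear_combination (-3 : ℚ) * b1

theorem qU_closed {e w n t : ℕ} (he : e ≤ 1) (hn : 3 * n + e ≤ w) (h1 : 1 ≤ t) (htn : t ≤ n)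
    (ht : 2 * n + t < w) :
    qU e w n (n + t) * (∏ m ∈ Finset.range t, (2 * (w : ℚ) - 1 - 2 * n - 2 * m)) *
        (Nat.choose (w - 2 * n - 1) t : ℚ) =
      (-1) ^ t * (∏ m ∈ Finset.range t, (2 * (m : ℚ) + 1)) *
        (Nat.choose (n + t) (2 * t) : ℚ) * (BU e (2 * w - 3 * n) t : ℚ) := by
  have hn1 : 1 ≤ n := by omega
  have hn0 : 3 * n ≤ w := by omega
  have hc := hrow_closed (w := w) (n := n) (t := t) hn1 h1 htn hn0 ht
  have hs := hrow_self hn0 hn1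
  have hH : lv w n n * del w n ≠ 0 := mul_ne_zero (AClo_lv_ne hn1) (del_ne hn0 hn1)
  rcases Nat.le_one_iff_eq_zero_or_eq_one.mp he with rfl | rfl
  · simp only [qU, hE, BU, if_true]
    rw [hs]
    push_cast
    rw [div_mul_eq_mul_div, div_mul_eq_mul_div, div_eq_iff hH, hc]
    ring
  · have h10 : ¬ (1 : ℕ) = 0 := one_ne_zero
    simp only [qU, hE, BU, if_neg h10]
    rw [hs]
    have hb := AClo_binU (2 * w - 3 * n) t h1 (by omega)
    have hM : ((2 * w - 3 * n : ℕ) : ℚ) = 2 * (w : ℚ) - 3 * n := by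
      rw [Nat.cast_sub (by omega)]; push_cast; ring
    rw [hM] at hb
    have h2 := AClo_ne2 hn
    have h3 : 2 * (w : ℚ) - 3 * ((n + t : ℕ) : ℚ) ≠ 0 := by
      have h : (2 * (w : ℤ) - 3 * (n + t) : ℤ) ≠ 0 := by omega
      have h2 : 2 * (w : ℚ) - 3 * ((n + t : ℕ) : ℚ) = ((2 * (w : ℤ) - 3 * (n + t) : ℤ) : ℚ) := by
        push_cast; ring
      rw [h2]
      exact_mod_cast h
    generalize hrow w n (n + t) = L at hc ⊢
    generalize lv w n n * del w n = H at hc hH ⊢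
    generalize (∏ m ∈ Finset.range t, (2 * (w : ℚ) - 1 - 2 * n - 2 * m)) = P1 at hc ⊢
    generalize (∏ m ∈ Finset.range t, (2 * (m : ℚ) + 1)) = P2 at hc ⊢
    generalize ((Nat.choose (w - 2 * n - 1) t : ℕ) : ℚ) = C1 at hc ⊢
    generalize ((Nat.choose (n + t) (2 * t) : ℕ) : ℚ) = C2 at hc ⊢
    have key : 2 * L / (2 * (w : ℚ) - 3 * ((n + t : ℕ) : ℚ)) /
        (2 * H / (2 * (w : ℚ) - 3 * n)) * P1 * C1 =
        (L * P1 * C1) * (2 * (w : ℚ) - 3 * n) /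
          ((2 * (w : ℚ) - 3 * ((n + t : ℕ) : ℚ)) * H) := by
      field_simp
    rw [key, hc, div_eq_iff (mul_ne_zero h3 hH)]
    push_cast at hb ⊢
    linear_combination ((-1) ^ t * H * P2 * C2) * hb

theorem dE_eq {e w n : ℕ} (he : e ≤ 1) (hn : 3 * n + e ≤ w) (h1 : 1 ≤ n) :
    dE e w n = if e = 0 then del w n
      else 2 * ((w : ℚ) - 3 * n) / (2 * (w : ℚ) - 3 * n) * del w n := by
  have hs := hrow_self (w := w) (n := n) (by omega) h1
  have hl := AClo_lv_ne (w := w) h1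
  rcases Nat.le_one_iff_eq_zero_or_eq_one.mp he with rfl | rfl
  · simp only [dE, hE, lE, if_true]
    rw [hs, mul_div_cancel_left₀ _ hl]
  · have h10 : ¬ (1 : ℕ) = 0 := one_ne_zero
    simp only [dE, hE, lE, if_neg h10]
    rw [hs]
    have h2 := AClo_ne2 hn
    have h3 := AClo_ne1 hn le_rfl
    field_simp

end MT2
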