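import Pool.Agent.Lib_MP_bfd926_sq.SInv

/-!
# Rows of the matrix of `U₂`: definitions

* `hrow w n j`: the `j`-th entry of the row `l ^ (n) * N`.
* `lE e w n i`, `hE e w n j`: the same for `NE e`, `e = 0, 1`: by `N_Nt`
  `(2 * w - 3 * j) * Nt w i j = 2 * (w - 3 * i) * N w i j`.
* `qL`, `qU`: the rows divided by their diagonal entries; `dE`: the pivot.
* `BL`, `BU`: the integral brackets in the closed forms.
-/

namespace MT2

/-- The row `l ^ (n) * N`. -/
noncomputable def hrow (w n j : ℕ) : ℚ := ∑ i ∈ Finset.Icc 1 n, lv w n i * (N w i j : ℚ)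

/-- The rows which make the matrix `NE e` triangular. -/
noncomputable def lE (e w n i : ℕ) : ℚ :=
  if e = 0 then lv w n i else lv w n i / ((w : ℚ) - 3 * i)

/-- The rows of the upper triangular matrix. -/
noncomputable def hE (e w n j : ℕ) : ℚ :=
  if e = 0 then hrow w n j else 2 * hrow w n j / (2 * (w : ℚ) - 3 * j)

/-- The normalized rows. -/
noncomputable def qL (e w n i : ℕ) : ℚ := lE e w n i / lE e w n n

/-- The normalized rows. -/
noncomputable def qU (e w n j : ℕ) : ℚ := hE e w n j / hE e w n n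

/-- The pivot. -/
noncomputable def dE (e w n : ℕ) : ℚ := hE e w n n / lE e w n n

/-- The bracket in the closed form of `qL`. -/
def BL (e V t : ℕ) : ℕ :=
  if e = 0 then Nat.choose (V + t) t + 2 * Nat.choose (V + t - 1) (t - 1)
  else Nat.choose (V + t - 1) t

/-- The bracket in the closed form of `qU`. -/
def BU (e M t : ℕ) : ℤ :=
  if e = 0 then (Nat.choose M t : ℤ) - 3 * (Nat.choose (M - 1) (t - 1) : ℤ)
  else (Nat.choose M t : ℤ)

end MT2
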