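import Pool.Agent.Lib_MP_bfd926_sq.SMain
import Pool.Agent.Lib_MP_bfd926_sq.SGb
import Pool.Agent.Lib_MP_bfd926_sq.SPa
import Pool.Agent.Lib_MP_bfd926_sq.SPe

/-!
# `T₂` is diagonalizable

The proof is in the file `Results/MP_bfd926_nt/HeckeTwoMultiplicity.lean` (copy it).
`ncard_eig`: at most `finrank` eigenvalues (eigenvectors for distinct eigenvalues are linearly independent,
`Module.End.eigenvectors_linearIndependent'`, or `Module.End.HasEigenvalue.isRoot_of_hasEigenvalue` and the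
degree of the characteristic polynomial), at least by `card_eig` with `c = 1`.
-/

open UpperHalfPlane PowerSeries
open scoped MatrixGroups ModularForm

namespace MT2

theorem exists_T2_diag (k : ℕ) :
    ∃ (_ : FiniteDimensional ℂ (CuspForm 𝒮ℒ (k : ℤ))) (T : Module.End ℂ (CuspForm 𝒮ℒ (k : ℤ))),
      (∀ (f : CuspForm 𝒮ℒ (k : ℤ)) (z : ℍ),
        T f z = 2 ^ ((k : ℤ) - 1) * f (ofComplex (2 * z)) +
          (f (ofComplex (z / 2)) + f (ofComplex ((z + 1) / 2))) / 2) ∧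
      (∀ f : CuspForm 𝒮ℒ (k : ℤ), qExpansion 1 (T f) =
        uu (qExpansion 1 f) + C ((2 : ℂ) ^ k / 2) * dbl (qExpansion 1 f)) ∧
      ⨆ μ : ℂ, T.eigenspace μ = ⊤ := by
  obtain ⟨T, hT, hq⟩ := MT2.exists_T2 k
  haveI hfin : FiniteDimensional ℂ (CuspForm 𝒮ℒ (k : ℤ)) := MT2.cusp_fin (k : ℤ)
  have hTf : ∀ f : CuspForm 𝒮ℒ (k : ℤ), (T f : ℍ → ℂ) = MT2.T2f k f := fun f => funext (hT f)
  have htop : ⨆ μ : ℂ, T.eigenspace μ = ⊤ := by
    refine MT2.eig_top (V := CuspForm 𝒮ℒ (k : ℤ)) (fun f g => MT2.pet k f g) (MT2.pet_add k)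
      (fun f a g => MT2.pet_smul k f g a)
      (MT2.pet_conj k) (MT2.pet_pos k) (MT2.pet_def k) T ?_
    intro f g
    change MT2.pet k (T f) g = MT2.pet k f (T g)
    rw [hTf f, hTf g]
    exact MT2.pet_adj k f g
  exact ⟨hfin, T, hT, hq, htop⟩

theorem ncard_eig {V : Type} [AddCommGroup V] [Module ℂ V] [FiniteDimensional ℂ V]
    (T : Module.End ℂ V) (htop : ⨆ μ : ℂ, T.eigenspace μ = ⊤)
    (h : ∀ μ, Module.finrank ℂ (T.eigenspace μ) ≤ 1) :
    {μ : ℂ | T.HasEigenvalue μ}.ncard = Module.finrank ℂ V := by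
  classical
  apply le_antisymm
  · have hfin : Set.Finite {μ : ℂ | T.HasEigenvalue μ} := Module.End.finite_hasEigenvalue T
    haveI : Fintype ↥{μ : ℂ | T.HasEigenvalue μ} := hfin.fintype
    have hex : ∀ μ : ↥{μ : ℂ | T.HasEigenvalue μ}, ∃ x : V, T.HasEigenvector (μ : ℂ) x :=
      fun μ => Module.End.HasEigenvalue.exists_hasEigenvector μ.2
    choose x hx using hex
    have hli : LinearIndependent ℂ x := Module.End.eigenvectors_linearIndependent T _ x hx
    have hle := hli.fintype_card_le_finrank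
    rwa [← Nat.card_eq_fintype_card] at hle
  · have := card_eig T htop 1 h
    rwa [one_mul] at this

/-- An injective map from a set with `d` elements into the numbers `1, …, d` is onto. -/
theorem exists_unique_val {Γ : Type} [LinearOrderedCommGroupWithZero Γ] (v : Valuation ℂ Γ)
    (hv : v 2 < 1) (S : Set ℂ) (d : ℕ) (hS : S.ncard = d) (s : Fin d → ℕ)
    (h1 : ∀ μ ∈ S, ∃ n, v (2 * μ) = v 2 ^ s n) (h2 : ∀ μ ∈ S, ∀ μ' ∈ S, v μ = v μ' → μ = μ')
    (n : Fin d) : ∃! μ, μ ∈ S ∧ v (2 * μ) = v 2 ^ s n := by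
  classical
  have hv2 : v 2 ≠ 0 := (Valuation.ne_zero_iff v).2 two_ne_zero
  have hcancel : ∀ μ μ' : ℂ, v (2 * μ) = v (2 * μ') → v μ = v μ' := by
    intro μ μ' hh
    rw [map_mul, map_mul] at hh
    exact mul_left_cancel₀ hv2 hh
  have hd : S.ncard ≠ 0 := by
    rw [hS]
    have := n.2
    omega
  have hfin : S.Finite := Set.finite_of_ncard_ne_zero hd
  haveI : Fintype ↥S := hfin.fintype
  have hcard : Fintype.card ↥S = Fintype.card (Fin d) := by
    rw [Fintype.card_fin, ← hS, ← Nat.card_eq_fintype_card]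
    rfl
  have h1' : ∀ μ : ↥S, ∃ n, v (2 * (μ : ℂ)) = v 2 ^ s n := fun μ => h1 μ μ.2
  choose g hg using h1'
  have hinj : Function.Injective g := by
    intro μ μ' hh
    apply Subtype.ext
    apply h2 μ μ.2 μ' μ'.2
    apply hcancel
    rw [hg μ, hg μ', hh]
  have hbij : Function.Bijective g := (Fintype.bijective_iff_injective_and_card g).2 ⟨hinj, hcard⟩
  obtain ⟨μ, hμ⟩ := hbij.2 n
  refine ⟨(μ : ℂ), ⟨μ.2, by rw [hg μ, hμ]⟩, ?_⟩
  rintro μ' ⟨hS', hv'⟩
  apply h2 μ' hS' μ μ.2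
  apply hcancel
  rw [hv', hg μ, hμ]

end MT2
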