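import Mathlib

/-!
# Binomial coefficients near a power of two

* `val_sub`: `padicValNat 2 (2 ^ r - m) = padicValNat 2 m` for `0 < m < 2 ^ r`.
* `choose_near`: `(2 ^ r - 1 - m).choose k` and `(m + k).choose k` have the same 2-adic valuation.
* `nt_up`, `nt_lo`: lower bounds for `v (C(n+t, 2t)) - v (C(2n+c+t, t))` and
  `v (C(n+c+t-1, 2t)) - v (C(2n+c-1, t))`.
-/

namespace MT2

theorem val_sub {r m : ℕ} (h0 : 0 < m) (h : m < 2 ^ r) :
    padicValNat 2 (2 ^ r - m) = padicValNat 2 m := by
  have h1 : 2 ^ r - m ≠ 0 := by omega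
  have h2 : m ≠ 0 := by omega
  refine eq_of_forall_le_iff fun k => ?_
  rw [← padicValNat_dvd_iff_le h1, ← padicValNat_dvd_iff_le h2]
  rcases le_or_gt k r with hk | hk
  · have h3 : 2 ^ k ∣ 2 ^ r := pow_dvd_pow 2 hk
    constructor
    · intro h4
      have h5 := Nat.dvd_sub h3 h4
      have h6 : 2 ^ r - (2 ^ r - m) = m := by omega
      rwa [h6] at h5
    · intro h4
      exact Nat.dvd_sub h3 h4
  · have h3 : 2 ^ r < 2 ^ k := Nat.pow_lt_pow_right (by norm_num) hk
    constructor
    · intro h4
      have := Nat.le_of_dvd (by omega) h4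
      omega
    · intro h4
      have := Nat.le_of_dvd (by omega) h4
      omega

theorem choose_near {r m k : ℕ} (h : m + k < 2 ^ r) :
    padicValNat 2 (Nat.choose (2 ^ r - 1 - m) k) = padicValNat 2 (Nat.choose (m + k) k) := by
  induction k with
  | zero => simp
  | succ k ih =>
    have ih' := ih (by omega)
    have h1 : (2 ^ r - 1 - m).choose (k + 1) * (k + 1) =
        (2 ^ r - 1 - m).choose k * (2 ^ r - 1 - m - k) := Nat.choose_succ_right_eq _ _
    have h2 : (m + k + 1) * (m + k).choose k = (m + k + 1).choose (k + 1) * (k + 1) :=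
      Nat.add_one_mul_choose_eq _ _
    have e1 : 2 ^ r - 1 - m - k = 2 ^ r - (m + k + 1) := by omega
    have p1 : (2 ^ r - 1 - m).choose (k + 1) ≠ 0 := (Nat.choose_pos (by omega)).ne'
    have p2 : (2 ^ r - 1 - m).choose k ≠ 0 := (Nat.choose_pos (by omega)).ne'
    have p3 : (m + k).choose k ≠ 0 := (Nat.choose_pos (by omega)).ne'
    have p4 : (m + k + 1).choose (k + 1) ≠ 0 := (Nat.choose_pos (by omega)).ne'
    have p5 : 2 ^ r - (m + k + 1) ≠ 0 := by omega
    have p6 : k + 1 ≠ 0 := by omega
    have p7 : m + k + 1 ≠ 0 := by omega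
    rw [e1] at h1
    have v1 := congrArg (padicValNat 2) h1
    have v2 := congrArg (padicValNat 2) h2
    rw [padicValNat.mul p1 p6, padicValNat.mul p2 p5, val_sub (by omega) (by omega)] at v1
    rw [padicValNat.mul p7 p3, padicValNat.mul p4 p6] at v2
    have e2 : m + (k + 1) = m + k + 1 := by omega
    rw [e2]
    omega

private theorem asc_ne {a k : ℕ} (ha : 1 ≤ a) : a.ascFactorial k ≠ 0 := by
  induction k with
  | zero => simp
  | succ k ih =>
    rw [Nat.ascFactorial_succ]
    have : a + k ≠ 0 := by omega
    exact Nat.mul_ne_zero this ih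

private theorem asc_split (a j k : ℕ) :
    a.ascFactorial (j + k) = a.ascFactorial j * (a + j).ascFactorial k := by
  induction k with
  | zero => simp
  | succ k ih =>
    rw [← add_assoc, Nat.ascFactorial_succ, Nat.ascFactorial_succ, ih]
    ring

private theorem val_odd (x : ℕ) : padicValNat 2 (2 * x + 1) = 0 := by
  apply padicValNat.eq_zero_of_not_dvd
  omega

private theorem val_two_mul {x : ℕ} (hx : x ≠ 0) : padicValNat 2 (2 * x) = 1 + padicValNat 2 x := by
  rw [padicValNat.mul (by norm_num) hx]
  simp

/-- both parities, by one induction -/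
private theorem val_asc (m t : ℕ) :
    padicValNat 2 ((2 * m + 1).ascFactorial (2 * t)) =
        t + padicValNat 2 ((m + 1).ascFactorial t) ∧
      padicValNat 2 ((2 * m + 1).ascFactorial (2 * t + 1)) =
        t + padicValNat 2 ((m + 1).ascFactorial t) ∧
      padicValNat 2 ((2 * (m + 1)).ascFactorial (2 * t)) =
        t + padicValNat 2 ((m + 1).ascFactorial t) ∧
      padicValNat 2 ((2 * (m + 1)).ascFactorial (2 * t + 1)) =
        t + 1 + padicValNat 2 ((m + 1).ascFactorial (t + 1)) := by
  have A : ∀ t : ℕ, padicValNat 2 ((2 * m + 1).ascFactorial (2 * t)) =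
        t + padicValNat 2 ((m + 1).ascFactorial t) →
      padicValNat 2 ((2 * m + 1).ascFactorial (2 * t + 1)) =
        t + padicValNat 2 ((m + 1).ascFactorial t) := by
    intro t h
    rw [Nat.ascFactorial_succ, padicValNat.mul (by omega) (asc_ne (by omega)), h]
    have : 2 * m + 1 + 2 * t = 2 * (m + t) + 1 := by ring
    rw [this, val_odd]
    omega
  have A' : ∀ t : ℕ, padicValNat 2 ((2 * m + 1).ascFactorial (2 * t)) =
        t + padicValNat 2 ((m + 1).ascFactorial t) := by
    intro t
    induction t with
    | zero => simp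
    | succ t ih =>
      have h1 := A t ih
      have e : 2 * (t + 1) = (2 * t + 1) + 1 := by ring
      rw [e, Nat.ascFactorial_succ, padicValNat.mul (by omega) (asc_ne (by omega)), h1]
      have e2 : 2 * m + 1 + (2 * t + 1) = 2 * (m + 1 + t) := by ring
      rw [e2, val_two_mul (by omega), Nat.ascFactorial_succ,
        padicValNat.mul (by omega) (asc_ne (by omega))]
      omega
  have B : ∀ t : ℕ, padicValNat 2 ((2 * (m + 1)).ascFactorial (2 * t)) =
        t + padicValNat 2 ((m + 1).ascFactorial t) →
      padicValNat 2 ((2 * (m + 1)).ascFactorial (2 * t + 1)) =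
        t + 1 + padicValNat 2 ((m + 1).ascFactorial (t + 1)) := by
    intro t h
    rw [Nat.ascFactorial_succ, padicValNat.mul (by omega) (asc_ne (by omega)), h]
    have : 2 * (m + 1) + 2 * t = 2 * (m + 1 + t) := by ring
    rw [this, val_two_mul (by omega), Nat.ascFactorial_succ,
      padicValNat.mul (by omega) (asc_ne (by omega))]
    omega
  have B' : ∀ t : ℕ, padicValNat 2 ((2 * (m + 1)).ascFactorial (2 * t)) =
        t + padicValNat 2 ((m + 1).ascFactorial t) := by
    intro t
    induction t with
    | zero => simp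
    | succ t ih =>
      have h1 := B t ih
      have e : 2 * (t + 1) = (2 * t + 1) + 1 := by ring
      rw [e, Nat.ascFactorial_succ, padicValNat.mul (by omega) (asc_ne (by omega)), h1]
      have e2 : 2 * (m + 1) + (2 * t + 1) = 2 * (m + 1 + t) + 1 := by ring
      rw [e2, val_odd]
      omega
  exact ⟨A' t, A t (A' t), B' t, B t (B' t)⟩

private theorem val_fact_two (t : ℕ) :
    padicValNat 2 (2 * t).factorial = t + padicValNat 2 t.factorial := by
  have h := (val_asc 0 t).1
  simpa [Nat.one_ascFactorial] using h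

private theorem val_fact_le {a k : ℕ} (ha : 1 ≤ a) :
    padicValNat 2 k.factorial ≤ padicValNat 2 (a.ascFactorial k) := by
  obtain ⟨b, rfl⟩ : ∃ b, a = b + 1 := ⟨a - 1, by omega⟩
  rw [Nat.ascFactorial_eq_factorial_mul_choose, padicValNat.mul (Nat.factorial_ne_zero _)
    (Nat.choose_pos (by omega)).ne']
  omega

/-- `C (a + k) k * k! = (a+1) … (a+k)` in valuations -/
private theorem val_choose (a k : ℕ) :
    padicValNat 2 ((a + k).choose k) + padicValNat 2 k.factorial =
      padicValNat 2 ((a + 1).ascFactorial k) := by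
  rw [Nat.ascFactorial_eq_factorial_mul_choose, padicValNat.mul (Nat.factorial_ne_zero _)
    (Nat.choose_pos (by omega)).ne']
  omega

theorem nt_up {n t c : ℕ} (ht : 1 ≤ t) (htn : t ≤ n) (hc : c ≤ 1) :
    padicValNat 2 (Nat.choose (2 * n + c + t) t) + (if c = 1 ∧ t = 1 then 0 else 1) ≤
      padicValNat 2 (Nat.choose (n + t) (2 * t)) + 2 * t := by
  have h1 := val_choose (2 * n + c) t
  obtain ⟨q, hq⟩ : ∃ q, q = (t + c) / 2 := ⟨_, rfl⟩
  have h2 : padicValNat 2 ((2 * n + c + 1).ascFactorial t) =
      q + padicValNat 2 ((n + 1).ascFactorial q) := by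
    rcases Nat.even_or_odd' t with ⟨u, rfl | rfl⟩
    · have hqu : q = u := by omega
      interval_cases c
      · have := (val_asc n u).1
        rw [hqu]
        simpa using this
      · have := (val_asc n u).2.2.1
        rw [hqu]
        have e : 2 * n + 1 + 1 = 2 * (n + 1) := by ring
        rw [e]
        exact this
    · interval_cases c
      · have hqu : q = u := by omega
        have := (val_asc n u).2.1
        rw [hqu]
        simpa using this
      · have hqu : q = u + 1 := by omega
        have := (val_asc n u).2.2.2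
        rw [hqu]
        have e : 2 * n + 1 + 1 = 2 * (n + 1) := by ring
        rw [e]
        exact this
  obtain ⟨d, hd⟩ : ∃ d, n = d + t := ⟨n - t, by omega⟩
  have h3 := val_choose d (2 * t)
  have e3 : d + 2 * t = n + t := by omega
  rw [e3, val_fact_two] at h3
  have h4 : (d + 1).ascFactorial (2 * t) =
      (d + 1).ascFactorial t * ((n + 1).ascFactorial q * (n + 1 + q).ascFactorial (t - q)) := by
    have e4 : 2 * t = t + (q + (t - q)) := by omega
    rw [e4, asc_split, asc_split]
    have e5 : d + 1 + t = n + 1 := by omega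
    rw [e5]
  rw [h4, padicValNat.mul (asc_ne (by omega)) (Nat.mul_ne_zero (asc_ne (by omega)) (asc_ne (by omega))),
    padicValNat.mul (asc_ne (by omega)) (asc_ne (by omega))] at h3
  have h5 := val_fact_le (a := d + 1) (k := t) (by omega)
  split_ifs with h6 <;> omega

theorem nt_lo {n t c : ℕ} (ht : 1 ≤ t) (htn : t < n) (hc : c ≤ 1) :
    padicValNat 2 (Nat.choose (2 * n + c - 1) t) + (if c = 1 ∧ t = 1 then 0 else 1) ≤
      padicValNat 2 (Nat.choose (n + c + t - 1) (2 * t)) + 2 * t := by
  obtain ⟨q, hq⟩ : ∃ q, q = (t + c) / 2 := ⟨_, rfl⟩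
  obtain ⟨b, hb⟩ : ∃ b, 2 * n + c = b + 1 + t := ⟨2 * n + c - 1 - t, by omega⟩
  have h1 := val_choose b t
  have e1 : b + t = 2 * n + c - 1 := by omega
  rw [e1] at h1
  obtain ⟨m, hm⟩ : ∃ m, n + c = m + 1 + q := ⟨n + c - 1 - q, by omega⟩
  have h2 : padicValNat 2 ((b + 1).ascFactorial t) =
      q + padicValNat 2 ((m + 1).ascFactorial q) := by
    rcases Nat.even_or_odd' t with ⟨u, rfl | rfl⟩
    · have hqu : q = u := by omega
      interval_cases c
      · have := (val_asc m u).2.2.1
        rw [hqu]
        have e : b + 1 = 2 * (m + 1) := by omega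
        rw [e]
        exact this
      · have := (val_asc m u).1
        rw [hqu]
        have e : b + 1 = 2 * m + 1 := by omega
        rw [e]
        exact this
    · interval_cases c
      · have hqu : q = u := by omega
        have := (val_asc m u).2.1
        rw [hqu]
        have e : b + 1 = 2 * m + 1 := by omega
        rw [e]
        exact this
      · have hqu : q = u + 1 := by omega
        have := (val_asc m u).2.2.2
        rw [hqu]
        have e : b + 1 = 2 * (m + 1) := by omega
        rw [e]
        exact this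
  obtain ⟨d, hd⟩ : ∃ d, n + c = d + 1 + t := ⟨n + c - 1 - t, by omega⟩
  have h3 := val_choose d (2 * t)
  have e3 : d + 2 * t = n + c + t - 1 := by omega
  rw [e3, val_fact_two] at h3
  have h4 : (d + 1).ascFactorial (2 * t) =
      (d + 1).ascFactorial (t - q) * ((m + 1).ascFactorial q * (n + c).ascFactorial t) := by
    have e4 : 2 * t = (t - q) + (q + t) := by omega
    rw [e4, asc_split, asc_split]
    have e5 : d + 1 + (t - q) = m + 1 := by omega
    have e6 : m + 1 + q = n + c := by omega
    rw [e5, e6]
  rw [h4, padicValNat.mul (asc_ne (by omega)) (Nat.mul_ne_zero (asc_ne (by omega)) (asc_ne (by omega))),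
    padicValNat.mul (asc_ne (by omega)) (asc_ne (by omega))] at h3
  have h5 := val_fact_le (a := n + c) (k := t) (by omega)
  split_ifs with h6 <;> omega

end MT2
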