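import Pool.Agent.Lib_MP_bfd926_ab.AClo
import Pool.Agent.Lib_MP_bfd926_ab.ANt

/-!
# The pivots in the weights near a power of two

`dE_eq`, `del w n = -(2w-1-2n) * kap w n / (2n-1)` and `kap_closed` (in `SDb`):
`v (del w n) = v (C(w-2n-1, n-1)) - v (C(2w-3n-1, n-1))`.
* `w = 2 ^ r`: by `choose_near` (for `2 ^ r` and `2 ^ (r+1)`; `3n ≤ w`, for `e = 0` `3n < w` as `3 ∤ 2 ^ r`)
  `v (C(w-2n-1, n-1)) = v (C(3n-1, n-1))`, `v (C(2w-3n-1, n-1)) = v (C(4n-1, n-1))`, and
  `v (C(3n-1,n-1)) - v (C(4n-1,n-1)) = v ((3n-1)!) + v ((3n)!) - v ((2n)!) - v ((4n-1)!)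
    = 2 v ((3n)!) - 2 v (n!) - 4n + 2`, since `v ((2m)!) = m + v (m!)`. For `e = 1` one has the factor
  `2 (w - 3n) / (2w - 3n)`, `v (w - 3n) = v (3n) = v (2w - 3n)` (`val_sub`).
* `w = 2 ^ r - 1`, `e = 1`: `v (C(w-2n-1, n-1)) = v (C(3n, n-1))`, `v (C(2w-3n-1, n-1)) = v (C(4n+1, n-1))`,
  `v (w - 3n) = v (3n+1)`, `v (2w - 3n) = v (3n+2)`; the sum is
  `1 + 2 v (3n+1) + 2 v ((3n)!) - 2 v (n!) - 4n`.
`16 ^ n` contributes `4n`. The bound: `v ((3n)! / n!) ≤ v ((3n)!) ≤ 3n - 1` (`n ≥ 1`), and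
`v ((3n+1)! / n!) ≤ 3n`.
-/

namespace MT2

private theorem ADl_mul {a b : ℕ} (ha : a ≠ 0) (hb : b ≠ 0) :
    padicValNat 2 (a * b) = padicValNat 2 a + padicValNat 2 b := padicValNat.mul ha hb

private theorem ADl_fac_succ (n : ℕ) :
    padicValNat 2 (n + 1).factorial = padicValNat 2 (n + 1) + padicValNat 2 n.factorial := by
  rw [Nat.factorial_succ, ADl_mul (Nat.succ_ne_zero n) (Nat.factorial_ne_zero n)]

private theorem ADl_fac_two (m : ℕ) :
    padicValNat 2 (2 * m).factorial = m + padicValNat 2 m.factorial := by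
  rw [padicValNat_factorial_mul, add_comm]

private theorem ADl_odd {m : ℕ} (h : m % 2 = 1) : padicValNat 2 m = 0 :=
  padicValNat.eq_zero_of_not_dvd (by omega)

private theorem ADl_even {m : ℕ} (h0 : m ≠ 0) (h : m % 2 = 0) : 1 ≤ padicValNat 2 m :=
  one_le_padicValNat_of_dvd h0 (Nat.dvd_of_mod_eq_zero h)

private theorem ADl_three (m : ℕ) (h : m ≠ 0) : padicValNat 2 (3 * m) = padicValNat 2 m := by
  rw [ADl_mul (by norm_num) h, ADl_odd (m := 3) (by norm_num), zero_add]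

private theorem ADl_double (m : ℕ) (h : m ≠ 0) :
    padicValNat 2 (2 * m) = padicValNat 2 m + 1 := by
  rw [ADl_mul (by norm_num) h, padicValNat_self, add_comm]

private theorem ADl_div {a b : ℕ} (h : a ≤ b) :
    padicValNat 2 (b.factorial / a.factorial) + padicValNat 2 a.factorial =
      padicValNat 2 b.factorial := by
  obtain ⟨q, hq⟩ := Nat.factorial_dvd_factorial h
  have ha := Nat.factorial_ne_zero a
  have hb := Nat.factorial_ne_zero b
  have hq0 : q ≠ 0 := by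
    rintro rfl
    rw [mul_zero] at hq
    exact hb hq
  rw [hq, Nat.mul_div_cancel_left _ (Nat.factorial_pos a), ADl_mul ha hq0, add_comm]

private theorem ADl_choose {n k : ℕ} (h : k ≤ n) :
    padicValNat 2 (n.choose k) + padicValNat 2 k.factorial + padicValNat 2 (n - k).factorial =
      padicValNat 2 n.factorial := by
  rw [← Nat.choose_mul_factorial_mul_factorial h,
    ADl_mul (mul_ne_zero (Nat.choose_pos h).ne' (Nat.factorial_ne_zero k))
      (Nat.factorial_ne_zero (n - k)),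
    ADl_mul (Nat.choose_pos h).ne' (Nat.factorial_ne_zero k)]

private theorem ADl_lt (n : ℕ) : 1 ≤ n → padicValNat 2 n.factorial + 1 ≤ n := by
  induction n using Nat.strong_induction_on with
  | _ n ih =>
    intro hn
    rcases Nat.even_or_odd' n with ⟨m, rfl | rfl⟩
    · have := ih m (by omega) (by omega)
      rw [ADl_fac_two]
      omega
    · rcases Nat.eq_zero_or_pos m with rfl | hm
      · simp
      · have := ih m (by omega) hm
        rw [ADl_fac_succ, ADl_odd (m := 2 * m + 1) (by omega), ADl_fac_two]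
        omega

private theorem ADl_int {z : ℤ} (h : z % 2 = 1) : padicValRat 2 (z : ℚ) = 0 := by
  rw [padicValRat.of_int, Nat.cast_eq_zero]
  refine padicValInt.eq_zero_of_not_dvd (fun h2 => ?_)
  have : ((2 : ℕ) : ℤ) = 2 := rfl
  rw [this] at h2
  omega

private theorem ADl_prod {ι : Type} (s : Finset ι) (f : ι → ℤ) (h : ∀ i ∈ s, f i % 2 = 1) :
    padicValRat 2 (∏ i ∈ s, (f i : ℚ)) = 0 ∧ (∏ i ∈ s, (f i : ℚ)) ≠ 0 := by
  classical
  induction s using Finset.induction_on with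
  | empty => simp
  | insert a s ha ih =>
    obtain ⟨h1, h2⟩ := ih (fun i hi => h i (Finset.mem_insert_of_mem hi))
    have h3 := h a (Finset.mem_insert_self a s)
    have h4 : ((f a : ℤ) : ℚ) ≠ 0 := by
      rw [Int.cast_ne_zero]
      omega
    rw [Finset.prod_insert ha]
    refine ⟨?_, mul_ne_zero h4 h2⟩
    rw [padicValRat.mul h4 h2, h1, ADl_int h3, add_zero]

private theorem ADl_del {w n : ℕ} (hn : 3 * n ≤ w) (h1 : 1 ≤ n) :
    padicValRat 2 (del w n) + (padicValNat 2 (Nat.choose (2 * w - 3 * n - 1) (n - 1)) : ℤ) =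
      (padicValNat 2 (Nat.choose (w - 2 * n - 1) (n - 1)) : ℤ) := by
  have hk := kap_closed hn h1
  obtain ⟨q1, q1'⟩ := ADl_prod (Finset.range (n - 1)) (fun m : ℕ => 2 * (m : ℤ) + 1)
    (fun m _ => by omega)
  obtain ⟨q2, q2'⟩ := ADl_prod (Finset.Ioo n (2 * n)) (fun m : ℕ => 2 * (w : ℤ) - 1 - 2 * m)
    (fun m _ => by omega)
  push_cast at q1 q1' q2 q2'
  have hd := del_ne hn h1
  have q4 : padicValRat 2 (2 * (n : ℚ) - 1) = 0 := by
    have h := ADl_int (z := 2 * (n : ℤ) - 1) (by omega)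
    push_cast at h
    exact h
  have q5 : padicValRat 2 (2 * (w : ℚ) - 1 - 2 * n) = 0 := by
    have h := ADl_int (z := 2 * (w : ℤ) - 1 - 2 * n) (by omega)
    push_cast at h
    exact h
  have r4 : (2 * (n : ℚ) - 1) ≠ 0 := by
    have : (2 * (n : ℚ) - 1) = ((2 * (n : ℤ) - 1 : ℤ) : ℚ) := by push_cast; ring
    rw [this, Int.cast_ne_zero]
    omega
  have r5 : (2 * (w : ℚ) - 1 - 2 * n) ≠ 0 := by
    have : (2 * (w : ℚ) - 1 - 2 * n) = ((2 * (w : ℤ) - 1 - 2 * n : ℤ) : ℚ) := by push_cast; ring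
    rw [this, Int.cast_ne_zero]
    omega
  have hkap : kap w n ≠ 0 := by
    intro h
    rw [del, h, mul_zero, zero_div] at hd
    exact hd rfl
  have c1 : (Nat.choose (2 * w - 3 * n - 1) (n - 1) : ℚ) ≠ 0 :=
    Nat.cast_ne_zero.mpr (Nat.choose_pos (by omega)).ne'
  have c2 : (Nat.choose (w - 2 * n - 1) (n - 1) : ℚ) ≠ 0 :=
    Nat.cast_ne_zero.mpr (Nat.choose_pos (by omega)).ne'
  have s1 : padicValRat 2 ((-1 : ℚ) ^ (n - 1)) = 0 := by
    have h := ADl_int (z := (-1 : ℤ) ^ (n - 1)) (by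
      rcases neg_one_pow_eq_or ℤ (n - 1) with h | h <;> rw [h] <;> norm_num)
    push_cast at h
    exact h
  have s2 : ((-1 : ℚ) ^ (n - 1)) ≠ 0 := pow_ne_zero _ (by norm_num)
  have e := congrArg (padicValRat 2) hk
  rw [padicValRat.mul (mul_ne_zero hkap q1') c1, padicValRat.mul hkap q1', q1,
    padicValRat.mul (mul_ne_zero s2 q2') c2, padicValRat.mul s2 q2', q2, s1,
    padicValRat.of_nat, padicValRat.of_nat, add_zero, zero_add, zero_add] at e
  rw [← e]
  congr 1
  rw [del, padicValRat.div (mul_ne_zero (neg_ne_zero.mpr r5) hkap) r4,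
    padicValRat.mul (neg_ne_zero.mpr r5) hkap, padicValRat.neg, q5, q4, zero_add, sub_zero]

private theorem ADl_twopow (k : ℕ) : padicValRat 2 ((2 : ℚ) ^ k) = (k : ℤ) := by
  have h2 : padicValRat 2 (2 : ℚ) = 1 := by
    have := padicValRat.self (p := 2) (by norm_num)
    exact_mod_cast this
  induction k with
  | zero => simp
  | succ k ih =>
    rw [pow_succ, padicValRat.mul (pow_ne_zero _ two_ne_zero) two_ne_zero, ih, h2]
    push_cast
    ring

private theorem ADl_sixteen (n : ℕ) {x : ℚ} (hx : x ≠ 0) :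
    padicValRat 2 (16 ^ n * x) = 4 * (n : ℤ) + padicValRat 2 x := by
  have h16 : (16 : ℚ) = 2 ^ 4 := by norm_num
  rw [h16, ← pow_mul, padicValRat.mul (pow_ne_zero _ (by norm_num)) hx, ADl_twopow]
  push_cast
  ring

private theorem ADl_factor {w n : ℕ} (hn : 3 * n + 1 ≤ w) (h1 : 1 ≤ n) :
    padicValRat 2 (2 * ((w : ℚ) - 3 * n) / (2 * (w : ℚ) - 3 * n) * del w n) =
      1 + (padicValNat 2 (w - 3 * n) : ℤ) - (padicValNat 2 (2 * w - 3 * n) : ℤ) +
        padicValRat 2 (del w n) := by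
  have a1 : ((w : ℚ) - 3 * n) = ((w - 3 * n : ℕ) : ℚ) := by
    rw [Nat.cast_sub (by omega)]
    push_cast
    ring
  have a2 : (2 * (w : ℚ) - 3 * n) = ((2 * w - 3 * n : ℕ) : ℚ) := by
    rw [Nat.cast_sub (by omega)]
    push_cast
    ring
  have b1 : ((w - 3 * n : ℕ) : ℚ) ≠ 0 := Nat.cast_ne_zero.mpr (by omega)
  have b2 : ((2 * w - 3 * n : ℕ) : ℚ) ≠ 0 := Nat.cast_ne_zero.mpr (by omega)
  have h2 : padicValRat 2 (2 : ℚ) = 1 := by
    have := padicValRat.self (p := 2) (by norm_num)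
    exact_mod_cast this
  have hd := del_ne (w := w) (n := n) (by omega) h1
  rw [a1, a2, padicValRat.mul (div_ne_zero (mul_ne_zero two_ne_zero b1) b2) hd,
    padicValRat.div (mul_ne_zero two_ne_zero b1) b2, padicValRat.mul two_ne_zero b1, h2,
    padicValRat.of_nat, padicValRat.of_nat]

private theorem ADl_core {r n : ℕ} (hn : 3 * n ≤ 2 ^ r) (h1 : 1 ≤ n) :
    4 * (n : ℤ) + padicValRat 2 (del (2 ^ r) n) =
      2 + 2 * (padicValNat 2 ((3 * n).factorial / n.factorial) : ℤ) := by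
  have hd := ADl_del hn h1
  have p1 : 2 ^ (r + 1) = 2 * 2 ^ r := by rw [pow_succ]; ring
  have c1 := choose_near (r := r) (m := 2 * n) (k := n - 1) (by omega)
  have c2 := choose_near (r := r + 1) (m := 3 * n) (k := n - 1) (by omega)
  have e1 : 2 ^ r - 1 - 2 * n = 2 ^ r - 2 * n - 1 := by omega
  have e2 : 2 ^ (r + 1) - 1 - 3 * n = 2 * 2 ^ r - 3 * n - 1 := by omega
  rw [e1] at c1
  rw [e2] at c2
  rw [c1, c2] at hd
  have f1 := ADl_choose (n := 2 * n + (n - 1)) (k := n - 1) (by omega)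
  have f2 := ADl_choose (n := 3 * n + (n - 1)) (k := n - 1) (by omega)
  have g1 : 2 * n + (n - 1) - (n - 1) = 2 * n := by omega
  have g2 : 3 * n + (n - 1) - (n - 1) = 3 * n := by omega
  rw [g1] at f1
  rw [g2] at f2
  have k1 := ADl_fac_succ (2 * n + (n - 1))
  have k2 := ADl_fac_succ (3 * n + (n - 1))
  have l1 : 2 * n + (n - 1) + 1 = 3 * n := by omega
  have l2 : 3 * n + (n - 1) + 1 = 2 * (2 * n) := by omega
  rw [l1] at k1
  rw [l2] at k2
  have m1 := ADl_three n (by omega)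
  have m2 := ADl_double (2 * n) (by omega)
  have m3 := ADl_double n (by omega)
  have m4 := ADl_fac_two (2 * n)
  have m5 := ADl_fac_two n
  have m6 := ADl_div (a := n) (b := 3 * n) (by omega)
  omega

theorem dE_two {r e w n : ℕ} (he : e ≤ 1) (hw : w = 2 ^ r) (hn : 3 * n + e ≤ w) (h1 : 1 ≤ n) :
    padicValRat 2 (16 ^ n * dE e w n) =
      ((2 + e + 2 * padicValNat 2 ((3 * n).factorial / n.factorial) : ℕ) : ℤ) := by
  subst hw
  have hd := del_ne (w := 2 ^ r) (n := n) (by omega) h1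
  have hc := ADl_core (r := r) (n := n) (by omega) h1
  rw [dE_eq he hn h1]
  rcases Nat.le_one_iff_eq_zero_or_eq_one.mp he with rfl | rfl
  · rw [if_pos rfl, ADl_sixteen n hd]
    omega
  · rw [if_neg one_ne_zero]
    have hf := ADl_factor hn h1
    have hne : 2 * (((2 ^ r : ℕ) : ℚ) - 3 * n) / (2 * ((2 ^ r : ℕ) : ℚ) - 3 * n) *
        del (2 ^ r) n ≠ 0 := by
      have a1 : (((2 ^ r : ℕ) : ℚ) - 3 * n) = ((2 ^ r - 3 * n : ℕ) : ℚ) := by
        rw [Nat.cast_sub (by omega)]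
        push_cast
        ring
      have a2 : (2 * ((2 ^ r : ℕ) : ℚ) - 3 * n) = ((2 * 2 ^ r - 3 * n : ℕ) : ℚ) := by
        rw [Nat.cast_sub (by omega)]
        push_cast
        ring
      rw [a1, a2]
      exact mul_ne_zero (div_ne_zero (mul_ne_zero two_ne_zero (Nat.cast_ne_zero.mpr (by omega)))
        (Nat.cast_ne_zero.mpr (by omega))) hd
    rw [ADl_sixteen n hne, hf]
    have v1 := val_sub (r := r) (m := 3 * n) (by omega) (by omega)
    have p1 : 2 ^ (r + 1) = 2 * 2 ^ r := by rw [pow_succ]; ring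
    have v2 := val_sub (r := r + 1) (m := 3 * n) (by omega) (by omega)
    rw [p1] at v2
    rw [v1, v2]
    omega

theorem dE_near {r w n : ℕ} (hw : w + 1 = 2 ^ r) (hn : 3 * n + 1 ≤ w) (h1 : 1 ≤ n) :
    padicValRat 2 (16 ^ n * dE 1 w n) =
      ((1 + 2 * padicValNat 2 ((3 * n + 1).factorial / n.factorial) : ℕ) : ℤ) := by
  have hd := del_ne (w := w) (n := n) (by omega) h1
  rw [dE_eq le_rfl hn h1, if_neg one_ne_zero]
  have hf := ADl_factor hn h1
  have hne : 2 * ((w : ℚ) - 3 * n) / (2 * (w : ℚ) - 3 * n) * del w n ≠ 0 := by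
    have a1 : ((w : ℚ) - 3 * n) = ((w - 3 * n : ℕ) : ℚ) := by
      rw [Nat.cast_sub (by omega)]
      push_cast
      ring
    have a2 : (2 * (w : ℚ) - 3 * n) = ((2 * w - 3 * n : ℕ) : ℚ) := by
      rw [Nat.cast_sub (by omega)]
      push_cast
      ring
    rw [a1, a2]
    exact mul_ne_zero (div_ne_zero (mul_ne_zero two_ne_zero (Nat.cast_ne_zero.mpr (by omega)))
      (Nat.cast_ne_zero.mpr (by omega))) hd
  rw [ADl_sixteen n hne, hf]
  have p1 : 2 ^ (r + 1) = 2 * 2 ^ r := by rw [pow_succ]; ring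
  have v1 := val_sub (r := r) (m := 3 * n + 1) (by omega) (by omega)
  have v2 := val_sub (r := r + 1) (m := 3 * n + 2) (by omega) (by omega)
  have u1 : 2 ^ r - (3 * n + 1) = w - 3 * n := by omega
  have u2 : 2 ^ (r + 1) - (3 * n + 2) = 2 * w - 3 * n := by omega
  rw [u1] at v1
  rw [u2] at v2
  have hdel := ADl_del (w := w) (n := n) (by omega) h1
  have c1 := choose_near (r := r) (m := 2 * n + 1) (k := n - 1) (by omega)
  have c2 := choose_near (r := r + 1) (m := 3 * n + 2) (k := n - 1) (by omega)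
  have e1 : 2 ^ r - 1 - (2 * n + 1) = w - 2 * n - 1 := by omega
  have e2 : 2 ^ (r + 1) - 1 - (3 * n + 2) = 2 * w - 3 * n - 1 := by omega
  rw [e1] at c1
  rw [e2] at c2
  rw [c1, c2] at hdel
  have f1 := ADl_choose (n := 2 * n + 1 + (n - 1)) (k := n - 1) (by omega)
  have f2 := ADl_choose (n := 3 * n + 2 + (n - 1)) (k := n - 1) (by omega)
  have g1 : 2 * n + 1 + (n - 1) - (n - 1) = 2 * n + 1 := by omega
  have g2 : 3 * n + 2 + (n - 1) - (n - 1) = 3 * n + 1 + 1 := by omega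
  have g3 : 2 * n + 1 + (n - 1) = 3 * n := by omega
  have g4 : 3 * n + 2 + (n - 1) = 2 * (2 * n) + 1 := by omega
  rw [g1, g3] at f1
  rw [g2, g4] at f2
  rw [g3, g4] at hdel
  have k1 := ADl_fac_succ (2 * n)
  have k2 := ADl_fac_succ (2 * (2 * n))
  have k3 := ADl_fac_succ (3 * n + 1)
  have k4 := ADl_fac_succ (3 * n)
  have o1 := ADl_odd (m := 2 * n + 1) (by omega)
  have o2 := ADl_odd (m := 2 * (2 * n) + 1) (by omega)
  have m4 := ADl_fac_two (2 * n)
  have m5 := ADl_fac_two n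
  have m6 := ADl_div (a := n) (b := 3 * n + 1) (by omega)
  have x1 : 3 * n + 1 + 1 = 3 * n + 2 := rfl
  rw [x1] at k3 f2
  omega

theorem s_two_le {n : ℕ} (h1 : 1 ≤ n) :
    padicValNat 2 ((3 * n).factorial / n.factorial) ≤ 3 * n - 1 := by
  have m6 := ADl_div (a := n) (b := 3 * n) (by omega)
  have m7 := ADl_lt (3 * n) (by omega)
  omega

theorem s_near_le {n : ℕ} (h1 : 1 ≤ n) :
    padicValNat 2 ((3 * n + 1).factorial / n.factorial) ≤ 3 * n := by
  have m6 := ADl_div (a := n) (b := 3 * n + 1) (by omega)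
  have m7 := ADl_lt (3 * n + 1) (by omega)
  omega

/-- `(3n+3)! / (n+1)! = (3n+1)(3n+2) * 3 * ((3n)! / n!)`, and one of `3n+1`, `3n+2` is even. -/
theorem s_two_lt (n : ℕ) :
    padicValNat 2 ((3 * n).factorial / n.factorial) <
      padicValNat 2 ((3 * (n + 1)).factorial / (n + 1).factorial) := by
  have a1 := ADl_div (a := n) (b := 3 * n) (by omega)
  have a2 := ADl_div (a := n + 1) (b := 3 * (n + 1)) (by omega)
  have b1 := ADl_fac_succ n
  have b2 := ADl_fac_succ (3 * n)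
  have b3 := ADl_fac_succ (3 * n + 1)
  have b4 := ADl_fac_succ (3 * n + 2)
  have b5 := ADl_three (n + 1) (by omega)
  have e1 : 3 * n + 2 + 1 = 3 * (n + 1) := by omega
  have e2 : 3 * n + 1 + 1 = 3 * n + 2 := rfl
  rw [e1] at b4
  rw [e2] at b3
  rcases Nat.mod_two_eq_zero_or_one n with h | h
  · have := ADl_even (m := 3 * n + 2) (by omega) (by omega)
    omega
  · have := ADl_even (m := 3 * n + 1) (by omega) (by omega)
    omega

private theorem ADl_near (n : ℕ) :
    padicValNat 2 ((3 * (n + 1) + 1).factorial / (n + 1).factorial) =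
      padicValNat 2 ((3 * n + 1).factorial / n.factorial) + padicValNat 2 (3 * n + 2) +
        padicValNat 2 (3 * n + 4) := by
  have a1 := ADl_div (a := n) (b := 3 * n + 1) (by omega)
  have a2 := ADl_div (a := n + 1) (b := 3 * (n + 1) + 1) (by omega)
  have b1 := ADl_fac_succ n
  have b2 := ADl_fac_succ (3 * n + 1)
  have b3 := ADl_fac_succ (3 * n + 2)
  have b4 := ADl_fac_succ (3 * n + 3)
  have b5 := ADl_three (n + 1) (by omega)
  have e1 : 3 * n + 2 + 1 = 3 * n + 3 := rfl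
  have e2 : 3 * n + 1 + 1 = 3 * n + 2 := rfl
  have e3 : 3 * n + 3 + 1 = 3 * n + 4 := rfl
  have e4 : 3 * (n + 1) + 1 = 3 * n + 4 := by omega
  have e5 : 3 * (n + 1) = 3 * n + 3 := by omega
  rw [e1] at b3
  rw [e2] at b2
  rw [e3] at b4
  rw [e4] at a2 ⊢
  rw [e5] at b5
  omega

/-- `(3n+4)! / (n+1)! = 3 * (3n+2)(3n+4) * ((3n+1)! / n!)`. -/
theorem s_near_eq {n : ℕ} (h : n % 2 = 1) :
    padicValNat 2 ((3 * (n + 1) + 1).factorial / (n + 1).factorial) =
      padicValNat 2 ((3 * n + 1).factorial / n.factorial) := by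
  rw [ADl_near, ADl_odd (m := 3 * n + 2) (by omega), ADl_odd (m := 3 * n + 4) (by omega),
    add_zero, add_zero]

theorem s_near_lt {n : ℕ} (h : n % 2 = 0) :
    padicValNat 2 ((3 * n + 1).factorial / n.factorial) <
      padicValNat 2 ((3 * (n + 1) + 1).factorial / (n + 1).factorial) := by
  rw [ADl_near]
  have := ADl_even (m := 3 * n + 2) (by omega) (by omega)
  omega

end MT2
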