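import Pool.Agent.Lib_MP_bfd926_ab.ARoot

/-!
# Rational polynomials whose roots have residues of degree two have even degree

Let `A = v.valuationSubring`, `k` its residue field, of characteristic `2` (`v 2 < 1`). The roots of `Q` in `ℂ`
(with multiplicities, `Q.aroots ℂ`, `card = Q.natDegree`) are partitioned by the exponent `s` (unique, as
`v 2 < 1`, `v 2 ≠ 0`). It suffices to show that for every `s` the number of roots with `v μ = v 2 ^ s` is even.
Fix `s`; if there is no such root we are done, otherwise take one and let `ω` be the residue of `μ / 2 ^ s`;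
`ω ^ 2 + ω + 1 = 0`, `ω ≠ 0`, and every root with `v μ = v 2 ^ s` has residue `ω` or `ω ^ 2 = ω + 1`, while for roots
with `v μ < v 2 ^ s` the residue of `μ / 2 ^ s` is `0`, for `v μ > v 2 ^ s` we have `μ / 2 ^ s ∉ A`.
So the number of roots with `v μ = v 2 ^ s` is `N ω + N (ω ^ 2)`, `N x` the number of roots `μ` of `Q` with
`μ / 2 ^ s` in `A` of residue `x`, and `ω ≠ ω ^ 2`. Claim: `N (x ^ 2) = N x`.
Let `Q_s (X) = Q (2 ^ s X)` (`Polynomial.comp`, `Polynomial.scaleRoots`, or `Q.comp (C (2 ^ s) * X)`), whose roots are `μ / 2 ^ s`.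
Divide by the coefficient `q` of `Q_s` with the largest valuation: `R = q⁻¹ Q_s` in `ℚ[X]`, all coefficients have
valuation `≤ 1`, one of them is `1`. For a rational number `c` with `v c ≤ 1` the residue `c̄` satisfies `c̄ ^ 2 = c̄`:
`c = a / b` in lowest terms, `b` is odd (else `v c > 1`), so `c̄ = ā / b̄` with `ā`, `b̄` in `{0, 1}`.
So the reduction `R̄` satisfies `R̄.map (frobenius k 2) = R̄`, and `Polynomial.eq_rootMultiplicity_map` (the Frobenius
is injective) gives `rootMultiplicity (x ^ 2) R̄ = rootMultiplicity x R̄`; now use `root_red`.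
-/

open Polynomial

namespace MT2

/-- integers lie in `A` -/
private theorem aeven_int {Γ : Type} [LinearOrderedCommGroupWithZero Γ] (v : Valuation ℂ Γ) (m : ℤ) :
    v (m : ℂ) ≤ 1 := by
  have h : ((m : ℤ) : ℂ) ∈ v.valuationSubring := intCast_mem _ m
  exact (Valuation.mem_valuationSubring_iff v _).mp h

/-- odd integers are units -/
private theorem aeven_odd {Γ : Type} [LinearOrderedCommGroupWithZero Γ] (v : Valuation ℂ Γ)
    (hv : v 2 < 1) (m : ℤ) (hm : Odd m) : v (m : ℂ) = 1 := by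
  obtain ⟨k, hk⟩ := hm
  have h1 : v (2 * (k : ℂ)) < 1 := by
    rw [map_mul]
    calc v 2 * v (k : ℂ) ≤ v 2 * 1 := mul_le_mul' le_rfl (aeven_int v k)
      _ = v 2 := mul_one _
      _ < 1 := hv
  have h2 : (m : ℂ) = 2 * (k : ℂ) + 1 := by rw [hk]; push_cast; ring
  rw [h2]
  have h3 : v (1 : ℂ) = 1 := map_one v
  rw [Valuation.map_add_eq_of_lt_right v (by rw [h3]; exact h1), h3]

/-- even integers are in the maximal ideal -/
private theorem aeven_even {Γ : Type} [LinearOrderedCommGroupWithZero Γ] (v : Valuation ℂ Γ)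
    (hv : v 2 < 1) (m : ℤ) (hm : Even m) : v (m : ℂ) < 1 := by
  obtain ⟨k, hk⟩ := hm
  have h2 : (m : ℂ) = 2 * (k : ℂ) := by rw [hk]; push_cast; ring
  rw [h2, map_mul]
  calc v 2 * v (k : ℂ) ≤ v 2 * 1 := mul_le_mul' le_rfl (aeven_int v k)
    _ = v 2 := mul_one _
    _ < 1 := hv

/-- the residue vanishes iff the valuation is less than one -/
private theorem aeven_res {Γ : Type} [LinearOrderedCommGroupWithZero Γ] (v : Valuation ℂ Γ)
    (a : v.valuationSubring) :
    IsLocalRing.residue v.valuationSubring a = 0 ↔ v (a : ℂ) < 1 := by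
  rw [IsLocalRing.residue_eq_zero_iff, IsLocalRing.mem_maximalIdeal, mem_nonunits_iff]
  have hle : v (a : ℂ) ≤ 1 := (Valuation.mem_valuationSubring_iff v _).mp a.2
  constructor
  · intro h
    refine lt_of_le_of_ne hle ?_
    intro h1
    apply h
    have hne : (a : ℂ) ≠ 0 := by
      intro h0
      rw [h0, map_zero] at h1
      exact zero_ne_one h1
    have hinv : ((a : ℂ))⁻¹ ∈ v.valuationSubring := by
      rw [Valuation.mem_valuationSubring_iff, map_inv₀, h1, inv_one]
    refine IsUnit.of_mul_eq_one ⟨(a : ℂ)⁻¹, hinv⟩ ?_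
    apply Subtype.ext
    exact mul_inv_cancel₀ hne
  · intro h hu
    obtain ⟨u, hu⟩ := hu
    have h1 : ((u : v.valuationSubring) : ℂ) * ((u⁻¹ : (v.valuationSubring)ˣ) : v.valuationSubring) = 1 := by
      have := congrArg (fun z : v.valuationSubring => (z : ℂ)) u.mul_inv
      exact this
    have h2 := congrArg v h1
    rw [map_mul, map_one, hu] at h2
    have h3 : v ((((u⁻¹ : (v.valuationSubring)ˣ) : v.valuationSubring)) : ℂ) ≤ 1 :=
      (Valuation.mem_valuationSubring_iff v _).mp ((u⁻¹ : (v.valuationSubring)ˣ) : v.valuationSubring).2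
    have h4 : v (a : ℂ) * v ((((u⁻¹ : (v.valuationSubring)ˣ) : v.valuationSubring)) : ℂ) < 1 :=
      calc _ ≤ v (a : ℂ) * 1 := mul_le_mul' le_rfl h3
        _ = v (a : ℂ) := mul_one _
        _ < 1 := h
    exact absurd h2 h4.ne

/-- the residue of a rational number is zero or one -/
private theorem aeven_rat {Γ : Type} [LinearOrderedCommGroupWithZero Γ] (v : Valuation ℂ Γ)
    (hv : v 2 < 1) (c : ℚ) (a : v.valuationSubring) (ha : (a : ℂ) = (c : ℂ)) :
    (IsLocalRing.residue v.valuationSubring a) ^ 2 = IsLocalRing.residue v.valuationSubring a := by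
  have hle : v (a : ℂ) ≤ 1 := (Valuation.mem_valuationSubring_iff v _).mp a.2
  -- it suffices that `v (a ^ 2 - a) < 1`
  suffices h : v (((a ^ 2 - a : v.valuationSubring)) : ℂ) < 1 by
    rw [← aeven_res] at h
    rw [map_sub, map_pow] at h
    exact sub_eq_zero.mp h
  have hden : (c.den : ℂ) ≠ 0 := Nat.cast_ne_zero.mpr c.den_ne_zero
  have hc : (c : ℂ) = (c.num : ℂ) / (c.den : ℂ) := Rat.cast_def c
  have hco : Nat.Coprime c.num.natAbs c.den := c.reduced
  -- the denominator is odd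
  have hodd : Odd ((c.den : ℕ) : ℤ) := by
    by_contra hne
    rw [Int.not_odd_iff_even] at hne
    have h1 := aeven_even v hv _ hne
    have hnum : Odd c.num := by
      by_contra hne2
      rw [Int.not_odd_iff_even] at hne2
      have h2 : 2 ∣ c.num.natAbs := by
        have := Int.natAbs_dvd_natAbs.mpr hne2.two_dvd
        simpa using this
      have h3 : 2 ∣ c.den := by
        have := hne.two_dvd
        exact_mod_cast this
      have h4 := Nat.dvd_gcd h2 h3
      rw [hco] at h4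
      omega
    have h2 := aeven_odd v hv _ hnum
    rw [ha, hc, map_div₀, h2] at hle
    have hpos : (0 : Γ) < v (c.den : ℂ) := (Valuation.pos_iff v).mpr hden
    have h1' : v (c.den : ℂ) < 1 := by
      have : (((c.den : ℕ) : ℤ) : ℂ) = (c.den : ℂ) := by push_cast; rfl
      rw [this] at h1
      exact h1
    rw [div_le_one₀ hpos] at hle
    exact absurd h1' (not_lt.mpr hle)
  have hd := aeven_odd v hv _ hodd
  have hd' : v (c.den : ℂ) = 1 := by
    have : (((c.den : ℕ) : ℤ) : ℂ) = (c.den : ℂ) := by push_cast; rfl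
    rw [this] at hd
    exact hd
  have heq : (((a ^ 2 - a : v.valuationSubring)) : ℂ) =
      ((c.num * (c.num - (c.den : ℤ)) : ℤ) : ℂ) / ((c.den : ℂ) ^ 2) := by
    have h0 : (((a ^ 2 - a : v.valuationSubring)) : ℂ) = (a : ℂ) ^ 2 - (a : ℂ) := by
      rfl
    rw [h0, ha, hc]
    push_cast
    field_simp
  rw [heq, map_div₀, map_pow, hd', one_pow, div_one]
  apply aeven_even v hv
  rcases Int.even_or_odd c.num with h | h
  · exact h.mul_right _
  · exact (h.sub_odd hodd).mul_left _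

/-- the maximal coefficient -/
private theorem aeven_max {Γ : Type} [LinearOrderedCommGroupWithZero Γ] (v : Valuation ℂ Γ)
    (Q : Polynomial ℚ) (hQ : Q ≠ 0) :
    ∃ i, Q.coeff i ≠ 0 ∧ ∀ j, v ((Q.coeff j : ℚ) : ℂ) ≤ v ((Q.coeff i : ℚ) : ℂ) := by
  obtain ⟨i, hi, hmax⟩ := Finset.exists_max_image Q.support
    (fun j => v ((Q.coeff j : ℚ) : ℂ)) (Polynomial.support_nonempty.mpr hQ)
  refine ⟨i, Polynomial.mem_support_iff.mp hi, fun j => ?_⟩
  by_cases hj : j ∈ Q.support
  · exact hmax j hj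
  · rw [Polynomial.notMem_support_iff.mp hj, Rat.cast_zero, map_zero]
    exact zero_le

open Classical in
/-- the numbers of roots with residues `x` and `x ^ 2` agree -/
private theorem aeven_frob {Γ : Type} [LinearOrderedCommGroupWithZero Γ] (v : Valuation ℂ Γ)
    (hv : v 2 < 1) (Q : Polynomial ℚ) (hQ : Q ≠ 0)
    (x : IsLocalRing.ResidueField v.valuationSubring) :
    Multiset.card ((Q.map (algebraMap ℚ ℂ)).roots.filter fun μ => ∃ h : μ ∈ v.valuationSubring,
        IsLocalRing.residue v.valuationSubring ⟨μ, h⟩ = x) =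
      Multiset.card ((Q.map (algebraMap ℚ ℂ)).roots.filter fun μ => ∃ h : μ ∈ v.valuationSubring,
        IsLocalRing.residue v.valuationSubring ⟨μ, h⟩ = x ^ 2) := by
  obtain ⟨i, hi, hmax⟩ := aeven_max v Q hQ
  set c : ℚ := Q.coeff i with hc
  have hcC : ((c : ℚ) : ℂ) ≠ 0 := Rat.cast_ne_zero.mpr hi
  set P : Polynomial ℂ := (C c⁻¹ * Q).map (algebraMap ℚ ℂ) with hP
  have hroots : P.roots = (Q.map (algebraMap ℚ ℂ)).roots := by
    rw [hP, Polynomial.map_mul, Polynomial.map_C]
    apply roots_C_mul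
    rw [map_inv₀]
    exact inv_ne_zero hcC
  have hP0 : P ≠ 0 := by
    rw [hP, Ne, Polynomial.map_eq_zero]
    exact mul_ne_zero (C_ne_zero.mpr (inv_ne_zero hi)) hQ
  have hcoeff : ∀ n, P.coeff n = ((c⁻¹ * Q.coeff n : ℚ) : ℂ) := by
    intro n
    rw [hP, Polynomial.coeff_map, coeff_C_mul]
    rfl
  have hlift : P ∈ Polynomial.lifts (algebraMap v.valuationSubring ℂ) := by
    rw [Polynomial.lifts_iff_coeff_lifts]
    intro n
    have hle : v (P.coeff n) ≤ 1 := by
      rw [hcoeff, Rat.cast_mul, Rat.cast_inv, map_mul, map_inv₀]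
      have h1 := hmax n
      have hpos : (0 : Γ) < v ((c : ℚ) : ℂ) := (Valuation.pos_iff v).mpr hcC
      rw [inv_mul_le_iff₀ hpos, mul_one]
      exact h1
    exact ⟨⟨P.coeff n, (Valuation.mem_valuationSubring_iff v _).mpr hle⟩, rfl⟩
  obtain ⟨R, hR⟩ := (Polynomial.mem_lifts _).mp hlift
  have hRc : ∀ n, ((R.coeff n : v.valuationSubring) : ℂ) = ((c⁻¹ * Q.coeff n : ℚ) : ℂ) := by
    intro n
    rw [← hcoeff, ← hR, Polynomial.coeff_map]
    rfl
  have hR0 : R.map (IsLocalRing.residue v.valuationSubring) ≠ 0 := by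
    intro h0
    have h1 := congrArg (fun p => Polynomial.coeff p i) h0
    simp only [Polynomial.coeff_map, Polynomial.coeff_zero] at h1
    rw [aeven_res, hRc, ← hc, inv_mul_cancel₀ hi, Rat.cast_one, map_one] at h1
    exact lt_irrefl _ h1
  have h2 : (2 : IsLocalRing.ResidueField v.valuationSubring) = 0 := by
    have h3 : IsLocalRing.residue v.valuationSubring (2 : v.valuationSubring) = 0 := by
      rw [aeven_res]
      exact hv
    rw [← h3, map_ofNat]
  have : CharP (IsLocalRing.ResidueField v.valuationSubring) 2 :=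
    CharTwo.of_one_ne_zero_of_two_eq_zero one_ne_zero h2
  have hfro : (R.map (IsLocalRing.residue v.valuationSubring)).map
      (frobenius (IsLocalRing.ResidueField v.valuationSubring) 2) =
      R.map (IsLocalRing.residue v.valuationSubring) := by
    ext n
    rw [Polynomial.coeff_map, Polynomial.coeff_map, frobenius_def]
    exact aeven_rat v hv _ _ (hRc n)
  have hmul := Polynomial.eq_rootMultiplicity_map
    (p := R.map (IsLocalRing.residue v.valuationSubring))
    (f := frobenius (IsLocalRing.ResidueField v.valuationSubring) 2)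
    (RingHom.injective _) x
  rw [hfro, frobenius_def] at hmul
  rw [← hroots]
  have e1 := root_red v.valuationSubring P hP0 R hR hR0 x
  have e2 := root_red v.valuationSubring P hP0 R hR hR0 (x ^ 2)
  rw [← e1, ← e2, hmul]

/-- the exponent is unique -/
private theorem aeven_exp {Γ : Type} [LinearOrderedCommGroupWithZero Γ] (v : Valuation ℂ Γ)
    (hv : v 2 < 1) {s t : ℕ} (h : v 2 ^ s = v 2 ^ t) : s = t := by
  have hpos : (0 : Γ) < v 2 := (Valuation.pos_iff v).mpr two_ne_zero
  exact (pow_right_strictAnti₀ hpos hv).injective h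

theorem even_deg {Γ : Type} [LinearOrderedCommGroupWithZero Γ] (v : Valuation ℂ Γ) (hv : v 2 < 1)
    (Q : Polynomial ℚ) (hQ : Q ≠ 0)
    (h : ∀ μ : ℂ, Polynomial.aeval μ Q = 0 →
      ∃ s : ℕ, v μ = v 2 ^ s ∧ v ((μ / 2 ^ s) ^ 2 + μ / 2 ^ s + 1) < 1) :
    Even Q.natDegree := by
  classical
  have h2pos : (0 : Γ) < v 2 := (Valuation.pos_iff v).mpr two_ne_zero
  set M : Multiset ℂ := (Q.map (algebraMap ℚ ℂ)).roots with hM
  have hcard : Multiset.card M = Q.natDegree := by
    rw [hM, ← Polynomial.natDegree_map (algebraMap ℚ ℂ) (p := Q)]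
    exact ((IsAlgClosed.splits (Q.map (algebraMap ℚ ℂ))).natDegree_eq_card_roots).symm
  have hroot : ∀ μ ∈ M, Polynomial.aeval μ Q = 0 := by
    intro μ hμ
    have h1 := (Polynomial.mem_roots'.mp hμ).2
    rw [Polynomial.IsRoot.def, Polynomial.eval_map] at h1
    exact h1
  have hsel : ∀ μ : ℂ, ∃ s : ℕ, μ ∈ M → (v μ = v 2 ^ s ∧ v ((μ / 2 ^ s) ^ 2 + μ / 2 ^ s + 1) < 1) := by
    intro μ
    by_cases hμ : μ ∈ M
    · obtain ⟨s, hs⟩ := h μ (hroot μ hμ)
      exact ⟨s, fun _ => hs⟩
    · exact ⟨0, fun h => absurd h hμ⟩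
  choose σ hσ using hsel
  rw [← hcard, ← Multiset.card_map σ M, ← Multiset.toFinset_sum_count_eq]
  refine Finset.even_sum _ fun s _ => ?_
  rw [Multiset.count_map]
  by_cases hz : (M.filter fun a => s = σ a) = 0
  · rw [hz, Multiset.card_zero]
    exact Even.zero
  obtain ⟨μ0, hμ0⟩ := Multiset.exists_mem_of_ne_zero hz
  rw [Multiset.mem_filter] at hμ0
  obtain ⟨hμ0M, hs⟩ := hμ0
  -- the scaled polynomial
  set Qs : Polynomial ℚ := Q.comp (C (2 ^ s) * X + C 0) with hQs
  have h2s : IsUnit ((2 : ℚ) ^ s) := (pow_ne_zero s two_ne_zero).isUnit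
  have h2sC : ((2 : ℂ) ^ s) ≠ 0 := pow_ne_zero s two_ne_zero
  have hQsr : (Qs.map (algebraMap ℚ ℂ)).roots = M.map fun μ => μ / 2 ^ s := by
    rw [hQs, Polynomial.map_comp, Polynomial.map_add, Polynomial.map_mul, Polynomial.map_C,
      Polynomial.map_C, Polynomial.map_X, map_zero]
    have h3 : (algebraMap ℚ ℂ) (2 ^ s) = 2 ^ s := by
      rw [map_pow, map_ofNat]
    rw [h3, roots_comp_C_mul_X_add_C _ _ _ h2sC.isUnit]
    apply Multiset.map_congr rfl
    intro μ _
    rw [Ring.inverse_eq_inv, sub_zero, div_eq_inv_mul]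
  have hQs0 : Qs ≠ 0 := by
    intro h0
    have h1 : (Qs.map (algebraMap ℚ ℂ)).roots = 0 := by
      rw [h0, Polynomial.map_zero, Polynomial.roots_zero]
    rw [hQsr] at h1
    have h2 : M = 0 := Multiset.map_eq_zero.mp h1
    rw [h2] at hμ0M
    exact Multiset.notMem_zero _ hμ0M
  -- membership
  have hmem : ∀ μ : ℂ, v μ = v 2 ^ s → v (μ / 2 ^ s) = 1 := by
    intro μ hμ
    rw [map_div₀, map_pow, hμ, div_self (pow_ne_zero s h2pos.ne')]
  have hin : ∀ μ : ℂ, v μ = v 2 ^ s → μ / 2 ^ s ∈ v.valuationSubring := by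
    intro μ hμ
    rw [Valuation.mem_valuationSubring_iff, hmem μ hμ]
  have h2 : (2 : IsLocalRing.ResidueField v.valuationSubring) = 0 := by
    have h3 : IsLocalRing.residue v.valuationSubring (2 : v.valuationSubring) = 0 := by
      rw [aeven_res]
      exact hv
    rw [← h3, map_ofNat]
  have hquad : ∀ μ : ℂ, ∀ hμ : μ / 2 ^ s ∈ v.valuationSubring,
      v ((μ / 2 ^ s) ^ 2 + μ / 2 ^ s + 1) < 1 →
      (IsLocalRing.residue v.valuationSubring ⟨μ / 2 ^ s, hμ⟩) ^ 2 +
        IsLocalRing.residue v.valuationSubring ⟨μ / 2 ^ s, hμ⟩ + 1 = 0 := by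
    intro μ hμ hlt
    have h1 : IsLocalRing.residue v.valuationSubring
        ((⟨μ / 2 ^ s, hμ⟩ : v.valuationSubring) ^ 2 + ⟨μ / 2 ^ s, hμ⟩ + 1) = 0 := by
      rw [aeven_res]
      exact hlt
    rw [map_add, map_add, map_pow, map_one] at h1
    exact h1
  obtain ⟨hv0, hq0⟩ := hσ μ0 hμ0M
  rw [← hs] at hv0 hq0
  set ω := IsLocalRing.residue v.valuationSubring ⟨μ0 / 2 ^ s, hin μ0 hv0⟩ with hω
  have hω1 : ω ^ 2 + ω + 1 = 0 := hquad μ0 (hin μ0 hv0) hq0
  have hω0 : ω ≠ 0 := by
    intro h0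
    rw [h0] at hω1
    norm_num at hω1
  have hωne : ω ≠ ω ^ 2 := by
    intro h0
    rw [← h0] at hω1
    have h3 : (1 : IsLocalRing.ResidueField v.valuationSubring) = 0 := by
      linear_combination hω1 - ω * h2
    exact one_ne_zero h3
  -- the predicate
  have hpred : ∀ μ ∈ M, (s = σ μ ↔
      ((∃ h : μ / 2 ^ s ∈ v.valuationSubring,
          IsLocalRing.residue v.valuationSubring ⟨μ / 2 ^ s, h⟩ = ω) ∨
        (∃ h : μ / 2 ^ s ∈ v.valuationSubring,
          IsLocalRing.residue v.valuationSubring ⟨μ / 2 ^ s, h⟩ = ω ^ 2))) := by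
    intro μ hμM
    obtain ⟨hv1, hq1⟩ := hσ μ hμM
    constructor
    · intro hsμ
      rw [← hsμ] at hv1 hq1
      have hμA := hin μ hv1
      have hx := hquad μ hμA hq1
      set x := IsLocalRing.residue v.valuationSubring ⟨μ / 2 ^ s, hμA⟩ with hx'
      have hprod : (x - ω) * (x - ω ^ 2) = 0 := by
        linear_combination hx - (x - ω + 1) * hω1
      rcases mul_eq_zero.mp hprod with h3 | h3
      · exact Or.inl ⟨hμA, sub_eq_zero.mp h3⟩
      · exact Or.inr ⟨hμA, sub_eq_zero.mp h3⟩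
    · intro hor
      have hex : ∃ h : μ / 2 ^ s ∈ v.valuationSubring,
          IsLocalRing.residue v.valuationSubring ⟨μ / 2 ^ s, h⟩ ≠ 0 := by
        rcases hor with ⟨h3, h4⟩ | ⟨h3, h4⟩
        · exact ⟨h3, by rw [h4]; exact hω0⟩
        · exact ⟨h3, by rw [h4]; exact pow_ne_zero 2 hω0⟩
      obtain ⟨h3, h4⟩ := hex
      rw [Ne, aeven_res, not_lt] at h4
      have h5 : v (μ / 2 ^ s) = 1 := le_antisymm ((Valuation.mem_valuationSubring_iff v _).mp h3) h4
      rw [map_div₀, map_pow, div_eq_one_iff_eq (pow_ne_zero s h2pos.ne')] at h5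
      rw [hv1] at h5
      exact (aeven_exp v hv h5).symm
  have hdisj : (M.filter fun μ => ((∃ h : μ / 2 ^ s ∈ v.valuationSubring,
          IsLocalRing.residue v.valuationSubring ⟨μ / 2 ^ s, h⟩ = ω) ∧
        (∃ h : μ / 2 ^ s ∈ v.valuationSubring,
          IsLocalRing.residue v.valuationSubring ⟨μ / 2 ^ s, h⟩ = ω ^ 2))) = 0 := by
    rw [Multiset.filter_eq_nil]
    rintro μ _ ⟨⟨h3, h4⟩, ⟨h5, h6⟩⟩
    exact hωne (h4.symm.trans h6)
  have hcount : ∀ y : IsLocalRing.ResidueField v.valuationSubring,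
      Multiset.card (M.filter fun μ => ∃ h : μ / 2 ^ s ∈ v.valuationSubring,
          IsLocalRing.residue v.valuationSubring ⟨μ / 2 ^ s, h⟩ = y) =
        Multiset.card ((Qs.map (algebraMap ℚ ℂ)).roots.filter fun μ =>
          ∃ h : μ ∈ v.valuationSubring,
            IsLocalRing.residue v.valuationSubring ⟨μ, h⟩ = y) := by
    intro y
    rw [hQsr, Multiset.filter_map, Multiset.card_map]
    rfl
  rw [Multiset.filter_congr hpred]
  have hadd := Multiset.filter_add_filter (fun μ : ℂ => ∃ h : μ / 2 ^ s ∈ v.valuationSubring,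
      IsLocalRing.residue v.valuationSubring ⟨μ / 2 ^ s, h⟩ = ω)
    (fun μ : ℂ => ∃ h : μ / 2 ^ s ∈ v.valuationSubring,
      IsLocalRing.residue v.valuationSubring ⟨μ / 2 ^ s, h⟩ = ω ^ 2) M
  rw [hdisj, add_zero] at hadd
  rw [← hadd, Multiset.card_add, hcount, hcount, aeven_frob v hv Qs hQs0 ω]
  exact ⟨_, rfl⟩

end MT2
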