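import Mathlib

/-!
# Operators with distinct valuations: the abstract lemma

Let `P i j = 2 * LinearMap.toMatrix b b T i j`, so `L * P = diagonal D * U` (hypothesis `h`), with `L`, `U`
congruent to the identity matrix modulo the maximal ideal.
* `max_one`: if `T f = μ f`, `x = b.repr f`, `f ≠ 0`, then `∑_j P i j x_j = 2 μ x_i`
  (`LinearMap.toMatrix_mulVec_repr`), so for all `n`
  `2 μ * ∑_i L n i x_i = D n * ∑_j U n j x_j`. Let `ρ = max v (x_j) > 0`, attained at `n`:
  `v (∑_i L n i x_i) = ρ = v (∑_j U n j x_j)` (`L n i x_i = x_n [i = n] +` something of valuation `< ρ`;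
  `Valuation.map_add_eq_of_lt_left`, `Valuation.map_sum_lt`), so `v (2 μ) = v (D n) = v 2 ^ s n`.
* `finrank ≤ 1`: if `f`, `g` in the eigenspace, `f ≠ 0`, let `n` be a maximal index of `f`
  (`b.repr f n ≠ 0`), `h = g - (g_n / f_n) f` is in the eigenspace with `h_n = 0`; if `h ≠ 0` it has a maximal
  index `n' ≠ n` and `v (2 μ) = v 2 ^ s n'`, so `s n = s n'` (`v 2 < 1`, `v 2 ≠ 0`, powers of `v 2` are distinct),
  contradiction. (`finrank_le_one` with the vector `f`.)
* distinct eigenvalues `μ ≠ μ'` have distinct valuations: let `T f = μ f`, `T g = μ' g`,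
  `v (2 μ) = v (2 μ') = v 2 ^ s n`; then `n` is the unique maximal index of `f` and of `g`; normalize
  `f_n = g_n = 1`. Let `x = f - g`, `x_n = 0`, `x ≠ 0` (else `μ = μ'`), `ρ = max v (x_j) = v (x_m) > 0`, `m ≠ n`.
  `2 (μ ∑_i L k i x_i + (μ - μ') ∑_i L k i g_i) = D k ∑_j U k j x_j` for all `k`. For `k = n`:
  `v (∑_i L n i x_i) < ρ`, `v (∑_j U n j x_j) < ρ`, `v (∑_i L n i g_i) = 1`, so `v (2 (μ - μ')) < ρ * v 2 ^ s n`
  . For `k = m`: `v (∑_i L m i g_i) ≤ 1`, so `v (2 (μ-μ')) * 1 < ρ v 2 ^ s n` while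
  `v (2 μ ∑_i L m i x_i) = v 2 ^ s n * ρ`; the sum has valuation `v 2 ^ s n * ρ`, the right hand side has
  `v 2 ^ s m * ρ`: contradiction to `s m ≠ s n`.
-/

namespace MT2

private theorem AOne_small {Γ : Type} [LinearOrderedCommGroupWithZero Γ] (v : Valuation ℂ Γ) {d : ℕ}
    (W x : Fin d → ℂ) (n : Fin d) (hW : ∀ j, v (W j - if n = j then 1 else 0) < 1) (ρ : Γ)
    (hρ : ρ ≠ 0) (hx : ∀ j, v (x j) ≤ ρ) :
    ∃ e, ∑ j, W j * x j = x n + e ∧ v e < ρ := by
  have hρ0 : 0 < ρ := zero_lt_iff.mpr hρ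
  refine ⟨∑ j, (W j - if n = j then 1 else 0) * x j, ?_, ?_⟩
  · have h1 : ∑ j, (W j - if n = j then (1 : ℂ) else 0) * x j =
        ∑ j, W j * x j - ∑ j, (if n = j then (1 : ℂ) else 0) * x j := by
      rw [← Finset.sum_sub_distrib]
      exact Finset.sum_congr rfl fun j _ => by ring
    rw [h1]
    have h2 : ∑ j, (if n = j then (1 : ℂ) else 0) * x j = x n := by
      simp
    rw [h2]
    ring
  · refine Valuation.map_sum_lt v hρ fun j _ => ?_
    rw [map_mul]
    calc v (W j - if n = j then 1 else 0) * v (x j)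
        ≤ v (W j - if n = j then 1 else 0) * ρ := mul_le_mul_right (hx j) _
      _ < 1 * ρ := mul_lt_mul_of_pos_right (hW j) hρ0
      _ = ρ := one_mul ρ

private theorem AOne_key {V : Type} [AddCommGroup V] [Module ℂ V] (T : Module.End ℂ V) {d : ℕ}
    (b : Module.Basis (Fin d) ℂ V) (L U : Fin d → Fin d → ℂ) (D : Fin d → ℂ)
    (h : ∀ n j, ∑ i, L n i * (2 * LinearMap.toMatrix b b T i j) = D n * U n j)
    (μ : ℂ) (f : V) (hf : T f = μ • f) (k : Fin d) :
    2 * μ * ∑ i, L k i * b.repr f i = D k * ∑ j, U k j * b.repr f j := by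
  have h1 : ∀ i, ∑ j, LinearMap.toMatrix b b T i j * b.repr f j = μ * b.repr f i := by
    intro i
    have h2 := congrFun (LinearMap.toMatrix_mulVec_repr b b T f) i
    rw [hf, map_smul] at h2
    simpa [Matrix.mulVec, dotProduct] using h2
  calc 2 * μ * ∑ i, L k i * b.repr f i
      = ∑ i, L k i * (2 * ∑ j, LinearMap.toMatrix b b T i j * b.repr f j) := by
        rw [Finset.mul_sum]
        refine Finset.sum_congr rfl fun i _ => ?_
        rw [h1 i]
        ring
    _ = ∑ i, ∑ j, L k i * (2 * LinearMap.toMatrix b b T i j) * b.repr f j := by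
        refine Finset.sum_congr rfl fun i _ => ?_
        rw [Finset.mul_sum, Finset.mul_sum]
        exact Finset.sum_congr rfl fun j _ => by ring
    _ = ∑ j, (∑ i, L k i * (2 * LinearMap.toMatrix b b T i j)) * b.repr f j := by
        rw [Finset.sum_comm]
        exact Finset.sum_congr rfl fun j _ => by rw [Finset.sum_mul]
    _ = D k * ∑ j, U k j * b.repr f j := by
        rw [Finset.mul_sum]
        refine Finset.sum_congr rfl fun j _ => ?_
        rw [h k j]
        ring

private theorem AOne_exists_max {Γ V : Type} [LinearOrderedCommGroupWithZero Γ] [AddCommGroup V]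
    [Module ℂ V] (v : Valuation ℂ Γ) {d : ℕ} (b : Module.Basis (Fin d) ℂ V) (f : V) (h0 : f ≠ 0) :
    ∃ n, ∀ j, v (b.repr f j) ≤ v (b.repr f n) := by
  have hne : Nonempty (Fin d) := by
    by_contra hc
    rw [not_nonempty_iff] at hc
    apply h0
    apply b.repr.injective
    ext j
    exact hc.elim j
  exact Finite.exists_max fun j => v (b.repr f j)

private theorem AOne_pow {Γ : Type} [LinearOrderedCommGroupWithZero Γ] (v : Valuation ℂ Γ)
    (hv : v 2 < 1) {a c : ℕ} (h : v 2 ^ a = v 2 ^ c) : a = c := by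
  have h2 : v 2 ≠ 0 := by
    rw [Valuation.ne_zero_iff]
    norm_num
  exact pow_right_injective₀ (zero_lt_iff.mpr h2) hv.ne h

theorem max_one {Γ V : Type} [LinearOrderedCommGroupWithZero Γ] [AddCommGroup V] [Module ℂ V]
    (v : Valuation ℂ Γ) (T : Module.End ℂ V) {d : ℕ} (b : Module.Basis (Fin d) ℂ V)
    (L U : Fin d → Fin d → ℂ) (D : Fin d → ℂ) (s : Fin d → ℕ)
    (hL : ∀ i j, v (L i j - if i = j then 1 else 0) < 1)
    (hU : ∀ i j, v (U i j - if i = j then 1 else 0) < 1) (hD : ∀ i, v (D i) = v 2 ^ s i)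
    (h : ∀ n j, ∑ i, L n i * (2 * LinearMap.toMatrix b b T i j) = D n * U n j)
    (μ : ℂ) (f : V) (hf : T f = μ • f) (n : Fin d) (hn : ∀ j, v (b.repr f j) ≤ v (b.repr f n))
    (h0 : f ≠ 0) : b.repr f n ≠ 0 ∧ v (2 * μ) = v 2 ^ s n := by
  have hx : b.repr f n ≠ 0 := by
    intro hx
    apply h0
    apply b.repr.injective
    ext j
    have h1 := hn j
    rw [hx, map_zero, le_zero_iff, map_eq_zero] at h1
    rw [h1]
    simp
  refine ⟨hx, ?_⟩
  have hρ : v (b.repr f n) ≠ 0 := (Valuation.ne_zero_iff v).mpr hx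
  obtain ⟨e1, he1, hv1⟩ := AOne_small v (L n) (fun j => b.repr f j) n (fun j => hL n j)
    (v (b.repr f n)) hρ hn
  obtain ⟨e2, he2, hv2⟩ := AOne_small v (U n) (fun j => b.repr f j) n (fun j => hU n j)
    (v (b.repr f n)) hρ hn
  have hk := AOne_key T b L U D h μ f hf n
  rw [he1, he2] at hk
  have h3 := congrArg v hk
  rw [map_mul v (2 * μ), map_mul v (D n), Valuation.map_add_eq_of_lt_left v hv1,
    Valuation.map_add_eq_of_lt_left v hv2] at h3
  rw [hD] at h3
  exact mul_right_cancel₀ hρ h3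

theorem abs_one {Γ V : Type} [LinearOrderedCommGroupWithZero Γ] [AddCommGroup V] [Module ℂ V]
    (v : Valuation ℂ Γ) (hv : v 2 < 1) (T : Module.End ℂ V) {d : ℕ}
    (b : Module.Basis (Fin d) ℂ V) (L U : Fin d → Fin d → ℂ) (D : Fin d → ℂ) (s : Fin d → ℕ)
    (hs : Function.Injective s)
    (hL : ∀ i j, v (L i j - if i = j then 1 else 0) < 1)
    (hU : ∀ i j, v (U i j - if i = j then 1 else 0) < 1) (hD : ∀ i, v (D i) = v 2 ^ s i)
    (h : ∀ n j, ∑ i, L n i * (2 * LinearMap.toMatrix b b T i j) = D n * U n j) :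
    (∀ μ, Module.finrank ℂ (T.eigenspace μ) ≤ 1) ∧
      (∀ μ, T.HasEigenvalue μ → ∃ n, v (2 * μ) = v 2 ^ s n) ∧
      ∀ μ μ', T.HasEigenvalue μ → T.HasEigenvalue μ' → v μ = v μ' → μ = μ' := by
  have hmax := fun μ f hf n hn h0 => max_one v T b L U D s hL hU hD h μ f hf n hn h0
  have h20 : v 2 ≠ 0 := by
    rw [Valuation.ne_zero_iff]
    norm_num
  refine ⟨?_, ?_, ?_⟩
  · intro μ
    by_cases hbot : T.eigenspace μ = ⊥
    · rw [hbot]
      simp
    obtain ⟨f, hfm, hf0⟩ := Submodule.exists_mem_ne_zero_of_ne_bot hbot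
    have hf : T f = μ • f := Module.End.mem_eigenspace_iff.mp hfm
    obtain ⟨n, hn⟩ := AOne_exists_max v b f hf0
    obtain ⟨hfn, hμ⟩ := hmax μ f hf n hn hf0
    refine finrank_le_one (⟨f, hfm⟩ : T.eigenspace μ) fun w => ?_
    obtain ⟨g, hgm⟩ := w
    have hg : T g = μ • g := Module.End.mem_eigenspace_iff.mp hgm
    refine ⟨b.repr g n / b.repr f n, ?_⟩
    apply Subtype.ext
    change (b.repr g n / b.repr f n) • f = g
    by_contra hne
    set c := b.repr g n / b.repr f n with hc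
    have hh0 : g - c • f ≠ 0 := by
      intro h1
      exact hne (sub_eq_zero.mp h1).symm
    have hh : T (g - c • f) = μ • (g - c • f) := by
      rw [map_sub, map_smul, hf, hg, smul_sub, smul_comm]
    obtain ⟨n', hn'⟩ := AOne_exists_max v b (g - c • f) hh0
    obtain ⟨hn0, hμ'⟩ := hmax μ _ hh n' hn' hh0
    have hnn : n' = n := hs (AOne_pow v hv (hμ'.symm.trans hμ))
    apply hn0
    rw [hnn, map_sub, map_smul]
    simp only [Finsupp.coe_sub, Finsupp.coe_smul, Pi.sub_apply, Pi.smul_apply, smul_eq_mul]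
    rw [hc, div_mul_cancel₀ _ hfn, sub_self]
  · intro μ hμ
    obtain ⟨f, hf⟩ := hμ.exists_hasEigenvector
    obtain ⟨n, hn⟩ := AOne_exists_max v b f hf.2
    exact ⟨n, (hmax μ f hf.apply_eq_smul n hn hf.2).2⟩
  · intro μ μ' hμ hμ' hvv
    by_contra hne
    obtain ⟨f0, hf0⟩ := hμ.exists_hasEigenvector
    obtain ⟨g0, hg0⟩ := hμ'.exists_hasEigenvector
    obtain ⟨n, hn⟩ := AOne_exists_max v b f0 hf0.2
    obtain ⟨n', hn'⟩ := AOne_exists_max v b g0 hg0.2
    obtain ⟨hfn, hvf⟩ := hmax μ f0 hf0.apply_eq_smul n hn hf0.2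
    obtain ⟨hgn, hvg⟩ := hmax μ' g0 hg0.apply_eq_smul n' hn' hg0.2
    have hnn : n = n' := by
      apply hs
      apply AOne_pow v hv
      rw [← hvf, ← hvg, map_mul, map_mul, hvv]
    subst hnn
    -- normalized eigenvectors
    set f := (b.repr f0 n)⁻¹ • f0 with hfdef
    set g := (b.repr g0 n)⁻¹ • g0 with hgdef
    have hTf : T f = μ • f := by
      rw [hfdef, map_smul, hf0.apply_eq_smul, smul_comm]
    have hTg : T g = μ' • g := by
      rw [hgdef, map_smul, hg0.apply_eq_smul, smul_comm]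
    have hrf : ∀ j, b.repr f j = (b.repr f0 n)⁻¹ * b.repr f0 j := by
      intro j
      rw [hfdef, map_smul]
      rfl
    have hrg : ∀ j, b.repr g j = (b.repr g0 n)⁻¹ * b.repr g0 j := by
      intro j
      rw [hgdef, map_smul]
      rfl
    have hfn1 : b.repr f n = 1 := by rw [hrf, inv_mul_cancel₀ hfn]
    have hgn1 : b.repr g n = 1 := by rw [hrg, inv_mul_cancel₀ hgn]
    have hgle : ∀ j, v (b.repr g j) ≤ 1 := by
      intro j
      rw [hrg, map_mul, map_inv₀]
      have h1 : v (b.repr g0 n) ≠ 0 := (Valuation.ne_zero_iff v).mpr hgn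
      calc (v (b.repr g0 n))⁻¹ * v (b.repr g0 j) ≤ (v (b.repr g0 n))⁻¹ * v (b.repr g0 n) :=
            mul_le_mul_right (hn' j) _
        _ = 1 := inv_mul_cancel₀ h1
    have hz0 : f - g ≠ 0 := by
      intro hz
      have hfg : f = g := sub_eq_zero.mp hz
      have h1 : μ • f = μ' • f := by
        rw [← hTf, hfg, hTg]
      have h2 := congrArg (fun w => b.repr w n) h1
      simp only [map_smul, Finsupp.coe_smul, Pi.smul_apply, smul_eq_mul, hfn1, mul_one] at h2
      exact hne h2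
    obtain ⟨m, hm⟩ := AOne_exists_max v b (f - g) hz0
    have hzn : b.repr (f - g) n = 0 := by
      rw [map_sub, Finsupp.coe_sub, Pi.sub_apply, hfn1, hgn1, sub_self]
    have hzm : b.repr (f - g) m ≠ 0 := by
      intro hx
      apply hz0
      apply b.repr.injective
      ext j
      have h1 := hm j
      rw [hx, map_zero, le_zero_iff, map_eq_zero] at h1
      rw [h1]
      simp
    have hmn : m ≠ n := by
      intro h1
      rw [h1] at hzm
      exact hzm hzn
    have hρ : v (b.repr (f - g) m) ≠ 0 := (Valuation.ne_zero_iff v).mpr hzm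
    have hρ0 : 0 < v (b.repr (f - g) m) := zero_lt_iff.mpr hρ
    set ρ := v (b.repr (f - g) m) with hρd
    -- the relation
    have hrel : ∀ k, 2 * μ * ∑ i, L k i * b.repr (f - g) i + 2 * (μ - μ') * ∑ i, L k i * b.repr g i =
        D k * ∑ j, U k j * b.repr (f - g) j := by
      intro k
      have h1 := AOne_key T b L U D h μ f hTf k
      have h2 := AOne_key T b L U D h μ' g hTg k
      have e1 : ∀ W : Fin d → ℂ, ∑ i, W i * b.repr (f - g) i =
          ∑ i, W i * b.repr f i - ∑ i, W i * b.repr g i := by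
        intro W
        rw [← Finset.sum_sub_distrib]
        refine Finset.sum_congr rfl fun i _ => ?_
        rw [map_sub, Finsupp.coe_sub, Pi.sub_apply]
        ring
      rw [e1, e1]
      linear_combination h1 - h2
    have h2s : v 2 ^ s n ≠ 0 := pow_ne_zero _ h20
    have h2sp : 0 < v 2 ^ s n := zero_lt_iff.mpr h2s
    -- k = n
    obtain ⟨e1, he1, hv1⟩ := AOne_small v (L n) (fun j => b.repr (f - g) j) n (fun j => hL n j)
      ρ hρ hm
    obtain ⟨e2, he2, hv2⟩ := AOne_small v (U n) (fun j => b.repr (f - g) j) n (fun j => hU n j)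
      ρ hρ hm
    obtain ⟨e3, he3, hv3⟩ := AOne_small v (L n) (fun j => b.repr g j) n (fun j => hL n j)
      1 one_ne_zero hgle
    have hkn := hrel n
    rw [he1, he2, he3] at hkn
    simp only [hzn, hgn1, zero_add] at hkn
    have hv3' : v (1 + e3) = 1 := by
      have : v (1 + e3) = v 1 := Valuation.map_add_eq_of_lt_left v (by rw [map_one]; exact hv3)
      rw [this, map_one]
    have hdiff : v (2 * (μ - μ')) < ρ * v 2 ^ s n := by
      have h1 : 2 * (μ - μ') * (1 + e3) = D n * e2 - 2 * μ * e1 := by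
        linear_combination hkn
      have h2 : v (2 * (μ - μ')) = v (D n * e2 - 2 * μ * e1) := by
        rw [← h1, map_mul v (2 * (μ - μ')) (1 + e3), hv3', mul_one]
      rw [h2]
      refine lt_of_le_of_lt (Valuation.map_sub v _ _) (max_lt ?_ ?_)
      · rw [map_mul v (D n), hD, mul_comm]
        exact mul_lt_mul_of_pos_right hv2 h2sp
      · rw [map_mul v (2 * μ), hvf, mul_comm]
        exact mul_lt_mul_of_pos_right hv1 h2sp
    -- k = m
    obtain ⟨e4, he4, hv4⟩ := AOne_small v (L m) (fun j => b.repr (f - g) j) m (fun j => hL m j)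
      ρ hρ hm
    obtain ⟨e5, he5, hv5⟩ := AOne_small v (U m) (fun j => b.repr (f - g) j) m (fun j => hU m j)
      ρ hρ hm
    obtain ⟨e6, he6, hv6⟩ := AOne_small v (L m) (fun j => b.repr g j) m (fun j => hL m j)
      1 one_ne_zero hgle
    have hkm := hrel m
    rw [he4, he5, he6] at hkm
    have h6 : v (b.repr g m + e6) ≤ 1 :=
      (Valuation.map_add v _ _).trans (max_le (hgle m) hv6.le)
    have ha : v (2 * μ * (b.repr (f - g) m + e4)) = ρ * v 2 ^ s n := by
      rw [map_mul v (2 * μ), hvf, Valuation.map_add_eq_of_lt_left v hv4, mul_comm]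
    have hb : v (2 * (μ - μ') * (b.repr g m + e6)) < ρ * v 2 ^ s n := by
      rw [map_mul v (2 * (μ - μ'))]
      calc v (2 * (μ - μ')) * v (b.repr g m + e6) ≤ v (2 * (μ - μ')) * 1 := mul_le_mul_right h6 _
        _ = v (2 * (μ - μ')) := mul_one _
        _ < ρ * v 2 ^ s n := hdiff
    have hlhs : v (2 * μ * (b.repr (f - g) m + e4) + 2 * (μ - μ') * (b.repr g m + e6)) =
        ρ * v 2 ^ s n := by
      rw [Valuation.map_add_eq_of_lt_left v (by rw [ha]; exact hb), ha]
    have hrhs : v (D m * (b.repr (f - g) m + e5)) = ρ * v 2 ^ s m := by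
      rw [map_mul v (D m), hD, Valuation.map_add_eq_of_lt_left v hv5, mul_comm]
    rw [hkm, hrhs] at hlhs
    have h7 := mul_left_cancel₀ hρ hlhs
    exact hmn (hs (AOne_pow v hv h7))

end MT2
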