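import Mathlib

/-!
# Rational numbers and valuations

`v 2 < 1` (`v 2 ≠ 0` as `2 ≠ 0`). For an integer `a`: `v a ≤ 1`; if `a` is odd then `v a = 1` (`a = 2 m + 1`,
`v (a) < 1` would give `v 1 < 1`). Write `q = 2 ^ z * (a / b)`, `a`, `b` odd, `z = padicValRat 2 q`
(`q.num`, `q.den`), so `v q = v 2 ^ z` (integer power), and `padicNorm 2 q = 2 ^ (-z)`
(`padicNorm.eq_zpow_of_nonzero`). `val_rat_eq`: `q / 2 ^ s - 1 = (a - b) / b` with `a - b` even.
-/

namespace MT2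

private theorem aval_nat_le {Γ : Type} [LinearOrderedCommGroupWithZero Γ] (v : Valuation ℂ Γ)
    (n : ℕ) : v (n : ℂ) ≤ 1 := by
  induction n with
  | zero => simp
  | succ n ih =>
    rw [Nat.cast_succ]
    exact (v.map_add _ _).trans (max_le ih (by rw [map_one]))

private theorem aval_int_le {Γ : Type} [LinearOrderedCommGroupWithZero Γ] (v : Valuation ℂ Γ)
    (n : ℤ) : v (n : ℂ) ≤ 1 := by
  rcases Int.eq_nat_or_neg n with ⟨k, rfl | rfl⟩
  · rw [Int.cast_natCast]; exact aval_nat_le v k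
  · rw [Int.cast_neg, Int.cast_natCast, Valuation.map_neg]; exact aval_nat_le v k

private theorem aval_even_le {Γ : Type} [LinearOrderedCommGroupWithZero Γ] (v : Valuation ℂ Γ)
    (n : ℤ) : v ((2 * n : ℤ) : ℂ) ≤ v 2 := by
  rw [Int.cast_mul, map_mul]
  calc v ((2 : ℤ) : ℂ) * v (n : ℂ) ≤ v ((2 : ℤ) : ℂ) * 1 := mul_le_mul_right (aval_int_le v n) _
    _ = v 2 := by rw [mul_one]; norm_num

private theorem aval_odd {Γ : Type} [LinearOrderedCommGroupWithZero Γ] (v : Valuation ℂ Γ)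
    (hv : v 2 < 1) {n : ℤ} (hn : ¬ (2 : ℤ) ∣ n) : v (n : ℂ) = 1 := by
  refine le_antisymm (aval_int_le v n) (not_lt.1 fun h => ?_)
  obtain ⟨m, hm⟩ : ∃ m, n = 2 * m + 1 := ⟨n / 2, by omega⟩
  have h1 : (1 : ℂ) = (n : ℂ) - ((2 * m : ℤ) : ℂ) := by rw [hm]; push_cast; ring
  have h2 : v 1 < 1 := by
    rw [h1]
    exact lt_of_le_of_lt (v.map_sub _ _) (max_lt h ((aval_even_le v m).trans_lt hv))
  rw [map_one] at h2
  exact lt_irrefl _ h2

private theorem aval_unit {Γ : Type} [LinearOrderedCommGroupWithZero Γ] (v : Valuation ℂ Γ)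
    (hv : v 2 < 1) {u : ℚ} (hu : u ≠ 0) (h : padicValRat 2 u = 0) :
    v (u : ℂ) = 1 ∧ v ((u : ℂ) - 1) ≤ v 2 := by
  have hcop := u.reduced
  have hnum0 : u.num ≠ 0 := Rat.num_ne_zero.2 hu
  have hval : (padicValInt 2 u.num : ℤ) - padicValNat 2 u.den = 0 := h
  have hden : ¬ 2 ∣ u.den := by
    intro hd
    have h1 : 1 ≤ padicValNat 2 u.den := one_le_padicValNat_of_dvd u.den_nz hd
    have h2 : 1 ≤ padicValNat 2 u.num.natAbs := by
      have : padicValInt 2 u.num = padicValNat 2 u.num.natAbs := rfl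
      omega
    have h3 : 2 ∣ u.num.natAbs := by
      by_contra h4
      rw [padicValNat.eq_zero_of_not_dvd h4] at h2
      omega
    exact Nat.not_coprime_of_dvd_of_dvd (by norm_num) h3 hd hcop
  have hnum : ¬ (2 : ℤ) ∣ u.num := by
    intro hd
    have h3 : 2 ∣ u.num.natAbs := by
      have := Int.natAbs_dvd_natAbs.2 hd
      simpa using this
    have h1 : 1 ≤ padicValNat 2 u.num.natAbs :=
      one_le_padicValNat_of_dvd (Int.natAbs_ne_zero.2 hnum0) h3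
    have h2 : padicValNat 2 u.den = 0 := padicValNat.eq_zero_of_not_dvd hden
    have : padicValInt 2 u.num = padicValNat 2 u.num.natAbs := rfl
    omega
  have hden' : ¬ (2 : ℤ) ∣ (u.den : ℤ) := by
    intro hd
    exact hden (by exact_mod_cast hd)
  have hd1 : v ((u.den : ℤ) : ℂ) = 1 := aval_odd v hv hden'
  have hd0 : ((u.den : ℤ) : ℂ) ≠ 0 := by
    rw [Int.cast_natCast]
    exact_mod_cast u.den_nz
  have hcast : (u : ℂ) = ((u.num : ℤ) : ℂ) / ((u.den : ℤ) : ℂ) := by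
    rw [Rat.cast_def, Int.cast_natCast]
  constructor
  · rw [hcast, map_div₀, hd1, aval_odd v hv hnum, div_one]
  · obtain ⟨m, hm⟩ : ∃ m, u.num - (u.den : ℤ) = 2 * m := ⟨(u.num - (u.den : ℤ)) / 2, by omega⟩
    have h1 : (u : ℂ) - 1 = ((2 * m : ℤ) : ℂ) / ((u.den : ℤ) : ℂ) := by
      rw [← hm, hcast, Int.cast_sub]
      field_simp
    rw [h1, map_div₀, hd1, div_one]
    exact aval_even_le v m

private theorem aval_split {Γ : Type} [LinearOrderedCommGroupWithZero Γ] (v : Valuation ℂ Γ)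
    (hv : v 2 < 1) {q : ℚ} (hq : q ≠ 0) (z : ℤ) (hz : padicValRat 2 q = z) :
    v (q : ℂ) = v 2 ^ z ∧ v ((q : ℂ) / 2 ^ z - 1) ≤ v 2 := by
  have h2 : ((2 : ℚ)) ^ z ≠ 0 := zpow_ne_zero _ (by norm_num)
  have hu : q / 2 ^ z ≠ 0 := div_ne_zero hq h2
  have hval : padicValRat 2 (q / 2 ^ z) = 0 := by
    rw [padicValRat.div hq h2, padicValRat.zpow (2 : ℚ), hz]
    have : padicValRat 2 (2 : ℚ) = 1 := by
      have := padicValRat.self (p := 2) (by norm_num)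
      exact_mod_cast this
    rw [this]
    ring
  obtain ⟨h3, h4⟩ := aval_unit v hv hu hval
  have hc : ((q / 2 ^ z : ℚ) : ℂ) = (q : ℂ) / 2 ^ z := by push_cast; rfl
  rw [hc] at h3 h4
  refine ⟨?_, h4⟩
  rw [map_div₀, map_zpow₀] at h3
  have hv2 : v 2 ≠ 0 := (Valuation.ne_zero_iff v).2 (by norm_num)
  rw [div_eq_one_iff_eq (zpow_ne_zero _ hv2)] at h3
  exact h3

/-- Rational numbers and valuations. -/
theorem val_rat_le {Γ : Type} [LinearOrderedCommGroupWithZero Γ] (v : Valuation ℂ Γ) (hv : v 2 < 1)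
    (q : ℚ) (m n : ℕ) (h : 2 ^ n * padicNorm 2 q ≤ 2 ^ m) : v 2 ^ m * v (q : ℂ) ≤ v 2 ^ n := by
  by_cases hq : q = 0
  · rw [hq]; simp
  have hv2 : v 2 ≠ 0 := (Valuation.ne_zero_iff v).2 (by norm_num)
  set z := padicValRat 2 q with hz
  obtain ⟨h3, -⟩ := aval_split v hv hq z hz.symm
  rw [padicNorm.eq_zpow_of_nonzero hq, ← hz] at h
  have h4 : (n : ℤ) - z ≤ m := by
    have h5 : ((2 : ℚ)) ^ ((n : ℤ) - z) ≤ 2 ^ (m : ℤ) := by
      rw [sub_eq_add_neg, zpow_add₀ (by norm_num), zpow_natCast, zpow_natCast]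
      exact_mod_cast h
    exact (zpow_le_zpow_iff_right₀ (by norm_num)).1 h5
  rw [h3, ← zpow_natCast, ← zpow_add₀ hv2, ← zpow_natCast (v 2) n]
  exact zpow_right_anti₀ (zero_lt_iff.2 hv2) hv.le (by omega)

theorem val_rat_eq {Γ : Type} [LinearOrderedCommGroupWithZero Γ] (v : Valuation ℂ Γ) (hv : v 2 < 1)
    (q : ℚ) (hq : q ≠ 0) (s : ℕ) (h : padicValRat 2 q = (s : ℤ)) :
    v (q : ℂ) = v 2 ^ s ∧ v ((q : ℂ) / 2 ^ s - 1) ≤ v 2 := by
  obtain ⟨h3, h4⟩ := aval_split v hv hq (s : ℤ) h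
  rw [zpow_natCast] at h3 h4
  exact ⟨h3, h4⟩

end MT2
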