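import Pool.Agent.Lib_MP_bfd926_ab.AClo
import Pool.Agent.Lib_MP_bfd926_ab.AVal
import Pool.Agent.Lib_MP_bfd926_sq.SMat

/-!
# The matrix of `2 * T₂`, triangular form

Let `b`, `c`, `r` be as in `matrix_T2`, `d = (w - e) / 3`, `M i j = 2 * LinearMap.toMatrix b b T`
(indices from `1`), `k = 4 * w + 2 * e`. In the basis `b' j = 4 ^ j * b j` (`Module.Basis.unitsSMul` or
`isUnitSMul`) the matrix is `P i j = 4 ^ j / 4 ^ i * M i j`. For `1 ≤ n, j ≤ d`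
`∑_{i ≤ n} 4 ^ (n-i) * qL e w n i * P i j = 4 ^ (n+j) * ∑_{i ≤ n} qL_i / 16 ^ i * M i j
 = 4 ^ (n+j) / lE e w n n * (∑_{i≤n} lE_i * NE i j + ∑_{l ∈ Ioc d (2 n)} (∑_{i≤n} lE_i * NE i l) * c l j)
   + ∑_{i≤n} 4 ^ (n+j) * qL_i / 16 ^ i * 2 ^ k / 16 ^ i * r i j`
(`NE e w i l = 0` for `l > 2 i` extends the sums over `Ioc d (2 i)` to `Ioc d (2 n)`), and by `row_sum` this
is `16 ^ n * dE e w n * (4 ^ (j-n) * qU e w n j + Z n j)` for `j ≥ n`,
`Z n j = 4 ^ j / 4 ^ n * ∑_{l ∈ Ioc d (2 n)} qU e w n l * c l j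
   + (16 ^ n * dE e w n)⁻¹ * ∑_{i≤n} 4 ^ (n+j) * qL_i * 2 ^ k / 256 ^ i * r i j`;
for `j < n` the term `hE e w n j` is zero (this is the assumption `hzero`, from `lv_null`; for `e = 1`
from `hrow w n j = 0`).
Valuation (written additively, `v 2 = 1`): `qU e w n l ≥ -2 (l - n)` (assumption, `l = n + t`,
`t ≤ n`), `c l j ≥ 4 (l - j)`, so the first sum is `≥ 2j - 2n - 2l + 2n + 4l - 4j = 2 (l - j) ≥ 2`; second:
`-s n + 2n + 2j - 2(n - i) + k - 8i + 4j ≥ -s n + k - 6i + 6 ≥ 1`, because `s n ≤ 6n + 1 ≤ 6d + 1`,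
`k ≥ 12 d + 6 e`, `i ≤ d`.
The valuations of rational numbers: `AVal`.
-/

open UpperHalfPlane PowerSeries
open scoped MatrixGroups ModularForm

namespace MT2

private theorem ARow_fin {d : ℕ} (n : Fin d) (f : ℕ → ℂ) :
    ∑ i : Fin d, (if i ≤ n then f ((i : ℕ) + 1) else 0) =
      ∑ i ∈ Finset.Icc 1 ((n : ℕ) + 1), f i := by
  have h1 : ∑ i : Fin d, (if i ≤ n then f ((i : ℕ) + 1) else 0) =
      ∑ i ∈ Finset.range d, if i ≤ (n : ℕ) then f (i + 1) else 0 := by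
    rw [← Fin.sum_univ_eq_sum_range (fun i => if i ≤ (n : ℕ) then f (i + 1) else 0) d]
    refine Finset.sum_congr rfl fun i _ => ?_
    simp only [Fin.le_def]
  rw [h1, ← Finset.sum_filter]
  refine Finset.sum_nbij' (fun i => i + 1) (fun i => i - 1) ?_ ?_ ?_ ?_ ?_
  · intro i hi
    simp only [Finset.mem_filter, Finset.mem_range, Finset.mem_Icc] at hi ⊢
    omega
  · intro i hi
    simp only [Finset.mem_filter, Finset.mem_range, Finset.mem_Icc] at hi ⊢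
    have := n.2
    omega
  · intro i _
    simp
  · intro i hi
    rw [Finset.mem_Icc] at hi
    show i - 1 + 1 = i
    omega
  · intro i _
    rfl

private theorem ARow_NE_zero {e : ℕ} {w i j : ℕ} (h : 2 * i < j) : NE e w i j = 0 := by
  have h1 : ¬ (0 : ℤ) ≤ 2 * (i : ℤ) - (j : ℤ) := by omega
  have h2 : ¬ (0 : ℤ) ≤ 2 * (i : ℤ) - (j : ℤ) - 1 := by omega
  unfold NE N Nt ch
  simp only [h1, h2, if_false]
  simp

private theorem ARow_q {e w n : ℕ} (he : e ≤ 1) (hn : 3 * n + e ≤ w) (h1 : 1 ≤ n) (j : ℕ) :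
    ∑ i ∈ Finset.Icc 1 n, (qL e w n i : ℂ) * (NE e w i j : ℂ) = (dE e w n : ℂ) * (qU e w n j : ℂ) := by
  have hl := lE_ne he hn h1
  have hh := hE_ne he hn h1
  have h2 : ∑ i ∈ Finset.Icc 1 n, qL e w n i * (NE e w i j : ℚ) = dE e w n * qU e w n j := by
    have h3 : ∑ i ∈ Finset.Icc 1 n, qL e w n i * (NE e w i j : ℚ) =
        (∑ i ∈ Finset.Icc 1 n, lE e w n i * (NE e w i j : ℚ)) / lE e w n n := by
      rw [Finset.sum_div]
      refine Finset.sum_congr rfl fun i _ => ?_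
      unfold qL
      ring
    rw [h3, row_sum he hn j]
    unfold dE qU
    field_simp
  exact_mod_cast h2

private theorem ARow_tail {e w n d : ℕ} (he : e ≤ 1) (hn : 3 * n + e ≤ w) (h1 : 1 ≤ n) (c : ℕ → ℂ) :
    ∑ i ∈ Finset.Icc 1 n, (qL e w n i : ℂ) * ∑ l ∈ Finset.Ioc d (2 * i), (NE e w i l : ℂ) * c l =
      (dE e w n : ℂ) * ∑ l ∈ Finset.Ioc d (2 * n), (qU e w n l : ℂ) * c l := by
  have h2 : ∀ i ∈ Finset.Icc 1 n, (qL e w n i : ℂ) * ∑ l ∈ Finset.Ioc d (2 * i), (NE e w i l : ℂ) * c l =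
      ∑ l ∈ Finset.Ioc d (2 * n), (qL e w n i : ℂ) * (NE e w i l : ℂ) * c l := by
    intro i hi
    rw [Finset.mem_Icc] at hi
    have h3 : ∑ l ∈ Finset.Ioc d (2 * i), (NE e w i l : ℂ) * c l =
        ∑ l ∈ Finset.Ioc d (2 * n), (NE e w i l : ℂ) * c l := by
      apply Finset.sum_subset
      · exact Finset.Ioc_subset_Ioc le_rfl (by omega)
      · intro l hl hl2
        rw [Finset.mem_Ioc] at hl hl2
        rw [ARow_NE_zero (by omega), Int.cast_zero, zero_mul]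
    rw [h3, Finset.mul_sum]
    refine Finset.sum_congr rfl fun l _ => ?_
    ring
  rw [Finset.sum_congr rfl h2, Finset.sum_comm, Finset.mul_sum]
  refine Finset.sum_congr rfl fun l _ => ?_
  rw [← Finset.sum_mul, ARow_q he hn h1 l]
  ring

private theorem ARow_core {e w n j d k : ℕ} (he : e ≤ 1) (hn : 3 * n + e ≤ w) (h1 : 1 ≤ n)
    (c r : ℕ → ℕ → ℂ) :
    ∑ i ∈ Finset.Icc 1 n, (4 : ℂ) ^ (n - i) * (qL e w n i : ℂ) * (4 ^ j / 4 ^ i *
        (16 ^ i * (NE e w i j : ℂ) + 16 ^ i * ∑ l ∈ Finset.Ioc d (2 * i), (NE e w i l : ℂ) * c l j +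
          2 ^ k / 16 ^ i * r i j)) =
      4 ^ (n + j) * ((dE e w n : ℂ) * ((qU e w n j : ℂ) +
        ∑ l ∈ Finset.Ioc d (2 * n), (qU e w n l : ℂ) * c l j)) +
      ∑ i ∈ Finset.Icc 1 n, (4 : ℂ) ^ (n - i) * (qL e w n i : ℂ) * (4 ^ j / 4 ^ i *
        (2 ^ k / 16 ^ i * r i j)) := by
  have h2 : ∀ i ∈ Finset.Icc 1 n, (4 : ℂ) ^ (n - i) * (qL e w n i : ℂ) * (4 ^ j / 4 ^ i *
        (16 ^ i * (NE e w i j : ℂ) + 16 ^ i * ∑ l ∈ Finset.Ioc d (2 * i), (NE e w i l : ℂ) * c l j +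
          2 ^ k / 16 ^ i * r i j)) =
      4 ^ (n + j) * ((qL e w n i : ℂ) * (NE e w i j : ℂ) +
        (qL e w n i : ℂ) * ∑ l ∈ Finset.Ioc d (2 * i), (NE e w i l : ℂ) * c l j) +
      (4 : ℂ) ^ (n - i) * (qL e w n i : ℂ) * (4 ^ j / 4 ^ i * (2 ^ k / 16 ^ i * r i j)) := by
    intro i hi
    rw [Finset.mem_Icc] at hi
    have h3 : (4 : ℂ) ^ (n - i) * (4 ^ j / 4 ^ i) * 16 ^ i = 4 ^ (n + j) := by
      have e1 : (16 : ℂ) ^ i = 4 ^ i * 4 ^ i := by rw [← mul_pow]; norm_num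
      have e2 : (4 : ℂ) ^ (n + j) = 4 ^ (n - i) * 4 ^ j * 4 ^ i := by
        rw [← pow_add, ← pow_add]
        congr 1
        omega
      rw [e1, e2]
      field_simp
    rw [← h3]
    ring
  rw [Finset.sum_congr rfl h2, Finset.sum_add_distrib, ← Finset.mul_sum, Finset.sum_add_distrib,
    ARow_q he hn h1 j, ARow_tail he hn h1 (fun l => c l j), ← mul_add]

private theorem ARow_u0 {Γ : Type} [LinearOrderedCommGroupWithZero Γ] (v : Valuation ℂ Γ) : v 2 ≠ 0 := by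
  rw [Valuation.ne_zero_iff]
  norm_num

private theorem ARow_4 {Γ : Type} [LinearOrderedCommGroupWithZero Γ] (v : Valuation ℂ Γ) (n : ℕ) :
    v ((4 : ℂ) ^ n) = v 2 ^ (2 * n) := by
  rw [pow_mul, map_pow, ← map_pow v 2 2]
  norm_num

private theorem ARow_16 {Γ : Type} [LinearOrderedCommGroupWithZero Γ] (v : Valuation ℂ Γ) (n : ℕ) :
    v ((16 : ℂ) ^ n) = v 2 ^ (4 * n) := by
  rw [pow_mul, map_pow, ← map_pow v 2 4]
  norm_num

/-- cancellation of a power -/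
private theorem ARow_cancel {Γ : Type} [LinearOrderedCommGroupWithZero Γ] {u x : Γ} (hu : u ≠ 0)
    (hu1 : u ≤ 1) {a b : ℕ} (h : u ^ a * x ≤ u ^ b) (hab : a + 1 ≤ b) : x ≤ u := by
  have h1 : u ^ a * x ≤ u ^ a * u := by
    refine h.trans ?_
    rw [← pow_succ]
    exact pow_le_pow_right_of_le_one' hu1 hab
  exact (mul_le_mul_iff_right₀ (pow_pos (zero_lt_iff.2 hu) a)).1 h1

/-- `lv_null` for both parities. -/
theorem hE_lt {e w n j : ℕ} (he : e ≤ 1) (hn : 3 * n + e ≤ w) (hj : 1 ≤ j) (hjn : j < n) :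
    hE e w n j = 0 := by
  have h1 : hrow w n j = 0 := lv_null (by omega) hj hjn
  unfold hE
  rw [h1]
  simp

theorem row_eq {Γ : Type} [LinearOrderedCommGroupWithZero Γ] (v : Valuation ℂ Γ) (hv : v 2 < 1)
    (e w : ℕ) (he : e ≤ 1) (hw : e ≤ w)
    (T : Module.End ℂ (CuspForm 𝒮ℒ ((4 * w + 2 * e : ℕ) : ℤ)))
    (hT : ∀ f, qExpansion 1 (T f) =
      uu (qExpansion 1 f) + C ((2 : ℂ) ^ (4 * w + 2 * e) / 2) * dbl (qExpansion 1 f))
    (s : ℕ → ℕ)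
    (hs : ∀ n, 1 ≤ n → n ≤ (w - e) / 3 → padicValRat 2 (16 ^ n * dE e w n) = (s n : ℤ))
    (hs6 : ∀ n, 1 ≤ n → n ≤ (w - e) / 3 → s n ≤ 6 * n + 1)
    (hL : ∀ n t, 1 ≤ t → t < n → n ≤ (w - e) / 3 → padicNorm 2 (qL e w n (n - t)) ≤ 4 ^ t)
    (hU : ∀ n t, 1 ≤ t → t ≤ n → n ≤ (w - e) / 3 → padicNorm 2 (qU e w n (n + t)) ≤ 4 ^ t) :
    ∃ (b : Module.Basis (Fin ((w - e) / 3)) ℂ (CuspForm 𝒮ℒ ((4 * w + 2 * e : ℕ) : ℤ)))
      (Z : Fin ((w - e) / 3) → Fin ((w - e) / 3) → ℂ),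
      (∀ n j, v (Z n j) ≤ v 2) ∧
      ∀ n j : Fin ((w - e) / 3),
        ∑ i : Fin ((w - e) / 3), (if i ≤ n then (4 : ℂ) ^ ((n : ℕ) - (i : ℕ)) *
            ((qL e w ((n : ℕ) + 1) ((i : ℕ) + 1) : ℚ) : ℂ) else 0) *
            (2 * LinearMap.toMatrix b b T i j) =
          ((16 ^ ((n : ℕ) + 1) * dE e w ((n : ℕ) + 1) : ℚ) : ℂ) *
            ((if n ≤ j then (4 : ℂ) ^ ((j : ℕ) - (n : ℕ)) *
              ((qU e w ((n : ℕ) + 1) ((j : ℕ) + 1) : ℚ) : ℂ) else 0) + Z n j) := by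
  have hu : v 2 ≠ 0 := ARow_u0 v
  have hu1 : v 2 ≤ 1 := hv.le
  obtain ⟨b, c, r, hc, hr, hM⟩ := matrix_T2 v hv.le e w he T hT
  obtain ⟨d, hd⟩ : ∃ d, d = (w - e) / 3 := ⟨_, rfl⟩
  rw [← hd] at hs hs6 hL hU hc hr
  have hMd : ∀ i j : Fin ((w - e) / 3), 2 * LinearMap.toMatrix b b T i j =
        16 ^ ((i : ℕ) + 1) * (NE e w ((i : ℕ) + 1) ((j : ℕ) + 1) : ℂ) +
          16 ^ ((i : ℕ) + 1) * ∑ l ∈ Finset.Ioc d (2 * ((i : ℕ) + 1)),
            (NE e w ((i : ℕ) + 1) l : ℂ) * c l ((j : ℕ) + 1) +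
          2 ^ (4 * w + 2 * e) / 16 ^ ((i : ℕ) + 1) * r ((i : ℕ) + 1) ((j : ℕ) + 1) := by
    intro i j
    rw [hM i j, hd]
  have hdw : ∀ n : ℕ, n ≤ d → 3 * n + e ≤ w := by
    intro n hn
    omega
  have hD0 : ∀ n : ℕ, 1 ≤ n → n ≤ d → dE e w n ≠ 0 := by
    intro n h1 h2
    unfold dE
    exact div_ne_zero (hE_ne he (hdw n h2) h1) (lE_ne he (hdw n h2) h1)
  have hunit : ∀ j : Fin ((w - e) / 3), IsUnit ((4 : ℂ) ^ (j : ℕ)) := fun j =>
    (pow_ne_zero _ (by norm_num : (4 : ℂ) ≠ 0)).isUnit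
  have hb' : ∀ i j, LinearMap.toMatrix (b.isUnitSMul hunit) (b.isUnitSMul hunit) T i j =
      4 ^ (j : ℕ) / 4 ^ (i : ℕ) * LinearMap.toMatrix b b T i j := by
    intro i j
    rw [LinearMap.toMatrix_apply, LinearMap.toMatrix_apply, Module.Basis.isUnitSMul_apply, map_smul,
      Module.Basis.repr_isUnitSMul, map_smul, Finsupp.smul_apply, Units.smul_def, Units.val_inv_eq_inv_val,
      IsUnit.unit_spec, smul_eq_mul, smul_eq_mul]
    ring
  obtain ⟨Z, hZ⟩ : ∃ Z : ℕ → ℕ → ℂ, ∀ n j, Z n j = 4 ^ j / 4 ^ n *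
      (∑ l ∈ Finset.Ioc d (2 * n), (qU e w n l : ℂ) * c l j) +
      (16 ^ n * (dE e w n : ℂ))⁻¹ * ∑ i ∈ Finset.Icc 1 n, (4 : ℂ) ^ (n - i) * (qL e w n i : ℂ) *
        (4 ^ j / 4 ^ i * (2 ^ (4 * w + 2 * e) / 16 ^ i * r i j)) := ⟨_, fun _ _ => rfl⟩
  refine ⟨b.isUnitSMul hunit, fun n j => Z ((n : ℕ) + 1) ((j : ℕ) + 1), ?_, ?_⟩
  · -- the valuations
    intro n0 j0
    have hn0 : (n0 : ℕ) < d := by
      rw [hd]
      exact n0.2
    have hj0 : (j0 : ℕ) < d := by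
      rw [hd]
      exact j0.2
    obtain ⟨n, hn⟩ : ∃ n, n = (n0 : ℕ) + 1 := ⟨_, rfl⟩
    obtain ⟨j, hj⟩ : ∃ j, j = (j0 : ℕ) + 1 := ⟨_, rfl⟩
    show v (Z ((n0 : ℕ) + 1) ((j0 : ℕ) + 1)) ≤ v 2
    rw [← hn, ← hj]
    have hn1 : 1 ≤ n := by omega
    have hnd : n ≤ d := by omega
    have hj1 : 1 ≤ j := by omega
    have hjd : j ≤ d := by omega
    clear hn hj
    rw [hZ]
    refine Valuation.map_add_le _ ?_ ?_
    · rw [Finset.mul_sum]
      refine Valuation.map_sum_le _ ?_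
      intro l hl
      rw [Finset.mem_Ioc] at hl
      have q1 : v 2 ^ (2 * (l - n)) * v ((qU e w n l : ℚ) : ℂ) ≤ v 2 ^ 0 := by
        apply val_rat_le v hv
        have h1 := hU n (l - n) (by omega) (by omega) hnd
        have h2 : n + (l - n) = l := by omega
        rw [h2] at h1
        rw [pow_zero, one_mul, pow_mul]
        norm_num
        exact h1
      have q2 := hc l j hj1 hjd hl.1
      apply ARow_cancel hu hu1 (a := 2 * n + 2 * (l - n)) (b := 2 * j + 4 * (l - j))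
      · have h4 : (4 ^ j / 4 ^ n * ((qU e w n l : ℂ) * c l j)) * 4 ^ n =
            4 ^ j * ((qU e w n l : ℂ) * c l j) := by
          have : (4 : ℂ) ^ n ≠ 0 := pow_ne_zero _ (by norm_num)
          field_simp
        have h3 := congrArg v h4
        rw [map_mul v _ (4 ^ n), map_mul v (4 ^ j) _, map_mul v _ (c l j), ARow_4, ARow_4] at h3
        calc v 2 ^ (2 * n + 2 * (l - n)) * v (4 ^ j / 4 ^ n * ((qU e w n l : ℂ) * c l j))
            = v 2 ^ (2 * (l - n)) * (v (4 ^ j / 4 ^ n * ((qU e w n l : ℂ) * c l j)) * v 2 ^ (2 * n)) := by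
              rw [pow_add]
              ac_rfl
          _ = v 2 ^ (2 * j) * ((v 2 ^ (2 * (l - n)) * v ((qU e w n l : ℚ) : ℂ)) * v (c l j)) := by
              rw [h3]
              ac_rfl
          _ ≤ v 2 ^ (2 * j) * (v 2 ^ 0 * v 2 ^ (4 * (l - j))) := by
              gcongr
          _ = v 2 ^ (2 * j + 4 * (l - j)) := by
              rw [pow_zero, one_mul, pow_add]
      · omega
    · rw [Finset.mul_sum]
      refine Valuation.map_sum_le _ ?_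
      intro i hi
      rw [Finset.mem_Icc] at hi
      have hDv : v 2 ^ s n = v (16 ^ n * (dE e w n : ℂ)) := by
        have h1 := (val_rat_eq v hv (16 ^ n * dE e w n) (mul_ne_zero (by positivity) (hD0 n hn1 hnd))
          (s n) (hs n hn1 hnd)).1
        rw [← h1]
        congr 1
        push_cast
        ring
      have hDc : (16 : ℂ) ^ n * (dE e w n : ℂ) ≠ 0 := by
        have h1 : (dE e w n : ℂ) ≠ 0 := by exact_mod_cast hD0 n hn1 hnd
        exact mul_ne_zero (pow_ne_zero _ (by norm_num)) h1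
      have q1 : v 2 ^ (2 * (n - i)) * v ((qL e w n i : ℚ) : ℂ) ≤ v 2 ^ 0 := by
        apply val_rat_le v hv
        by_cases hin : i = n
        · rw [hin]
          have h1 : qL e w n n = 1 := div_self (lE_ne he (hdw n hnd) hn1)
          rw [h1]
          simp
        · have h1 := hL n (n - i) (by omega) (by omega) hnd
          have h2 : n - (n - i) = i := by omega
          rw [h2] at h1
          rw [pow_zero, one_mul, pow_mul]
          norm_num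
          exact h1
      have q2 := hr i j hj1 hjd
      have hs6n := hs6 n hn1 hnd
      have hdw' := hdw d le_rfl
      apply ARow_cancel hu hu1 (a := s n + 2 * i + 4 * i + 2 * (n - i))
        (b := 2 * (n - i) + 2 * j + (4 * w + 2 * e) + 4 * j)
      · obtain ⟨X, hX⟩ : ∃ X : ℂ, X = (16 ^ n * (dE e w n : ℂ))⁻¹ * ((4 : ℂ) ^ (n - i) * (qL e w n i : ℂ) *
              (4 ^ j / 4 ^ i * (2 ^ (4 * w + 2 * e) / 16 ^ i * r i j))) := ⟨_, rfl⟩
        rw [← hX]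
        have h4 : X * ((16 ^ n * (dE e w n : ℂ)) * (4 ^ i * 16 ^ i)) =
            (4 ^ (n - i) * 4 ^ j * 2 ^ (4 * w + 2 * e)) * ((qL e w n i : ℂ) * r i j) := by
          have e1 : (4 : ℂ) ^ i ≠ 0 := pow_ne_zero _ (by norm_num)
          have e2 : (16 : ℂ) ^ i ≠ 0 := pow_ne_zero _ (by norm_num)
          calc X * ((16 ^ n * (dE e w n : ℂ)) * (4 ^ i * 16 ^ i))
              = ((16 ^ n * (dE e w n : ℂ))⁻¹ * (16 ^ n * (dE e w n : ℂ))) *
                ((4 : ℂ) ^ (n - i) * (qL e w n i : ℂ) *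
                ((4 ^ j / 4 ^ i * 4 ^ i) * (2 ^ (4 * w + 2 * e) / 16 ^ i * 16 ^ i * r i j))) := by
                rw [hX]
                ring
            _ = _ := by
                rw [inv_mul_cancel₀ hDc, div_mul_cancel₀ _ e1, div_mul_cancel₀ _ e2]
                ring
        have h3 := congrArg v h4
        rw [map_mul v X, map_mul v (16 ^ n * (dE e w n : ℂ)), map_mul v (4 ^ i) _, ← hDv, ARow_4, ARow_16,
          map_mul v _ ((qL e w n i : ℂ) * r i j), map_mul v _ (2 ^ (4 * w + 2 * e)), map_mul v (4 ^ (n - i)) _,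
          ARow_4, ARow_4, map_pow, map_mul v _ (r i j)] at h3
        calc v 2 ^ (s n + 2 * i + 4 * i + 2 * (n - i)) * v X
            = v 2 ^ (2 * (n - i)) * (v X * (v 2 ^ s n * (v 2 ^ (2 * i) * v 2 ^ (4 * i)))) := by
              rw [pow_add, pow_add, pow_add]
              ac_rfl
          _ = (v 2 ^ (2 * (n - i)) * v 2 ^ (2 * j) * v 2 ^ (4 * w + 2 * e)) *
              ((v 2 ^ (2 * (n - i)) * v ((qL e w n i : ℚ) : ℂ)) * v (r i j)) := by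
              rw [h3]
              ac_rfl
          _ ≤ (v 2 ^ (2 * (n - i)) * v 2 ^ (2 * j) * v 2 ^ (4 * w + 2 * e)) *
              (v 2 ^ 0 * v 2 ^ (4 * j)) := by
              gcongr
          _ = v 2 ^ (2 * (n - i) + 2 * j + (4 * w + 2 * e) + 4 * j) := by
              rw [pow_zero, one_mul, ← pow_add, ← pow_add, ← pow_add]
      · omega
  · -- the identity
    intro n0 j0
    have hn0 : (n0 : ℕ) < d := by
      rw [hd]
      exact n0.2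
    have hj0 : (j0 : ℕ) < d := by
      rw [hd]
      exact j0.2
    have hn1 : 1 ≤ (n0 : ℕ) + 1 := by omega
    have hnd : (n0 : ℕ) + 1 ≤ d := by omega
    have hDc : (16 : ℂ) ^ ((n0 : ℕ) + 1) * (dE e w ((n0 : ℕ) + 1) : ℂ) ≠ 0 := by
      have h1 : (dE e w ((n0 : ℕ) + 1) : ℂ) ≠ 0 := by exact_mod_cast hD0 _ hn1 hnd
      exact mul_ne_zero (pow_ne_zero _ (by norm_num)) h1
    have h1 : ∀ i : Fin ((w - e) / 3), (if i ≤ n0 then (4 : ℂ) ^ ((n0 : ℕ) - (i : ℕ)) *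
            ((qL e w ((n0 : ℕ) + 1) ((i : ℕ) + 1) : ℚ) : ℂ) else 0) *
            (2 * LinearMap.toMatrix (b.isUnitSMul hunit) (b.isUnitSMul hunit) T i j0) =
        if i ≤ n0 then (fun i' : ℕ => (4 : ℂ) ^ ((n0 : ℕ) + 1 - i') * (qL e w ((n0 : ℕ) + 1) i' : ℂ) *
          (4 ^ ((j0 : ℕ) + 1) / 4 ^ i' *
          (16 ^ i' * (NE e w i' ((j0 : ℕ) + 1 : ℕ) : ℂ) +
            16 ^ i' * ∑ l ∈ Finset.Ioc d (2 * i'), (NE e w i' l : ℂ) * c l ((j0 : ℕ) + 1) +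
            2 ^ (4 * w + 2 * e) / 16 ^ i' * r i' ((j0 : ℕ) + 1)))) ((i : ℕ) + 1) else 0 := by
      intro i
      by_cases hin : i ≤ n0
      · rw [if_pos hin, if_pos hin, hb']
        have h2 : 2 * (4 ^ (j0 : ℕ) / 4 ^ (i : ℕ) * LinearMap.toMatrix b b T i j0) =
            4 ^ (j0 : ℕ) / 4 ^ (i : ℕ) * (2 * LinearMap.toMatrix b b T i j0) := by ring
        rw [h2, hMd i j0]
        have h3 : (n0 : ℕ) + 1 - ((i : ℕ) + 1) = (n0 : ℕ) - (i : ℕ) := by omega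
        simp only [h3]
        have h4 : (4 : ℂ) ^ ((j0 : ℕ) + 1) / 4 ^ ((i : ℕ) + 1) = 4 ^ (j0 : ℕ) / 4 ^ (i : ℕ) := by
          rw [pow_succ, pow_succ]
          field_simp
        rw [h4]
        push_cast
        ring
      · rw [if_neg hin, if_neg hin, zero_mul]
    rw [Finset.sum_congr rfl (fun i _ => h1 i), ARow_fin n0
      (fun i' : ℕ => (4 : ℂ) ^ ((n0 : ℕ) + 1 - i') * (qL e w ((n0 : ℕ) + 1) i' : ℂ) *
          (4 ^ ((j0 : ℕ) + 1) / 4 ^ i' *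
          (16 ^ i' * (NE e w i' ((j0 : ℕ) + 1 : ℕ) : ℂ) +
            16 ^ i' * ∑ l ∈ Finset.Ioc d (2 * i'), (NE e w i' l : ℂ) * c l ((j0 : ℕ) + 1) +
            2 ^ (4 * w + 2 * e) / 16 ^ i' * r i' ((j0 : ℕ) + 1)))),
      ARow_core he (hdw _ hnd) hn1 c r]
    show _ = _ * (_ + Z ((n0 : ℕ) + 1) ((j0 : ℕ) + 1))
    rw [hZ]
    have hq : (if n0 ≤ j0 then (4 : ℂ) ^ ((j0 : ℕ) - (n0 : ℕ)) *
              ((qU e w ((n0 : ℕ) + 1) ((j0 : ℕ) + 1) : ℚ) : ℂ) else 0) =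
        4 ^ ((j0 : ℕ) + 1) / 4 ^ ((n0 : ℕ) + 1) * ((qU e w ((n0 : ℕ) + 1) ((j0 : ℕ) + 1) : ℚ) : ℂ) := by
      by_cases hnj : n0 ≤ j0
      · rw [if_pos hnj]
        congr 1
        have h5 : (j0 : ℕ) + 1 = ((j0 : ℕ) - (n0 : ℕ)) + ((n0 : ℕ) + 1) := by
          have : (n0 : ℕ) ≤ (j0 : ℕ) := hnj
          omega
        rw [eq_div_iff (pow_ne_zero _ (by norm_num)), ← pow_add, ← h5]
      · rw [if_neg hnj]
        have h6 : (j0 : ℕ) < (n0 : ℕ) := by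
          by_contra h7
          exact hnj (by
            rw [Fin.le_def]
            omega)
        have h5 : qU e w ((n0 : ℕ) + 1) ((j0 : ℕ) + 1) = 0 := by
          unfold qU
          rw [hE_lt he (hdw _ hnd) (by omega) (by omega), zero_div]
        rw [h5]
        simp
    rw [hq]
    have hcast : (((16 : ℚ) ^ ((n0 : ℕ) + 1) * dE e w ((n0 : ℕ) + 1) : ℚ) : ℂ) =
        16 ^ ((n0 : ℕ) + 1) * (dE e w ((n0 : ℕ) + 1) : ℂ) := by
      push_cast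
      ring
    rw [hcast]
    have h16 : (16 : ℂ) ^ ((n0 : ℕ) + 1) * (4 ^ ((j0 : ℕ) + 1) / 4 ^ ((n0 : ℕ) + 1)) =
        4 ^ ((n0 : ℕ) + 1 + ((j0 : ℕ) + 1)) := by
      have e1 : (16 : ℂ) ^ ((n0 : ℕ) + 1) = 4 ^ ((n0 : ℕ) + 1) * 4 ^ ((n0 : ℕ) + 1) := by
        rw [← mul_pow]; norm_num
      rw [e1, pow_add (4 : ℂ) ((n0 : ℕ) + 1) ((j0 : ℕ) + 1)]
      field_simp
    rw [← h16]
    set SS := ∑ i ∈ Finset.Icc 1 ((n0 : ℕ) + 1), (4 : ℂ) ^ ((n0 : ℕ) + 1 - i) *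
      (qL e w ((n0 : ℕ) + 1) i : ℂ) * (4 ^ ((j0 : ℕ) + 1) / 4 ^ i *
        (2 ^ (4 * w + 2 * e) / 16 ^ i * r i ((j0 : ℕ) + 1))) with hSS
    have hfin : SS = (16 ^ ((n0 : ℕ) + 1) * (dE e w ((n0 : ℕ) + 1) : ℂ)) *
        ((16 ^ ((n0 : ℕ) + 1) * (dE e w ((n0 : ℕ) + 1) : ℂ))⁻¹ * SS) := by
      rw [← mul_assoc, mul_inv_cancel₀ hDc, one_mul]
    conv_lhs => rw [hfin]
    ring

end MT2
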