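import Pool.Agent.Lib_MP_bfd926_ab.ATwo
import Pool.Agent.Lib_MP_bfd926_ab.ADl
import Pool.Agent.Lib_MP_bfd926_ab.ARow
import Pool.Agent.Lib_MP_bfd926_ab.AOne
import Pool.Agent.Lib_MP_bfd926_ab.ADiag
import Pool.Agent.Lib_MP_bfd926_sq.SExV

/-!
# Weights `2 ^ m`, `2 ^ m + 2`
-/

open UpperHalfPlane PowerSeries
open scoped MatrixGroups ModularForm

namespace MT2

/-- The scaled entries have positive valuation. -/
theorem scaled_le {Γ : Type} [LinearOrderedCommGroupWithZero Γ] (v : Valuation ℂ Γ) (hv : v 2 < 1)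
    (q : ℚ) (t : ℕ) (h : 2 * padicNorm 2 q ≤ 4 ^ t) : v ((4 : ℂ) ^ t * (q : ℂ)) ≤ v 2 := by
  have h1 := val_rat_le v hv q (2 * t) 1 (by
    rw [pow_one, pow_mul]
    norm_num
    exact h)
  have h2 : v ((4 : ℂ) ^ t) = v 2 ^ (2 * t) := by
    rw [pow_mul, map_pow, ← map_pow v 2 2]
    norm_num
  rw [map_mul, h2]
  simpa using h1

theorem qL_self {e w n : ℕ} (he : e ≤ 1) (hn : 3 * n + e ≤ w) (h1 : 1 ≤ n) : qL e w n n = 1 :=
  div_self (lE_ne he hn h1)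

theorem qU_self {e w n : ℕ} (he : e ≤ 1) (hn : 3 * n + e ≤ w) (h1 : 1 ≤ n) : qU e w n n = 1 :=
  div_self (hE_ne he hn h1)

theorem dE_ne {e w n : ℕ} (he : e ≤ 1) (hn : 3 * n + e ≤ w) (h1 : 1 ≤ n) : dE e w n ≠ 0 :=
  div_ne_zero (hE_ne he hn h1) (lE_ne he hn h1)

/-- The exponents. -/
def sB (e n : ℕ) : ℕ := 2 + e + 2 * padicValNat 2 ((3 * n).factorial / n.factorial)

theorem sB_le {e n : ℕ} (he : e ≤ 1) (h1 : 1 ≤ n) : sB e n ≤ 6 * n + 1 := by
  have := s_two_le h1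
  unfold sB
  omega

theorem sB_mono (e : ℕ) : StrictMono (sB e) := by
  refine strictMono_nat_of_lt_succ fun n => ?_
  have := s_two_lt n
  unfold sB
  omega

theorem thmB_val {Γ : Type} [LinearOrderedCommGroupWithZero Γ] (v : Valuation ℂ Γ) (hv : v 2 < 1)
    (r e : ℕ) (he : e ≤ 1) (T : Module.End ℂ (CuspForm 𝒮ℒ ((4 * 2 ^ r + 2 * e : ℕ) : ℤ)))
    (hT : ∀ f, qExpansion 1 (T f) =
      uu (qExpansion 1 f) + C ((2 : ℂ) ^ (4 * 2 ^ r + 2 * e) / 2) * dbl (qExpansion 1 f)) :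
    Module.finrank ℂ (CuspForm 𝒮ℒ ((4 * 2 ^ r + 2 * e : ℕ) : ℤ)) = (2 ^ r - e) / 3 ∧
    (∀ μ, Module.finrank ℂ (T.eigenspace μ) ≤ 1) ∧
      (∀ μ, T.HasEigenvalue μ → ∃ n : Fin ((2 ^ r - e) / 3), v (2 * μ) = v 2 ^ sB e (n + 1)) ∧
      ∀ μ μ', T.HasEigenvalue μ → T.HasEigenvalue μ' → v μ = v μ' → μ = μ' := by
  have hw : e ≤ 2 ^ r := he.trans Nat.one_le_two_pow
  have hn3 : ∀ n, n ≤ (2 ^ r - e) / 3 → 3 * n + e ≤ 2 ^ r := fun n hn => by omega
  obtain ⟨b, Z, hZ, heq⟩ := row_eq v hv e (2 ^ r) he hw T hT (sB e)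
    (fun n h1 hn => dE_two he rfl (hn3 n hn) h1) (fun n h1 _ => sB_le he h1)
    (fun n t h1 ht hn => by
      have h2 := qL_two he rfl (hn3 n hn) h1 ht
      have h3 : 0 ≤ padicNorm 2 (qL e (2 ^ r) n (n - t)) := padicNorm.nonneg _
      linarith)
    (fun n t h1 ht hn => by
      have h2 := qU_two he rfl (hn3 n hn) h1 ht
      have h3 : 0 ≤ padicNorm 2 (qU e (2 ^ r) n (n + t)) := padicNorm.nonneg _
      linarith)
  refine ⟨by rw [Module.finrank_eq_card_basis b, Fintype.card_fin], ?_⟩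
  refine abs_one v hv T b _ _ _ (fun n => sB e ((n : ℕ) + 1)) ?_ ?_ ?_ ?_ heq
  · intro i j hij
    have h1 := (sB_mono e).injective hij
    exact Fin.ext (by omega)
  · intro i j
    have hi := i.2
    have hj := j.2
    rcases lt_trichotomy j i with h | h | h
    · have hlt : (j : ℕ) < (i : ℕ) := h
      rw [if_pos h.le, if_neg (ne_of_gt h), sub_zero]
      obtain ⟨t, ht⟩ : ∃ t, (i : ℕ) = j + t := ⟨i - j, by omega⟩
      have h2 := qL_two (r := r) (e := e) (w := 2 ^ r) (n := (i : ℕ) + 1) (t := t) he rfl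
        (hn3 _ (by omega)) (by omega) (by omega)
      have h3 : (i : ℕ) + 1 - t = (j : ℕ) + 1 := by omega
      have h4 : (i : ℕ) - (j : ℕ) = t := by omega
      rw [h3] at h2
      rw [h4]
      exact (scaled_le v hv _ t h2).trans_lt hv
    · subst h
      rw [if_pos le_rfl, if_pos rfl, Nat.sub_self, pow_zero,
        qL_self he (hn3 _ (by omega)) (by omega)]
      simp
    · rw [if_neg (not_le.2 h), if_neg (ne_of_lt h)]
      simp
  · intro i j
    have hi := i.2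
    have hj := j.2
    rcases lt_trichotomy i j with h | h | h
    · have hlt : (i : ℕ) < (j : ℕ) := h
      rw [if_pos h.le, if_neg (ne_of_lt h), sub_zero]
      obtain ⟨t, ht⟩ : ∃ t, (j : ℕ) = i + t := ⟨j - i, by omega⟩
      have h4 : (j : ℕ) - (i : ℕ) = t := by omega
      have h3 : (i : ℕ) + 1 + t = (j : ℕ) + 1 := by omega
      rw [h4]
      have h5 : v ((4 : ℂ) ^ t * ((qU e (2 ^ r) ((i : ℕ) + 1) ((j : ℕ) + 1) : ℚ) : ℂ)) ≤ v 2 := by
        rcases le_or_gt t ((i : ℕ) + 1) with h6 | h6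
        · have h2 := qU_two (r := r) (e := e) (w := 2 ^ r) (n := (i : ℕ) + 1) (t := t) he rfl
            (hn3 _ (by omega)) (by omega) h6
          rw [h3] at h2
          exact scaled_le v hv _ t h2
        · have h7 : qU e (2 ^ r) ((i : ℕ) + 1) ((j : ℕ) + 1) = 0 := by
            unfold qU
            rw [row_zero he (by omega), zero_div]
          rw [h7]
          simp
      exact lt_of_le_of_lt (v.map_add_le h5 (hZ i j)) hv
    · subst h
      rw [if_pos le_rfl, if_pos rfl, Nat.sub_self, pow_zero,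
        qU_self he (hn3 _ (by omega)) (by omega)]
      have := hZ i i
      simp only [Rat.cast_one, mul_one, add_sub_cancel_left]
      exact lt_of_le_of_lt this hv
    · rw [if_neg (not_le.2 h), if_neg (ne_of_gt h), sub_zero, zero_add]
      exact lt_of_le_of_lt (hZ i j) hv
  · intro i
    have hi := i.2
    refine (val_rat_eq v hv _ ?_ _ (dE_two he rfl (hn3 _ (by omega)) (by omega))).1
    exact mul_ne_zero (pow_ne_zero _ (by norm_num)) (dE_ne he (hn3 _ (by omega)) (by omega))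

theorem thmB (m e k : ℕ) (hm : 2 ≤ m) (he : e ≤ 1) (hk : k = 2 ^ m + 2 * e) :
    ∃ (_ : FiniteDimensional ℂ (CuspForm 𝒮ℒ (k : ℤ))) (T : Module.End ℂ (CuspForm 𝒮ℒ (k : ℤ))),
      (∀ (f : CuspForm 𝒮ℒ (k : ℤ)) (z : ℍ),
        T f z = 2 ^ ((k : ℤ) - 1) * f (ofComplex (2 * z)) +
          (f (ofComplex (z / 2)) + f (ofComplex ((z + 1) / 2))) / 2) ∧
      {μ : ℂ | T.HasEigenvalue μ}.ncard = Module.finrank ℂ (CuspForm 𝒮ℒ (k : ℤ)) ∧
      ∀ (Γ : Type) [LinearOrderedCommGroupWithZero Γ] (v : Valuation ℂ Γ), v 2 < 1 →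
        ∀ n, 1 ≤ n → n ≤ Module.finrank ℂ (CuspForm 𝒮ℒ (k : ℤ)) →
          ∃! μ : ℂ, T.HasEigenvalue μ ∧
            v μ = v 2 ^ (1 + e + 2 * padicValNat 2 ((3 * n).factorial / n.factorial)) := by
  obtain ⟨r, rfl⟩ : ∃ r, m = r + 2 := ⟨m - 2, by omega⟩
  obtain rfl : k = 4 * 2 ^ r + 2 * e := by rw [hk, pow_add]; ring
  obtain ⟨hfin, T, hT1, hT2, htop⟩ := exists_T2_diag (4 * 2 ^ r + 2 * e)
  obtain ⟨Γ₀, i₀, v₀, hv₀⟩ := exists_val
  have h0 := thmB_val v₀ hv₀ r e he T hT2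
  have hn := ncard_eig T htop h0.2.1
  refine ⟨hfin, T, hT1, hn, ?_⟩
  intro Γ _ v hv n hn1 hn2
  obtain ⟨hr, h1, h2, h3⟩ := thmB_val v hv r e he T hT2
  rw [hr] at hn2
  have h20 : v 2 ≠ 0 := (map_ne_zero v).2 two_ne_zero
  have h4 := exists_unique_val v hv {μ : ℂ | T.HasEigenvalue μ} _ (hn.trans hr)
    (fun i => sB e ((i : ℕ) + 1)) h2 (fun μ h μ' h' => h3 μ μ' h h') ⟨n - 1, by omega⟩
  have h5 : n - 1 + 1 = n := by omega
  simp only [h5, Set.mem_ofPred_eq] at h4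
  have h6 : ∀ μ : ℂ, (v (2 * μ) = v 2 ^ sB e n) ↔
      v μ = v 2 ^ (1 + e + 2 * padicValNat 2 ((3 * n).factorial / n.factorial)) := by
    intro μ
    have h7 : sB e n = (1 + e + 2 * padicValNat 2 ((3 * n).factorial / n.factorial)) + 1 := by
      unfold sB
      omega
    rw [map_mul, h7, pow_succ', mul_right_inj' h20]
  obtain ⟨μ, hμ, hu⟩ := h4
  exact ⟨μ, ⟨hμ.1, (h6 μ).1 hμ.2⟩, fun y hy => hu y ⟨hy.1, (h6 y).2 hy.2⟩⟩

end MT2
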