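import Mathlib

/-!
# Operators with pairs of equal valuations: the abstract lemma

As in `AOne`, but modulo the maximal ideal `L` is block diagonal with the blocks `(1, 0; 1, 1)`, and
`U` with the blocks `(1, 1; 0, 1)`, on the pairs `(2a, 2a + 1)`; `D i` is `2 ^ s i` times a unit congruent
to `1`; `s` takes one value on every pair, and different values on different pairs.
* `max_pair`: `T f = μ f`, `x = b.repr f`, `f ≠ 0`, `ρ = max v (x_j)`, attained at `n`, in the pair
  `(p, p + 1)`, `p = 2 * (n / 2)`. Let `S = 2 ^ s n`. Divide by an `x_n` with `v (x_n) = ρ` (or work with `ρ`): the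
  equations for `p` and `p + 1` (`2 μ * ∑_i L k i x_i = D k * ∑_j U k j x_j`) say, up to terms of valuation `< 1`
  (after the division), with `x_p`, `x_{p+1}` now of valuation `≤ 1`, not both `< 1`:
  `(2 μ / S) * (x_p + …) = (x_p + x_{p+1} + …)`, `(2 μ / S) * (x_p + x_{p+1} + …) = (x_{p+1} + …)`.
  The vectors `(x_p, x_p + x_{p+1})` and `(x_p + x_{p+1}, x_{p+1})` have maximum `1`, which gives
  `v (2 μ / S) = 1`: if `v (2 μ / S) > 1` the left sides would have maximum `> 1`, if `< 1` the right sides would have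
  maximum `< 1`. Let `θ = 2 μ / S`. Then `θ x_p ≡ x_p + x_{p+1}`, `θ (x_p + x_{p+1}) ≡ x_{p+1}` (difference of
  valuation `< 1`). If `v (x_p) < 1` then `v (x_{p+1}) < 1`, contradiction; so `v (x_p) = 1`, and
  `θ ^ 2 x_p ≡ θ x_p + θ x_{p+1} ≡ x_{p+1} ≡ (θ - 1) x_p`, so `(θ ^ 2 - θ + 1) x_p ≡ 0`, and `2 ≡ 0`:
  `θ ^ 2 + θ + 1 ≡ 0`.
* `finrank ≤ 1`: if `f`, `g` in the eigenspace, `f ≠ 0`, `n` a maximal index of `f`, `p = 2 * (n / 2)`; by
  `max_pair` `f_p ≠ 0` (even `v (f_p) = ρ`). `h = g - (g_p / f_p) f`, `h_p = 0`; if `h ≠ 0`, `n'` a maximal index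
  of `h`, then `v (2 μ) = v 2 ^ s n'`, so `n' / 2 = n / 2`, and `h_p ≠ 0` by `max_pair`, contradiction.
-/

namespace MT2

/-- The residue of `L`. -/
def L0 {d : ℕ} (i j : Fin d) : ℂ :=
  if i = j ∨ ((i : ℕ) % 2 = 1 ∧ (j : ℕ) + 1 = i) then 1 else 0

/-- The residue of `U`. -/
def U0 {d : ℕ} (i j : Fin d) : ℂ :=
  if i = j ∨ ((i : ℕ) % 2 = 0 ∧ (j : ℕ) = i + 1) then 1 else 0

/-- The normalised two by two system. -/
private theorem two_by_two {Γ : Type} [LinearOrderedCommGroupWithZero Γ] (v : Valuation ℂ Γ)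
    (hv : v 2 < 1) (θ a c e1 e2 e3 e4 : ℂ) (ha : v a ≤ 1) (hc : v c ≤ 1) (hac : v a = 1 ∨ v c = 1)
    (h1 : v e1 < 1) (h2 : v e2 < 1) (h3 : v e3 < 1) (h4 : v e4 < 1)
    (E1 : θ * (a + e1) = a + c + e3) (E2 : θ * (a + c + e2) = c + e4) :
    v θ = 1 ∧ v a = 1 ∧ v (θ ^ 2 + θ + 1) < 1 := by
  have hnot : ¬ (v a < 1 ∧ v c < 1) := by
    rintro ⟨h, h'⟩
    rcases hac with h'' | h''
    · rw [h''] at h; exact lt_irrefl _ h
    · rw [h''] at h'; exact lt_irrefl _ h'
  have hθ : v θ = 1 := by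
    rcases lt_trichotomy (v θ) 1 with hlt | heq | hgt
    · exfalso
      apply hnot
      have hae : v (a + e1) ≤ 1 := v.map_add_le ha h1.le
      have hace : v (a + c + e2) ≤ 1 := v.map_add_le (v.map_add_le ha hc) h2.le
      have q1 : v (a + c + e3) < 1 := by
        rw [← E1, map_mul]
        exact mul_lt_one_of_lt_of_le hlt hae
      have q2 : v (c + e4) < 1 := by
        rw [← E2, map_mul]
        exact mul_lt_one_of_lt_of_le hlt hace
      have q3 : v c < 1 := by
        have : c = (c + e4) - e4 := by ring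
        rw [this]; exact v.map_sub_lt q2 h4
      have q4 : v a < 1 := by
        have : a = (a + c + e3) - (c + e3) := by ring
        rw [this]; exact v.map_sub_lt q1 (v.map_add_lt q3 h3)
      exact ⟨q4, q3⟩
    · exact heq
    · exfalso
      apply hnot
      have key : ∀ y z : ℂ, θ * y = z → v z ≤ 1 → v y < 1 := by
        intro y z hyz hz
        by_contra hy
        push Not at hy
        have : 1 < v (θ * y) := by
          rw [map_mul]
          exact one_lt_mul_of_lt_of_le hgt hy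
        rw [hyz] at this
        exact absurd hz (not_le.mpr this)
      have q1 : v (a + e1) < 1 := key _ _ E1 (v.map_add_le (v.map_add_le ha hc) h3.le)
      have q2 : v (a + c + e2) < 1 := key _ _ E2 (v.map_add_le hc h4.le)
      have q3 : v a < 1 := by
        have : a = (a + e1) - e1 := by ring
        rw [this]; exact v.map_sub_lt q1 h1
      have q4 : v c < 1 := by
        have : c = (a + c + e2) - (a + e2) := by ring
        rw [this]; exact v.map_sub_lt q2 (v.map_add_lt q3 h2)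
      exact ⟨q3, q4⟩
  have hva : v a = 1 := by
    rcases lt_or_eq_of_le ha with hlt | heq
    · exfalso
      apply hnot
      refine ⟨hlt, ?_⟩
      have : c = θ * (a + e1) - (a + e3) := by rw [E1]; ring
      rw [this]
      apply v.map_sub_lt _ (v.map_add_lt hlt h3)
      rw [map_mul, hθ, one_mul]
      exact v.map_add_lt hlt h1
    · exact heq
  refine ⟨hθ, hva, ?_⟩
  have key : a * (θ ^ 2 - θ + 1) = e4 - θ * e2 - (θ - 1) * (θ * e1 - e3) := by
    have hc' : c = θ * (a + e1) - a - e3 := by rw [E1]; ring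
    have := E2
    rw [hc'] at this
    linear_combination this
  have hθ1 : v (θ - 1) ≤ 1 := v.map_sub_le hθ.le (by rw [map_one])
  have q1 : v (θ * e1 - e3) < 1 := by
    apply v.map_sub_lt _ h3
    rw [map_mul, hθ, one_mul]; exact h1
  have q2 : v (a * (θ ^ 2 - θ + 1)) < 1 := by
    rw [key]
    apply v.map_sub_lt
    · apply v.map_sub_lt h4
      rw [map_mul, hθ, one_mul]; exact h2
    · rw [map_mul, mul_comm]
      exact mul_lt_one_of_lt_of_le q1 hθ1
  rw [map_mul, hva, one_mul] at q2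
  have : θ ^ 2 + θ + 1 = (θ ^ 2 - θ + 1) + 2 * θ := by ring
  rw [this]
  apply v.map_add_lt q2
  rw [map_mul, hθ, mul_one]; exact hv

/-- The eigenvector equation in coordinates, multiplied by `L`. -/
private theorem eigen_eq {V : Type} [AddCommGroup V] [Module ℂ V] (T : Module.End ℂ V) {d : ℕ}
    (b : Module.Basis (Fin d) ℂ V) (L U : Fin d → Fin d → ℂ) (D : Fin d → ℂ)
    (h : ∀ n j, ∑ i, L n i * (2 * LinearMap.toMatrix b b T i j) = D n * U n j)
    (μ : ℂ) (f : V) (hf : T f = μ • f) (k : Fin d) :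
    2 * μ * ∑ i, L k i * b.repr f i = D k * ∑ j, U k j * b.repr f j := by
  have h1 : ∀ i, ∑ j, LinearMap.toMatrix b b T i j * b.repr f j = μ * b.repr f i := by
    intro i
    have := congrFun (LinearMap.toMatrix_mulVec_repr b b T f) i
    rw [hf, map_smul, Finsupp.smul_apply, smul_eq_mul] at this
    rw [← this]
    rfl
  calc 2 * μ * ∑ i, L k i * b.repr f i
      = ∑ i, L k i * (2 * (μ * b.repr f i)) := by
        rw [Finset.mul_sum]
        exact Finset.sum_congr rfl fun i _ => by ring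
    _ = ∑ i, ∑ j, L k i * (2 * LinearMap.toMatrix b b T i j) * b.repr f j := by
        refine Finset.sum_congr rfl fun i _ => ?_
        rw [← h1 i, Finset.mul_sum, Finset.mul_sum]
        exact Finset.sum_congr rfl fun j _ => by ring
    _ = ∑ j, (∑ i, L k i * (2 * LinearMap.toMatrix b b T i j)) * b.repr f j := by
        rw [Finset.sum_comm]
        exact Finset.sum_congr rfl fun j _ => by rw [Finset.sum_mul]
    _ = D k * ∑ j, U k j * b.repr f j := by
        rw [Finset.mul_sum]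
        refine Finset.sum_congr rfl fun j _ => ?_
        rw [h k j]; ring

theorem max_pair {Γ V : Type} [LinearOrderedCommGroupWithZero Γ] [AddCommGroup V] [Module ℂ V]
    (v : Valuation ℂ Γ) (hv : v 2 < 1) (T : Module.End ℂ V) {d : ℕ} (hd : d % 2 = 0)
    (b : Module.Basis (Fin d) ℂ V) (L U : Fin d → Fin d → ℂ) (D : Fin d → ℂ) (s : Fin d → ℕ)
    (hs : ∀ i j : Fin d, s i = s j ↔ (i : ℕ) / 2 = (j : ℕ) / 2)
    (hL : ∀ i j, v (L i j - L0 i j) < 1) (hU : ∀ i j, v (U i j - U0 i j) < 1)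
    (hD : ∀ i, v (D i / 2 ^ s i - 1) < 1)
    (h : ∀ n j, ∑ i, L n i * (2 * LinearMap.toMatrix b b T i j) = D n * U n j)
    (μ : ℂ) (f : V) (hf : T f = μ • f) (n : Fin d) (hn : ∀ j, v (b.repr f j) ≤ v (b.repr f n))
    (h0 : f ≠ 0) :
    (∀ p : Fin d, (p : ℕ) = 2 * ((n : ℕ) / 2) → b.repr f p ≠ 0) ∧ v (2 * μ) = v 2 ^ s n ∧
      v ((2 * μ / 2 ^ s n) ^ 2 + 2 * μ / 2 ^ s n + 1) < 1 := by
  classical
  have hxn : b.repr f n ≠ 0 := by
    intro hz
    apply h0
    apply b.repr.injective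
    ext j
    have := hn j
    rw [hz, map_zero, le_zero_iff, map_eq_zero] at this
    rw [this]; simp
  obtain ⟨x, hx⟩ : ∃ x : Fin d → ℂ, ∀ j, x j = b.repr f j / b.repr f n := ⟨_, fun _ => rfl⟩
  have hx1 : ∀ j, v (x j) ≤ 1 := by
    intro j
    rw [hx, map_div₀]
    exact div_le_one_of_le₀ (hn j) zero_le
  have hxnn : x n = 1 := by rw [hx, div_self hxn]
  -- the equations, divided
  have hE : ∀ k, 2 * μ * ∑ i, L k i * x i = D k * ∑ j, U k j * x j := by
    intro k
    have := eigen_eq T b L U D h μ f hf k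
    have e1 : ∀ M : Fin d → Fin d → ℂ, ∑ i, M k i * x i = (∑ i, M k i * b.repr f i) / b.repr f n := by
      intro M
      rw [Finset.sum_div]
      exact Finset.sum_congr rfl fun i _ => by rw [hx]; ring
    rw [e1 L, e1 U, mul_div_assoc', mul_div_assoc', this]
  obtain ⟨θ, hθ⟩ : ∃ θ : ℂ, θ = 2 * μ / 2 ^ s n := ⟨_, rfl⟩
  have h2 : (2 : ℂ) ^ s n ≠ 0 := pow_ne_zero _ two_ne_zero
  have hμ : 2 * μ = θ * 2 ^ s n := by rw [hθ, div_mul_cancel₀ _ h2]
  -- the error terms
  have herr : ∀ (M M0 : Fin d → Fin d → ℂ), (∀ i j, v (M i j - M0 i j) < 1) → ∀ k : Fin d,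
      v (∑ i, (M k i - M0 k i) * x i) < 1 := by
    intro M M0 hM k
    apply v.map_sum_lt one_ne_zero
    intro i _
    rw [map_mul]
    exact mul_lt_one_of_lt_of_le (hM k i) (hx1 i)
  have hdec : ∀ (M M0 : Fin d → Fin d → ℂ) (k : Fin d), ∑ i, M k i * x i =
      ∑ i, M0 k i * x i + ∑ i, (M k i - M0 k i) * x i := by
    intro M M0 k
    rw [← Finset.sum_add_distrib]
    exact Finset.sum_congr rfl fun i _ => by ring
  -- the equation for an index in the pair
  have hk : ∀ k : Fin d, (k : ℕ) / 2 = (n : ℕ) / 2 → ∃ e e' : ℂ, v e < 1 ∧ v e' < 1 ∧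
      θ * (∑ i, L0 k i * x i + e) = ∑ j, U0 k j * x j + e' := by
    intro k hkn
    have hsk : s k = s n := (hs k n).mpr hkn
    have hDk := hD k
    rw [hsk] at hDk
    have hU0 : v (∑ j, U0 k j * x j) ≤ 1 := by
      apply v.map_sum_le
      intro j _
      rw [map_mul]
      apply mul_le_one' _ (hx1 j)
      unfold U0
      split_ifs
      · rw [map_one]
      · rw [map_zero]; exact zero_le
    refine ⟨_, (D k / 2 ^ s n - 1) * ∑ j, U0 k j * x j + D k / 2 ^ s n *
      ∑ i, (U k i - U0 k i) * x i, herr L L0 hL k, ?_, ?_⟩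
    · apply v.map_add_lt
      · rw [map_mul]
        exact mul_lt_one_of_lt_of_le hDk hU0
      · rw [map_mul, mul_comm]
        apply mul_lt_one_of_lt_of_le (herr U U0 hU k)
        have : D k / 2 ^ s n = (D k / 2 ^ s n - 1) + 1 := by ring
        rw [this]
        exact v.map_add_le hDk.le (by rw [map_one])
    · have e := hE k
      rw [hdec L L0 k, hdec U U0 k, hμ] at e
      have e' : θ * (∑ i, L0 k i * x i + ∑ i, (L k i - L0 k i) * x i) =
          D k / 2 ^ s n * (∑ j, U0 k j * x j + ∑ i, (U k i - U0 k i) * x i) := by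
        field_simp
        linear_combination e
      rw [e']
      ring
  -- the pair
  have hp : 2 * ((n : ℕ) / 2) < d := by have := n.2; omega
  have hq : 2 * ((n : ℕ) / 2) + 1 < d := by have := n.2; omega
  obtain ⟨p, hpv⟩ : ∃ p : Fin d, (p : ℕ) = 2 * ((n : ℕ) / 2) := ⟨⟨_, hp⟩, rfl⟩
  obtain ⟨q, hqv⟩ : ∃ q : Fin d, (q : ℕ) = 2 * ((n : ℕ) / 2) + 1 := ⟨⟨_, hq⟩, rfl⟩
  have hpq : p ≠ q := by intro hh; rw [hh] at hpv; omega
  have sLp : ∑ i, L0 p i * x i = x p := by
    rw [Finset.sum_eq_single p]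
    · simp [L0]
    · intro i _ hi
      have : ¬ (p = i ∨ ((p : ℕ) % 2 = 1 ∧ (i : ℕ) + 1 = p)) := by
        rintro (hh | ⟨hh, _⟩)
        · exact hi hh.symm
        · omega
      rw [L0, if_neg this, zero_mul]
    · intro hh; exact absurd (Finset.mem_univ _) hh
  have sUq : ∑ i, U0 q i * x i = x q := by
    rw [Finset.sum_eq_single q]
    · simp [U0]
    · intro i _ hi
      have : ¬ (q = i ∨ ((q : ℕ) % 2 = 0 ∧ (i : ℕ) = q + 1)) := by
        rintro (hh | ⟨hh, _⟩)
        · exact hi hh.symm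
        · omega
      rw [U0, if_neg this, zero_mul]
    · intro hh; exact absurd (Finset.mem_univ _) hh
  have sLq : ∑ i, L0 q i * x i = x p + x q := by
    rw [← Finset.sum_subset (Finset.subset_univ {p, q})]
    · rw [Finset.sum_pair hpq]
      have h1 : L0 q p = 1 := by
        rw [L0, if_pos]; right; omega
      have h2 : L0 q q = 1 := by
        rw [L0, if_pos]; left; rfl
      rw [h1, h2]; ring
    · intro i _ hi
      have : ¬ (q = i ∨ ((q : ℕ) % 2 = 1 ∧ (i : ℕ) + 1 = q)) := by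
        rintro (hh | ⟨_, hh⟩)
        · apply hi; simp [hh]
        · apply hi
          have : i = p := Fin.ext (by omega)
          simp [this]
      rw [L0, if_neg this, zero_mul]
  have sUp : ∑ i, U0 p i * x i = x p + x q := by
    rw [← Finset.sum_subset (Finset.subset_univ {p, q})]
    · rw [Finset.sum_pair hpq]
      have h1 : U0 p p = 1 := by
        rw [U0, if_pos]; left; rfl
      have h2 : U0 p q = 1 := by
        rw [U0, if_pos]; right; omega
      rw [h1, h2]; ring
    · intro i _ hi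
      have : ¬ (p = i ∨ ((p : ℕ) % 2 = 0 ∧ (i : ℕ) = p + 1)) := by
        rintro (hh | ⟨_, hh⟩)
        · apply hi; simp [hh]
        · apply hi
          have : i = q := Fin.ext (by omega)
          simp [this]
      rw [U0, if_neg this, zero_mul]
  obtain ⟨e1, e3, he1, he3, E1⟩ := hk p (by omega)
  obtain ⟨e2, e4, he2, he4, E2⟩ := hk q (by omega)
  rw [sLp, sUp] at E1
  rw [sLq, sUq] at E2
  have hac : v (x p) = 1 ∨ v (x q) = 1 := by
    have : n = p ∨ n = q := by
      rcases Nat.even_or_odd' (n : ℕ) with ⟨m, hm | hm⟩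
      · left; exact Fin.ext (by omega)
      · right; exact Fin.ext (by omega)
    rcases this with hh | hh
    · left; rw [← hh, hxnn, map_one]
    · right; rw [← hh, hxnn, map_one]
  obtain ⟨r1, r2, r3⟩ := two_by_two v hv θ (x p) (x q) e1 e2 e3 e4 (hx1 p) (hx1 q) hac he1 he2 he3
    he4 E1 E2
  refine ⟨?_, ?_, ?_⟩
  · intro p' hp' hz
    have : p' = p := Fin.ext (by rw [hp', hpv])
    rw [this] at hz
    rw [hx, hz, zero_div, map_zero] at r2
    exact zero_ne_one r2
  · rw [hμ, map_mul, map_pow, r1, one_mul]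
  · rw [← hθ]; exact r3

/-- An index of maximal valuation. -/
private theorem exists_max {Γ V : Type} [LinearOrderedCommGroupWithZero Γ] [AddCommGroup V]
    [Module ℂ V] (v : Valuation ℂ Γ) {d : ℕ} (b : Module.Basis (Fin d) ℂ V) (f : V) (h0 : f ≠ 0) :
    ∃ n, ∀ j, v (b.repr f j) ≤ v (b.repr f n) := by
  have hne : Nonempty (Fin d) := by
    by_contra hh
    rw [not_nonempty_iff] at hh
    apply h0
    apply b.repr.injective
    ext j
    exact hh.elim j
  exact Finite.exists_max fun j => v (b.repr f j)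

theorem abs_pair {Γ V : Type} [LinearOrderedCommGroupWithZero Γ] [AddCommGroup V] [Module ℂ V]
    (v : Valuation ℂ Γ) (hv : v 2 < 1) (T : Module.End ℂ V) {d : ℕ} (hd : d % 2 = 0)
    (b : Module.Basis (Fin d) ℂ V) (L U : Fin d → Fin d → ℂ) (D : Fin d → ℂ) (s : Fin d → ℕ)
    (hs : ∀ i j : Fin d, s i = s j ↔ (i : ℕ) / 2 = (j : ℕ) / 2)
    (hL : ∀ i j, v (L i j - L0 i j) < 1) (hU : ∀ i j, v (U i j - U0 i j) < 1)
    (hD : ∀ i, v (D i / 2 ^ s i - 1) < 1)
    (h : ∀ n j, ∑ i, L n i * (2 * LinearMap.toMatrix b b T i j) = D n * U n j) :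
    (∀ μ, Module.finrank ℂ (T.eigenspace μ) ≤ 1) ∧
      ∀ μ, T.HasEigenvalue μ → ∃ n : Fin d, v (2 * μ) = v 2 ^ s n ∧
        v ((2 * μ / 2 ^ s n) ^ 2 + 2 * μ / 2 ^ s n + 1) < 1 := by
  have h20 : 0 < v 2 := by
    rw [zero_lt_iff, Ne, map_eq_zero]; exact two_ne_zero
  constructor
  · intro μ
    by_cases hex : ∃ f ∈ T.eigenspace μ, f ≠ 0
    · obtain ⟨f, hf, h0⟩ := hex
      have hTf : T f = μ • f := Module.End.mem_eigenspace_iff.mp hf
      obtain ⟨n, hn⟩ := exists_max v b f h0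
      obtain ⟨m1, m2, m3⟩ := max_pair v hv T hd b L U D s hs hL hU hD h μ f hTf n hn h0
      have hp : 2 * ((n : ℕ) / 2) < d := by have := n.2; omega
      obtain ⟨p, hpv⟩ : ∃ p : Fin d, (p : ℕ) = 2 * ((n : ℕ) / 2) := ⟨⟨_, hp⟩, rfl⟩
      have hfp := m1 p hpv
      apply finrank_le_one (⟨f, hf⟩ : T.eigenspace μ)
      rintro ⟨g, hg⟩
      have hTg : T g = μ • g := Module.End.mem_eigenspace_iff.mp hg
      refine ⟨b.repr g p / b.repr f p, ?_⟩
      apply Subtype.ext
      change (b.repr g p / b.repr f p) • f = g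
      by_contra hne
      have hh0 : g - (b.repr g p / b.repr f p) • f ≠ 0 := fun hh => hne (sub_eq_zero.mp hh).symm
      have hTh : T (g - (b.repr g p / b.repr f p) • f) = μ • (g - (b.repr g p / b.repr f p) • f) := by
        rw [map_sub, map_smul, hTf, hTg, smul_sub, smul_comm]
      obtain ⟨n', hn'⟩ := exists_max v b _ hh0
      obtain ⟨k1, k2, k3⟩ := max_pair v hv T hd b L U D s hs hL hU hD h μ _ hTh n' hn' hh0
      have hss : s n' = s n := by
        have : v 2 ^ s n' = v 2 ^ s n := by rw [← k2, ← m2]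
        exact pow_right_injective₀ h20 hv.ne this
      have hnn : (n' : ℕ) / 2 = (n : ℕ) / 2 := (hs n' n).mp hss
      apply k1 p (by rw [hpv, hnn])
      rw [map_sub, map_smul, Finsupp.sub_apply, Finsupp.smul_apply, smul_eq_mul,
        div_mul_cancel₀ _ hfp, sub_self]
    · push Not at hex
      have : T.eigenspace μ = ⊥ := by
        rw [Submodule.eq_bot_iff]; exact hex
      rw [this, finrank_bot]
      exact Nat.zero_le 1
  · intro μ hμ
    obtain ⟨f, hf⟩ := hμ.exists_hasEigenvector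
    obtain ⟨n, hn⟩ := exists_max v b f hf.2
    obtain ⟨m1, m2, m3⟩ := max_pair v hv T hd b L U D s hs hL hU hD h μ f hf.apply_eq_smul n hn hf.2
    exact ⟨n, m2, m3⟩

end MT2
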