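import Pool.Agent.Lib_MP_bfd926_sq.SMain

/-!
# Rational subspaces
-/

open UpperHalfPlane PowerSeries
open scoped MatrixGroups ModularForm

namespace MT2

/-- The structure of a rational vector space on the space of cusp forms. -/
@[reducible] noncomputable def ratModule (k : ℕ) : Module ℚ (CuspForm 𝒮ℒ (k : ℤ)) :=
  Module.compHom (CuspForm 𝒮ℒ (k : ℤ)) (algebraMap ℚ ℂ)

private theorem ARat_zero (k : ℤ) (f : CuspForm 𝒮ℒ k) (h : qExpansion 1 f = 0) : f = 0 := by
  have h1 : CuspForm.toModularFormₗ f = 0 :=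
    (ModularForm.qExpansion_eq_zero_iff one_pos one_mem_strictPeriods_SL
      (CuspForm.toModularFormₗ f)).1 h
  ext z
  have h2 := DFunLike.congr_fun h1 z
  exact h2

/-- The `n`-th coefficient as a linear map. -/
private noncomputable def ARat_co (k : ℤ) (n : ℕ) : CuspForm 𝒮ℒ k →ₗ[ℂ] ℂ where
  toFun f := coeff n (qExpansion 1 f)
  map_add' f g := by
    have h1 : qExpansion 1 (⇑(f + g) : ℍ → ℂ) = qExpansion 1 f + qExpansion 1 g :=
      ModularForm.qExpansion_add one_pos one_mem_strictPeriods_SL f g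
    rw [h1, map_add]
  map_smul' a f := by
    have h1 : qExpansion 1 (⇑(a • f) : ℍ → ℂ) = a • qExpansion 1 f :=
      ModularForm.qExpansion_smul one_pos one_mem_strictPeriods_SL a f
    rw [h1, map_smul, RingHom.id_apply]

/-- Rational forms which are linearly independent over `ℚ` are linearly independent over `ℂ`. -/
theorem indep_rat (k : ℕ) {ι : Type} (f : ι → CuspForm 𝒮ℒ (k : ℤ))
    (hq : ∀ i n, ∃ q : ℚ, coeff n (qExpansion 1 (f i)) = (q : ℂ))
    (hf : letI := ratModule k; LinearIndependent ℚ f) : LinearIndependent ℂ f := by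
  classical
  letI := ratModule k
  rw [linearIndependent_iff'] at hf ⊢
  intro s c hc i hi
  rw [← Module.forall_dual_apply_eq_zero_iff ℚ (c i)]
  intro φ
  refine hf s (fun j => φ (c j)) ?_ i hi
  apply ARat_zero
  ext n
  have h1 := congrArg (ARat_co (k : ℤ) n) hc
  rw [map_sum, map_zero] at h1
  have h2 : ∀ j, ∃ q : ℚ, coeff n (qExpansion 1 (f j)) = (q : ℂ) := fun j => hq j n
  choose q hq' using h2
  have h3 : ∑ j ∈ s, c j * (q j : ℂ) = 0 := by
    rw [← h1]
    refine Finset.sum_congr rfl fun j _ => ?_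
    rw [map_smul, smul_eq_mul]
    show c j * (q j : ℂ) = c j * coeff n (qExpansion 1 (f j))
    rw [hq']
  have h4 : ∑ j ∈ s, φ (c j) * q j = 0 := by
    have h5 := congrArg φ h3
    rw [map_sum, map_zero] at h5
    rw [← h5]
    refine Finset.sum_congr rfl fun j _ => ?_
    have h6 : c j * (q j : ℂ) = (q j) • c j := by
      rw [Rat.smul_def, mul_comm]
    rw [h6, map_smul, smul_eq_mul, mul_comm]
  show ARat_co (k : ℤ) n (∑ j ∈ s, φ (c j) • f j) = 0
  rw [map_sum]
  have h7 : ∀ j ∈ s, ARat_co (k : ℤ) n (φ (c j) • f j) = ((φ (c j) * q j : ℚ) : ℂ) := by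
    intro j _
    have h8 : (φ (c j) • f j : CuspForm 𝒮ℒ (k : ℤ)) = ((φ (c j) : ℚ) : ℂ) • f j := rfl
    rw [h8, map_smul, smul_eq_mul]
    push_cast
    congr 1
    exact hq' j
  rw [Finset.sum_congr rfl h7, ← Rat.cast_sum, h4, Rat.cast_zero]

theorem rat_even (k : ℕ) [FiniteDimensional ℂ (CuspForm 𝒮ℒ (k : ℤ))]
    (T : Module.End ℂ (CuspForm 𝒮ℒ (k : ℤ)))
    (hT : ∀ Q : Polynomial ℚ, Q ≠ 0 →
      (∀ μ : ℂ, Polynomial.aeval μ Q = 0 → T.HasEigenvalue μ) → Even Q.natDegree) :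
    letI := ratModule k
    ∀ W : Submodule ℚ (CuspForm 𝒮ℒ (k : ℤ)),
      (∀ f ∈ W, ∀ n, ∃ q : ℚ, coeff n (qExpansion 1 f) = (q : ℂ)) → (∀ f ∈ W, T f ∈ W) →
        Even (Module.finrank ℚ W) := by
  classical
  letI := ratModule k
  intro W hW hTW
  let b := Module.Free.chooseBasis ℚ W
  have hind : LinearIndependent ℚ fun i => (b i : CuspForm 𝒮ℒ (k : ℤ)) :=
    b.linearIndependent.map' W.subtype (Submodule.ker_subtype W)
  have hC : LinearIndependent ℂ fun i => (b i : CuspForm 𝒮ℒ (k : ℤ)) :=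
    indep_rat k _ (fun i n => hW _ (b i).2 n) hind
  haveI hfin : Finite (Module.Free.ChooseBasisIndex ℚ W) := hC.finite
  haveI : Fintype (Module.Free.ChooseBasisIndex ℚ W) := Fintype.ofFinite _
  -- the matrix of the restriction
  let a : Matrix (Module.Free.ChooseBasisIndex ℚ W) (Module.Free.ChooseBasisIndex ℚ W) ℚ :=
    fun i j => b.repr ⟨T (b j), hTW _ (b j).2⟩ i
  have ha : ∀ j, T (b j : CuspForm 𝒮ℒ (k : ℤ)) =
      ∑ i, ((a i j : ℚ) : ℂ) • (b i : CuspForm 𝒮ℒ (k : ℤ)) := by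
    intro j
    have h1 := b.sum_repr ⟨T (b j), hTW _ (b j).2⟩
    have h2 := congrArg (W.subtype) h1
    rw [map_sum] at h2
    exact h2.symm
  have hdeg : a.charpoly.natDegree = Module.finrank ℚ W := by
    rw [Matrix.charpoly_natDegree_eq_dim, Module.finrank_eq_card_basis b]
  rw [← hdeg]
  refine hT a.charpoly (Matrix.charpoly_monic a).ne_zero fun μ hμ => ?_
  -- an eigenvector of the matrix
  have h1 : (Matrix.scalar _ μ - a.map (algebraMap ℚ ℂ)).det = 0 := by
    rw [← Matrix.eval_charpoly, Matrix.charpoly_map, Polynomial.eval_map_algebraMap]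
    exact hμ
  obtain ⟨c, hc0, hc⟩ := Matrix.exists_mulVec_eq_zero_iff.2 h1
  have h2 : ∀ i, ∑ j, ((a i j : ℚ) : ℂ) * c j = μ * c i := by
    intro i
    have h3 := congrFun hc i
    rw [Matrix.sub_mulVec] at h3
    simp only [Matrix.scalar_apply, Pi.sub_apply, Matrix.mulVec_diagonal, Pi.zero_apply] at h3
    have h4 : (a.map (algebraMap ℚ ℂ)).mulVec c i = ∑ j, ((a i j : ℚ) : ℂ) * c j := rfl
    rw [h4] at h3
    exact (sub_eq_zero.1 h3).symm
  refine Module.End.hasEigenvalue_of_hasEigenvector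
    (x := ∑ j, c j • (b j : CuspForm 𝒮ℒ (k : ℤ))) ⟨?_, ?_⟩
  · rw [Module.End.mem_eigenspace_iff, map_sum]
    have h3 : ∀ j, T (c j • (b j : CuspForm 𝒮ℒ (k : ℤ))) =
        ∑ i, (((a i j : ℚ) : ℂ) * c j) • (b i : CuspForm 𝒮ℒ (k : ℤ)) := by
      intro j
      rw [map_smul, ha, Finset.smul_sum]
      refine Finset.sum_congr rfl fun i _ => ?_
      rw [smul_smul, mul_comm]
    rw [Finset.sum_congr rfl fun j _ => h3 j, Finset.sum_comm, Finset.smul_sum]
    refine Finset.sum_congr rfl fun i _ => ?_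
    rw [← Finset.sum_smul, h2, smul_smul]
  · intro h3
    apply hc0
    funext j
    exact (Fintype.linearIndependent_iff.1 hC) c h3 j

end MT2
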