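import Pool.Agent.Lib_MP_bfd926_ab.AFinB
import Pool.Agent.Lib_MP_bfd926_ab.APair
import Pool.Agent.Lib_MP_bfd926_ab.AEven
import Pool.Agent.Lib_MP_bfd926_ab.ARat

/-!
# Weights `2 ^ m - 2`
-/

open UpperHalfPlane PowerSeries
open scoped MatrixGroups ModularForm

namespace MT2

/-- The exponents. -/
def sC (n : ℕ) : ℕ := 1 + 2 * padicValNat 2 ((3 * n + 1).factorial / n.factorial)

theorem sC_le {n : ℕ} (h1 : 1 ≤ n) : sC n ≤ 6 * n + 1 := by
  have := s_near_le h1
  unfold sC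
  omega

theorem sC_mono {a b : ℕ} (h : a < b) : sC (2 * a + 1) < sC (2 * b + 1) := by
  induction b with
  | zero => omega
  | succ b ih =>
    have h1 := s_near_eq (n := 2 * b + 1) (by omega)
    have h2 := s_near_lt (n := 2 * b + 2) (by omega)
    have h3 : sC (2 * b + 1) < sC (2 * (b + 1) + 1) := by
      unfold sC
      have e1 : 2 * b + 1 + 1 = 2 * b + 2 := by ring
      have e2 : 2 * b + 2 + 1 = 2 * (b + 1) + 1 := by ring
      rw [e1] at h1
      rw [e2] at h2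
      omega
    rcases Nat.lt_succ_iff_lt_or_eq.1 h with h4 | h4
    · exact (ih h4).trans h3
    · rw [h4]
      exact h3

theorem sC_pair (n : ℕ) : sC (n + 1) = sC (2 * (n / 2) + 1) := by
  rcases Nat.even_or_odd' n with ⟨a, h | h⟩
  · subst h
    have h1 : 2 * a / 2 = a := by omega
    rw [h1]
  · subst h
    have h1 : (2 * a + 1) / 2 = a := by omega
    rw [h1]
    unfold sC
    rw [s_near_eq (n := 2 * a + 1) (by omega)]

theorem sC_iff (i j : ℕ) : sC (i + 1) = sC (j + 1) ↔ i / 2 = j / 2 := by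
  rw [sC_pair i, sC_pair j]
  constructor
  · intro h
    rcases lt_trichotomy (i / 2) (j / 2) with h1 | h1 | h1
    · have := sC_mono h1
      omega
    · exact h1
    · have := sC_mono h1
      omega
  · intro h
    rw [h]

theorem dim_even (r : ℕ) : ((2 ^ r - 1 - 1) / 3) % 2 = 0 := by
  rcases Nat.eq_zero_or_pos r with h | h
  · subst h
    simp
  · have h1 : 2 ^ r % 6 = 2 ∨ 2 ^ r % 6 = 4 := by
      induction r with
      | zero => omega
      | succ r ih =>
        rcases Nat.eq_zero_or_pos r with h2 | h2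
        · subst h2
          simp
        · rcases ih h2 with h3 | h3
          · right
            rw [pow_succ]
            omega
          · left
            rw [pow_succ]
            omega
    omega

theorem thmC_val {Γ : Type} [LinearOrderedCommGroupWithZero Γ] (v : Valuation ℂ Γ) (hv : v 2 < 1)
    (r : ℕ) (hr : 1 ≤ r)
    (T : Module.End ℂ (CuspForm 𝒮ℒ ((4 * (2 ^ r - 1) + 2 * 1 : ℕ) : ℤ)))
    (hT : ∀ f, qExpansion 1 (T f) =
      uu (qExpansion 1 f) + C ((2 : ℂ) ^ (4 * (2 ^ r - 1) + 2 * 1) / 2) * dbl (qExpansion 1 f)) :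
    Module.finrank ℂ (CuspForm 𝒮ℒ ((4 * (2 ^ r - 1) + 2 * 1 : ℕ) : ℤ)) = (2 ^ r - 1 - 1) / 3 ∧
    (∀ μ, Module.finrank ℂ (T.eigenspace μ) ≤ 1) ∧
      ∀ μ, T.HasEigenvalue μ → ∃ n : Fin ((2 ^ r - 1 - 1) / 3), v (2 * μ) = v 2 ^ sC (n + 1) ∧
        v ((2 * μ / 2 ^ sC (n + 1)) ^ 2 + 2 * μ / 2 ^ sC (n + 1) + 1) < 1 := by
  have h2r : 2 ≤ 2 ^ r := by
    calc 2 = 2 ^ 1 := (pow_one 2).symm
      _ ≤ 2 ^ r := Nat.pow_le_pow_right (by norm_num) hr
  have hwr : (2 ^ r - 1) + 1 = 2 ^ r := by omega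
  have hn3 : ∀ n, n ≤ (2 ^ r - 1 - 1) / 3 → 3 * n + 1 ≤ 2 ^ r - 1 := fun n hn => by omega
  have hQL : ∀ n t, 1 ≤ t → t < n → n ≤ (2 ^ r - 1 - 1) / 3 →
      padicNorm 2 (qL 1 (2 ^ r - 1) n (n - t)) ≤ 4 ^ t := by
    intro n t h1 ht hn
    by_cases h : t = 1 ∧ n % 2 = 0
    · obtain ⟨rfl, h⟩ := h
      rw [qL_near_unit hwr (hn3 n hn) (by omega) h]
      norm_num
    · have h2 := qL_near hwr (hn3 n hn) h1 ht h
      have h3 : 0 ≤ padicNorm 2 (qL 1 (2 ^ r - 1) n (n - t)) := padicNorm.nonneg _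
      linarith
  have hQU : ∀ n t, 1 ≤ t → t ≤ n → n ≤ (2 ^ r - 1 - 1) / 3 →
      padicNorm 2 (qU 1 (2 ^ r - 1) n (n + t)) ≤ 4 ^ t := by
    intro n t h1 ht hn
    by_cases h : t = 1 ∧ n % 2 = 1
    · obtain ⟨rfl, h⟩ := h
      rw [qU_near_unit hwr (hn3 n hn) (by omega) h]
      norm_num
    · have h2 := qU_near hwr (hn3 n hn) h1 ht h
      have h3 : 0 ≤ padicNorm 2 (qU 1 (2 ^ r - 1) n (n + t)) := padicNorm.nonneg _
      linarith
  obtain ⟨b, Z, hZ, heq⟩ := row_eq v hv 1 (2 ^ r - 1) le_rfl (by omega) T hT sC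
    (fun n h1 hn => dE_near hwr (hn3 n hn) h1) (fun n h1 _ => sC_le h1) hQL hQU
  -- a rational number of norm `4` times `4` is congruent to `1`
  have hunit : ∀ q : ℚ, padicNorm 2 q = 4 → v ((4 : ℂ) ^ 1 * (q : ℂ) - 1) ≤ v 2 := by
    intro q hq
    have hq0 : q ≠ 0 := by
      rintro rfl
      rw [padicNorm.zero] at hq
      norm_num at hq
    have h1 : padicValRat 2 (4 * q) = ((0 : ℕ) : ℤ) := by
      have h2 : padicNorm 2 (4 * q) = 1 := by
        rw [padicNorm.mul, hq]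
        have h4 : padicNorm 2 (4 : ℚ) = 1 / 4 := by
          have h5 : (4 : ℚ) = 2 * 2 := by norm_num
          have h6 : padicNorm 2 (2 : ℚ) = 1 / 2 := by
            have := padicNorm.padicNorm_p (p := 2) (by norm_num)
            rw [one_div]
            exact_mod_cast this
          rw [h5, padicNorm.mul, h6]
          norm_num
        rw [h4]
        norm_num
      rw [padicNorm.eq_zpow_of_nonzero (mul_ne_zero (by norm_num) hq0)] at h2
      have h3 : (2 : ℚ) ^ (-padicValRat 2 (4 * q)) = 2 ^ (0 : ℤ) := by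
        rw [zpow_zero]
        exact_mod_cast h2
      have h4 := zpow_right_injective₀ (by norm_num : (0 : ℚ) < 2) (by norm_num) h3
      push_cast
      linarith
    have h5 := (val_rat_eq v hv (4 * q) (mul_ne_zero (by norm_num) hq0) 0 h1).2
    rw [pow_zero, div_one] at h5
    rw [pow_one]
    push_cast at h5
    exact h5
  refine ⟨by rw [Module.finrank_eq_card_basis b, Fintype.card_fin], ?_⟩
  refine abs_pair v hv T (dim_even r) b _ _ _ (fun n => sC ((n : ℕ) + 1))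
    (fun i j => sC_iff i j) ?_ ?_ ?_ heq
  · intro i j
    have hi := i.2
    have hj := j.2
    rcases lt_trichotomy j i with h | h | h
    · have hlt : (j : ℕ) < (i : ℕ) := h
      rw [if_pos h.le]
      obtain ⟨t, ht⟩ : ∃ t, (i : ℕ) = j + t := ⟨i - j, by omega⟩
      have h3 : (i : ℕ) + 1 - t = (j : ℕ) + 1 := by omega
      have h4 : (i : ℕ) - (j : ℕ) = t := by omega
      rw [h4]
      by_cases hc : t = 1 ∧ ((i : ℕ) + 1) % 2 = 0
      · obtain ⟨rfl, hc⟩ := hc
        have h5 : L0 i j = 1 := by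
          unfold L0
          rw [if_pos (Or.inr ⟨by omega, by omega⟩)]
        have h6 := qL_near_unit (r := r) (n := (i : ℕ) + 1) hwr (hn3 _ (by omega)) (by omega) hc
        rw [h3] at h6
        rw [h5]
        exact (hunit _ h6).trans_lt hv
      · have h5 : L0 i j = 0 := by
          unfold L0
          rw [if_neg]
          rintro (h6 | ⟨h6, h7⟩)
          · exact absurd h6 (ne_of_gt h)
          · exact hc ⟨by omega, by omega⟩
        have h2 := qL_near (r := r) (n := (i : ℕ) + 1) (t := t) hwr (hn3 _ (by omega)) (by omega)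
          (by omega) hc
        rw [h3] at h2
        rw [h5, sub_zero]
        exact (scaled_le v hv _ t h2).trans_lt hv
    · subst h
      rw [if_pos le_rfl, Nat.sub_self, pow_zero, qL_self le_rfl (hn3 _ (by omega)) (by omega)]
      unfold L0
      rw [if_pos (Or.inl rfl)]
      simp
    · rw [if_neg (not_le.2 h)]
      have hlt : (i : ℕ) < (j : ℕ) := h
      unfold L0
      rw [if_neg]
      · simp
      · rintro (h6 | ⟨h6, h7⟩)
        · exact absurd h6 (ne_of_lt h)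
        · omega
  · intro i j
    have hi := i.2
    have hj := j.2
    rcases lt_trichotomy i j with h | h | h
    · have hlt : (i : ℕ) < (j : ℕ) := h
      rw [if_pos h.le]
      obtain ⟨t, ht⟩ : ∃ t, (j : ℕ) = i + t := ⟨j - i, by omega⟩
      have h4 : (j : ℕ) - (i : ℕ) = t := by omega
      have h3 : (i : ℕ) + 1 + t = (j : ℕ) + 1 := by omega
      rw [h4]
      by_cases hc : t = 1 ∧ ((i : ℕ) + 1) % 2 = 1
      · obtain ⟨rfl, hc⟩ := hc
        have h5 : U0 i j = 1 := by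
          unfold U0
          rw [if_pos (Or.inr ⟨by omega, by omega⟩)]
        have h6 := qU_near_unit (r := r) (n := (i : ℕ) + 1) hwr (hn3 _ (by omega)) (by omega) hc
        rw [h3] at h6
        rw [h5, add_sub_right_comm]
        exact lt_of_le_of_lt (v.map_add_le (hunit _ h6) (hZ i j)) hv
      · have h5 : U0 i j = 0 := by
          unfold U0
          rw [if_neg]
          rintro (h6 | ⟨h6, h7⟩)
          · exact absurd h6 (ne_of_lt h)
          · exact hc ⟨by omega, by omega⟩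
        rw [h5, sub_zero]
        have h5 : v ((4 : ℂ) ^ t * ((qU 1 (2 ^ r - 1) ((i : ℕ) + 1) ((j : ℕ) + 1) : ℚ) : ℂ)) ≤
            v 2 := by
          rcases le_or_gt t ((i : ℕ) + 1) with h6 | h6
          · have h2 := qU_near (r := r) (n := (i : ℕ) + 1) (t := t) hwr
              (hn3 _ (by omega)) (by omega) h6 hc
            rw [h3] at h2
            exact scaled_le v hv _ t h2
          · have h7 : qU 1 (2 ^ r - 1) ((i : ℕ) + 1) ((j : ℕ) + 1) = 0 := by
              unfold qU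
              rw [row_zero le_rfl (by omega), zero_div]
            rw [h7]
            simp
        exact lt_of_le_of_lt (v.map_add_le h5 (hZ i j)) hv
    · subst h
      rw [if_pos le_rfl, Nat.sub_self, pow_zero, qU_self le_rfl (hn3 _ (by omega)) (by omega)]
      unfold U0
      rw [if_pos (Or.inl rfl)]
      have := hZ i i
      simp only [Rat.cast_one, mul_one, add_sub_cancel_left]
      exact lt_of_le_of_lt this hv
    · rw [if_neg (not_le.2 h), zero_add]
      have hlt : (j : ℕ) < (i : ℕ) := h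
      unfold U0
      rw [if_neg]
      · rw [sub_zero]
        exact lt_of_le_of_lt (hZ i j) hv
      · rintro (h6 | ⟨h6, h7⟩)
        · exact absurd h6 (ne_of_gt h)
        · omega
  · intro i
    have hi := i.2
    refine lt_of_le_of_lt
      (val_rat_eq v hv _ ?_ _ (dE_near hwr (hn3 _ (by omega)) (by omega))).2 hv
    exact mul_ne_zero (pow_ne_zero _ (by norm_num)) (dE_ne le_rfl (hn3 _ (by omega)) (by omega))

theorem thmC (m k : ℕ) (hm : 3 ≤ m) (hk : k + 2 = 2 ^ m) :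
    ∃ (_ : FiniteDimensional ℂ (CuspForm 𝒮ℒ (k : ℤ))) (T : Module.End ℂ (CuspForm 𝒮ℒ (k : ℤ))),
      (∀ (f : CuspForm 𝒮ℒ (k : ℤ)) (z : ℍ),
        T f z = 2 ^ ((k : ℤ) - 1) * f (ofComplex (2 * z)) +
          (f (ofComplex (z / 2)) + f (ofComplex ((z + 1) / 2))) / 2) ∧
      {μ : ℂ | T.HasEigenvalue μ}.ncard = Module.finrank ℂ (CuspForm 𝒮ℒ (k : ℤ)) ∧
      (∀ Q : Polynomial ℚ, Q.map (algebraMap ℚ ℂ) ∣ T.charpoly → Even Q.natDegree) ∧
      (letI : Module ℚ (CuspForm 𝒮ℒ (k : ℤ)) :=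
          Module.compHom (CuspForm 𝒮ℒ (k : ℤ)) (algebraMap ℚ ℂ)
        ∀ W : Submodule ℚ (CuspForm 𝒮ℒ (k : ℤ)),
          (∀ f ∈ W, ∀ n, ∃ q : ℚ, (qExpansion 1 f).coeff n = (q : ℂ)) →
            (∀ f ∈ W, T f ∈ W) → Even (Module.finrank ℚ W)) ∧
      ∀ (Γ : Type) [LinearOrderedCommGroupWithZero Γ] (v : Valuation ℂ Γ), v 2 < 1 →
        ∀ μ : ℂ, T.HasEigenvalue μ → ∃ n s : ℕ, 1 ≤ n ∧
          n ≤ Module.finrank ℂ (CuspForm 𝒮ℒ (k : ℤ)) ∧
          s = 2 * padicValNat 2 ((3 * n + 1).factorial / n.factorial) ∧ v μ = v 2 ^ s ∧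
          v ((μ / 2 ^ s) ^ 2 + μ / 2 ^ s + 1) < 1 := by
  obtain ⟨r, rfl⟩ : ∃ r, m = r + 2 := ⟨m - 2, by omega⟩
  have hr : 1 ≤ r := by omega
  have h2r : 2 ≤ 2 ^ r := by
    calc 2 = 2 ^ 1 := (pow_one 2).symm
      _ ≤ 2 ^ r := Nat.pow_le_pow_right (by norm_num) hr
  obtain rfl : k = 4 * (2 ^ r - 1) + 2 * 1 := by
    have : 2 ^ (r + 2) = 4 * 2 ^ r := by rw [pow_add]; ring
    omega
  obtain ⟨hfin, T, hT1, hT2, htop⟩ := exists_T2_diag (4 * (2 ^ r - 1) + 2 * 1)
  obtain ⟨Γ₀, i₀, v₀, hv₀⟩ := exists_val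
  have h0 := thmC_val v₀ hv₀ r hr T hT2
  have key : ∀ (Γ : Type) [LinearOrderedCommGroupWithZero Γ] (v : Valuation ℂ Γ), v 2 < 1 →
        ∀ μ : ℂ, T.HasEigenvalue μ → ∃ n s : ℕ, 1 ≤ n ∧
          n ≤ Module.finrank ℂ (CuspForm 𝒮ℒ ((4 * (2 ^ r - 1) + 2 * 1 : ℕ) : ℤ)) ∧
          s = 2 * padicValNat 2 ((3 * n + 1).factorial / n.factorial) ∧ v μ = v 2 ^ s ∧
          v ((μ / 2 ^ s) ^ 2 + μ / 2 ^ s + 1) < 1 := by
    intro Γ _ v hv μ hμ
    obtain ⟨hrk, h1, h2⟩ := thmC_val v hv r hr T hT2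
    obtain ⟨n, h3, h4⟩ := h2 μ hμ
    have h20 : v 2 ≠ 0 := (map_ne_zero v).2 two_ne_zero
    refine ⟨(n : ℕ) + 1, 2 * padicValNat 2 ((3 * ((n : ℕ) + 1) + 1).factorial /
      ((n : ℕ) + 1).factorial), by omega, by rw [hrk]; exact n.2, rfl, ?_, ?_⟩
    · have h7 : sC ((n : ℕ) + 1) = 2 * padicValNat 2 ((3 * ((n : ℕ) + 1) + 1).factorial /
        ((n : ℕ) + 1).factorial) + 1 := by
        unfold sC
        ring
      rw [map_mul, h7, pow_succ', mul_right_inj' h20] at h3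
      exact h3
    · have h7 : sC ((n : ℕ) + 1) = 2 * padicValNat 2 ((3 * ((n : ℕ) + 1) + 1).factorial /
        ((n : ℕ) + 1).factorial) + 1 := by
        unfold sC
        ring
      have h8 : 2 * μ / 2 ^ sC ((n : ℕ) + 1) = μ / 2 ^ (2 * padicValNat 2
          ((3 * ((n : ℕ) + 1) + 1).factorial / ((n : ℕ) + 1).factorial)) := by
        rw [h7, pow_succ', mul_div_mul_left _ _ (two_ne_zero : (2 : ℂ) ≠ 0)]
      rw [h8] at h4
      exact h4
  have heven : ∀ Q : Polynomial ℚ, Q ≠ 0 →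
      (∀ μ : ℂ, Polynomial.aeval μ Q = 0 → T.HasEigenvalue μ) → Even Q.natDegree := by
    intro Q hQ0 hQ
    refine even_deg v₀ hv₀ Q hQ0 fun μ hμ => ?_
    obtain ⟨n, s, -, -, -, h3, h4⟩ := key Γ₀ v₀ hv₀ μ (hQ μ hμ)
    exact ⟨s, h3, h4⟩
  refine ⟨hfin, T, hT1, ncard_eig T htop h0.2.1, ?_, rat_even _ T heven, key⟩
  intro Q hQ
  have hcp : T.charpoly ≠ 0 := (LinearMap.charpoly_monic T).ne_zero
  have hQ0 : Q ≠ 0 := by
    rintro rfl
    rw [Polynomial.map_zero] at hQ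
    exact hcp (zero_dvd_iff.1 hQ)
  refine heven Q hQ0 fun μ hμ => ?_
  have h1 : T.charpoly.IsRoot μ := by
    refine Polynomial.IsRoot.dvd ?_ hQ
    rw [Polynomial.IsRoot.def, Polynomial.eval_map_algebraMap]
    exact hμ
  exact (Module.End.hasEigenvalue_iff_isRoot_charpoly T μ).2 h1

end MT2
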