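import Mathlib

/-!
# Roots and residues

Let `A` be a valuation subring of the algebraically closed field `K`, `k` its residue field.
`root_red`: `P = C (leading coefficient) * ∏ (X - μ)` over the roots. Split the roots into those in `A` and
those not in `A`; for `μ ∉ A` one has `μ⁻¹ ∈` maximal ideal, `X - μ = -μ (1 - μ⁻¹ X)`. So
`R = C a' * P₁ * P₃` in `K[X]`, `P₁ = ∏_{μ ∈ A} (X - μ)`, `P₃ = ∏_{μ ∉ A} (1 - μ⁻¹ X)`, both with coefficients in
`A`; their reductions are `P̄₁ = ∏ (X - μ̄)` and `P̄₃ = 1`. The polynomial `P₁ * P₃` over `A` has the coefficient of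
`X ^ m`, `m = card {μ ∈ A}`, congruent to `1`, so a unit `u`; so `a' u ∈ A`, `a' ∈ A`, and `R = C a' * P₁ * P₃` in
`A[X]`, `R̄ = C ā' * P̄₁`, `ā' ≠ 0`, and the multiplicity of `x` in `∏ (X - μ̄)` is the number of `μ ∈ A` with
`μ̄ = x` (`Polynomial.count_roots`, `Polynomial.roots_multiset_prod_X_sub_C`, `Multiset.count_map`).
-/

open Polynomial

namespace MT2

/-- lift of a multiset of elements of `A` -/
private theorem aroot_lift {K : Type} [Field K] (A : ValuationSubring K) (s : Multiset K)
    (hs : ∀ μ ∈ s, μ ∈ A) : ∃ t : Multiset A, t.map (algebraMap A K) = s := by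
  induction s using Multiset.induction_on with
  | empty => exact ⟨0, rfl⟩
  | cons a s ih =>
    obtain ⟨t, ht⟩ := ih (fun μ hμ => hs μ (Multiset.mem_cons_of_mem hμ))
    refine ⟨(⟨a, hs a (Multiset.mem_cons_self a s)⟩ : A) ::ₘ t, ?_⟩
    rw [Multiset.map_cons, ht]
    rfl

/-- the part with roots outside `A` -/
private theorem aroot_out {K : Type} [Field K] (A : ValuationSubring K) (s : Multiset K)
    (hs : ∀ μ ∈ s, μ ∉ A) :
    ∃ (c : K) (Q : Polynomial A), c ≠ 0 ∧ (s.map fun μ => X - C μ).prod =
      C c * Q.map (algebraMap A K) ∧ Q.map (IsLocalRing.residue A) = 1 := by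
  induction s using Multiset.induction_on with
  | empty => exact ⟨1, 1, one_ne_zero, by simp, by simp⟩
  | cons a s ih =>
    obtain ⟨c, Q, hc, hQ, hQ1⟩ := ih (fun μ hμ => hs μ (Multiset.mem_cons_of_mem hμ))
    have ha : a ∉ A := hs a (Multiset.mem_cons_self a s)
    have ha0 : a ≠ 0 := fun h => ha (h ▸ A.zero_mem)
    have hi : a⁻¹ ∈ A := (A.mem_or_inv_mem a).resolve_left ha
    have hm : (⟨a⁻¹, hi⟩ : A) ∈ IsLocalRing.maximalIdeal A := by
      rw [IsLocalRing.mem_maximalIdeal, mem_nonunits_iff]
      intro hu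
      obtain ⟨u, hu⟩ := hu
      apply ha
      have h1 : ((u : A) : K) * ((u⁻¹ : Aˣ) : A) = 1 := by
        have := congrArg (algebraMap A K) u.mul_inv
        rw [map_mul, map_one] at this
        exact this
      have h2 : ((u : A) : K) = a⁻¹ := by rw [hu]
      rw [h2] at h1
      have h3 : (((u⁻¹ : Aˣ) : A) : K) = a := by
        field_simp at h1
        exact h1
      rw [← h3]
      exact ((u⁻¹ : Aˣ) : A).2
    refine ⟨-a * c, (1 - C (⟨a⁻¹, hi⟩ : A) * X) * Q, mul_ne_zero (neg_ne_zero.mpr ha0) hc, ?_, ?_⟩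
    · rw [Multiset.map_cons, Multiset.prod_cons, hQ, Polynomial.map_mul]
      have h1 : (1 - C (⟨a⁻¹, hi⟩ : A) * X).map (algebraMap A K) = 1 - C a⁻¹ * X := by
        rw [Polynomial.map_sub, Polynomial.map_mul, Polynomial.map_one, Polynomial.map_C,
          Polynomial.map_X]
        rfl
      rw [h1]
      have h2 : (X - C a : Polynomial K) = C (-a) * (1 - C a⁻¹ * X) := by
        have h3 : (C a * C a⁻¹ : Polynomial K) = 1 := by
          rw [← C_mul, mul_inv_cancel₀ ha0, C_1]
        rw [C_neg]
        linear_combination (-X) * h3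
      rw [h2, C_mul]
      ring
    · rw [Polynomial.map_mul, hQ1, mul_one, Polynomial.map_sub, Polynomial.map_mul,
        Polynomial.map_one, Polynomial.map_C, Polynomial.map_X,
        (IsLocalRing.residue_eq_zero_iff _).mpr hm, C_0, zero_mul, sub_zero]

open Classical in
theorem root_red {K : Type} [Field K] [IsAlgClosed K] (A : ValuationSubring K) (P : Polynomial K)
    (hP : P ≠ 0) (R : Polynomial A) (hR : R.map (algebraMap A K) = P)
    (hR0 : R.map (IsLocalRing.residue A) ≠ 0) (x : IsLocalRing.ResidueField A) :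
    (R.map (IsLocalRing.residue A)).rootMultiplicity x =
      Multiset.card (P.roots.filter
        fun μ => ∃ h : μ ∈ A, IsLocalRing.residue A ⟨μ, h⟩ = x) := by
  obtain ⟨t, ht⟩ := aroot_lift A (P.roots.filter fun μ => μ ∈ A)
    (fun μ hμ => (Multiset.mem_filter.mp hμ).2)
  obtain ⟨c, Q, hc, hQ, hQ1⟩ := aroot_out A (P.roots.filter fun μ => ¬ μ ∈ A)
    (fun μ hμ => (Multiset.mem_filter.mp hμ).2)
  set P1 : Polynomial A := (t.map fun a => X - C a).prod with hP1
  have hP1K : P1.map (algebraMap A K) =
      ((P.roots.filter fun μ => μ ∈ A).map fun μ => X - C μ).prod := by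
    rw [hP1, Polynomial.map_multiset_prod, Multiset.map_map, ← ht, Multiset.map_map]
    congr 1
    apply Multiset.map_congr rfl
    intro a _
    simp
  have hP1k : P1.map (IsLocalRing.residue A) =
      ((t.map (IsLocalRing.residue A)).map fun a => X - C a).prod := by
    rw [hP1, Polynomial.map_multiset_prod, Multiset.map_map, Multiset.map_map]
    congr 1
    apply Multiset.map_congr rfl
    intro a _
    simp
  -- the factorization over `K`
  have hfac : P = C (P.leadingCoeff * c) * (P1 * Q).map (algebraMap A K) := by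
    have h1 : P = C P.leadingCoeff * (P.roots.map fun a => X - C a).prod :=
      (IsAlgClosed.splits P).eq_prod_roots
    have h2 : (P.roots.map fun a => (X - C a : Polynomial K)).prod =
        ((P.roots.filter fun μ => μ ∈ A).map fun a => X - C a).prod *
          ((P.roots.filter fun μ => ¬ μ ∈ A).map fun a => X - C a).prod := by
      rw [← Multiset.prod_add, ← Multiset.map_add, Multiset.filter_add_not]
    rw [h2, hQ, ← hP1K] at h1
    rw [Polynomial.map_mul, C_mul]
    calc P = C P.leadingCoeff * (map (algebraMap A K) P1 * (C c * map (algebraMap A K) Q)) := h1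
      _ = _ := by ring
  -- the constant lies in `A`
  have hred : (P1 * Q).map (IsLocalRing.residue A) =
      ((t.map (IsLocalRing.residue A)).map fun a => X - C a).prod := by
    rw [Polynomial.map_mul, hQ1, mul_one, hP1k]
  set N : ℕ := Multiset.card (t.map (IsLocalRing.residue A)) with hN
  have hmon : ((t.map (IsLocalRing.residue A)).map fun a => X - C a).prod.Monic :=
    monic_multiset_prod_of_monic _ _ fun a _ => monic_X_sub_C a
  have hdeg : ((t.map (IsLocalRing.residue A)).map fun a => X - C a).prod.natDegree = N :=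
    natDegree_multiset_prod_X_sub_C_eq_card _
  have hu1 : IsLocalRing.residue A ((P1 * Q).coeff N) = 1 := by
    rw [← Polynomial.coeff_map, hred, ← hdeg]
    exact hmon
  have hu : IsUnit ((P1 * Q).coeff N) := by
    rw [← IsLocalRing.residue_ne_zero_iff_isUnit, hu1]
    exact one_ne_zero
  obtain ⟨u, hu⟩ := hu
  have hcoef : algebraMap A K (R.coeff N) =
      (P.leadingCoeff * c) * algebraMap A K ((P1 * Q).coeff N) := by
    rw [← Polynomial.coeff_map, hR, ← Polynomial.coeff_map, ← coeff_C_mul, ← hfac]
  have ha' : algebraMap A K (R.coeff N * ((u⁻¹ : Aˣ) : A)) = P.leadingCoeff * c := by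
    rw [map_mul, hcoef, mul_assoc, ← map_mul, ← hu, Units.mul_inv, map_one, mul_one]
  set a' : A := R.coeff N * ((u⁻¹ : Aˣ) : A) with ha'def
  have hRf : R = C a' * (P1 * Q) := by
    apply Polynomial.map_injective (algebraMap A K) (FaithfulSMul.algebraMap_injective A K)
    rw [hR, Polynomial.map_mul, Polynomial.map_C, ha', ← hfac]
  have hRr : R.map (IsLocalRing.residue A) = C (IsLocalRing.residue A a') *
      ((t.map (IsLocalRing.residue A)).map fun a => X - C a).prod := by
    rw [hRf, Polynomial.map_mul, Polynomial.map_C, hred]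
  have hne : IsLocalRing.residue A a' ≠ 0 := by
    intro h
    apply hR0
    rw [hRr, h, C_0, zero_mul]
  rw [← count_roots, hRr, roots_C_mul _ hne, roots_multiset_prod_X_sub_C, Multiset.count_map]
  have hfil : (P.roots.filter fun μ => ∃ h : μ ∈ A, IsLocalRing.residue A ⟨μ, h⟩ = x) =
      ((P.roots.filter fun μ => μ ∈ A).filter
        fun μ => ∃ h : μ ∈ A, IsLocalRing.residue A ⟨μ, h⟩ = x) := by
    rw [Multiset.filter_filter]
    apply Multiset.filter_congr
    intro μ _
    constructor
    · rintro ⟨h, h2⟩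
      exact ⟨⟨h, h2⟩, h⟩
    · rintro ⟨h, _⟩
      exact h
  rw [hfil, ← ht, Multiset.filter_map, Multiset.card_map]
  congr 1
  apply Multiset.filter_congr
  intro a _
  constructor
  · intro h
    exact ⟨a.2, h.symm⟩
  · rintro ⟨_, h⟩
    exact h.symm

end MT2
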