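import Pool.Agent.Lib_MP_bfd926_ab.ABd
import Pool.Agent.Lib_MP_bfd926_ab.ANt

/-!
# Bounds in the weights near a power of two

`w = 2 ^ r - c`, `c ≤ 1`. By `choose_near`
`v (C(w - n + t, 2t)) = v (C(n + c + t - 1, 2t))` (`w - n + t = 2 ^ r - 1 - (n + c - t - 1)`, `t < n`),
`v (C(w - 2n + t, t)) = v (C(2n + c - 1, t))` (`w - 2n + t = 2 ^ r - 1 - (2n + c - t - 1)`),
`v (C(w - 2n - 1, t)) = v (C(2n + c + t, t))` (`w - 2n - 1 = 2 ^ r - 1 - (2n + c)`, `2n + c + t < 2 ^ r`).
With `qL_norm`, `qU_norm`, `nt_lo`, `nt_up` and `padicNorm 2 (m : ℚ) = 2 ^ (-v m)` for `m ≠ 0`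
(all the binomial coefficients are nonzero, except `C(n+t, 2t) = 0` for `t > n`, excluded).
The unit cases `c = 1`, `e = 1`, `t = 1`: `v (w - 2n + 1) = v (2n)`, `v (C(w - n + 1, 2)) = v (C(n + 1, 2))`,
`v (w - 3n) = v (3n + 1)`, `v (w - 2n - 1) = v (2n + 2)`, `v (2w - 3n) = v (2 ^ (r+1) - (3n + 2)) = v (3n + 2)`
(`val_sub`); so `v (qL) = v (n + 1) + v (3n + 1) - 2`, `v (qU) = v n + v (3n + 2) - 2`, and
for `n` even `v (n+1) = v (3n+1) = 0`, for `n` odd both are `≥ 1`; etc.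
-/

namespace MT2

private theorem nN {A : ℕ} (hA : A ≠ 0) :
    padicNorm 2 (A : ℚ) = ((2 : ℚ) ^ padicValNat 2 A)⁻¹ := by
  have h : (A : ℚ) ≠ 0 := by exact_mod_cast hA
  rw [padicNorm.eq_zpow_of_nonzero h, padicValRat.of_nat, zpow_neg, zpow_natCast]
  norm_num

private theorem key {q : ℚ} {A B s t : ℕ} (hA : A ≠ 0) (hB : B ≠ 0)
    (h : q * padicNorm 2 (B : ℚ) ≤ padicNorm 2 (A : ℚ))
    (hv : padicValNat 2 B + s ≤ padicValNat 2 A + 2 * t) : q * 2 ^ s ≤ 4 ^ t := by
  rw [nN hA, nN hB] at h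
  set a : ℚ := (2 : ℚ) ^ padicValNat 2 A with ha
  set b : ℚ := (2 : ℚ) ^ padicValNat 2 B with hb
  have ha0 : 0 < a := by positivity
  have hb0 : 0 < b := by positivity
  have h1 : q * a ≤ b := by
    have h2 : q * b⁻¹ * (a * b) ≤ a⁻¹ * (a * b) :=
      mul_le_mul_of_nonneg_right h (by positivity)
    have h3 : q * b⁻¹ * (a * b) = q * a := by field_simp
    have h4 : a⁻¹ * (a * b) = b := by field_simp
    rw [h3, h4] at h2
    exact h2
  have h5 : (2 : ℚ) ^ (padicValNat 2 B + s) ≤ 2 ^ (padicValNat 2 A + 2 * t) :=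
    pow_le_pow_right₀ (by norm_num) hv
  rw [pow_add, pow_add, pow_mul, ← ha, ← hb] at h5
  have h6 : (2 : ℚ) ^ 2 = 4 := by norm_num
  rw [h6] at h5
  have h7 : (q * 2 ^ s) * a ≤ 4 ^ t * a := by
    have : (q * 2 ^ s) * a = (q * a) * 2 ^ s := by ring
    rw [this]
    calc (q * a) * 2 ^ s ≤ b * 2 ^ s := mul_le_mul_of_nonneg_right h1 (by positivity)
      _ ≤ a * 4 ^ t := h5
      _ = 4 ^ t * a := by ring
  exact le_of_mul_le_mul_right h7 ha0

private theorem keyEq {q : ℚ} {A B D : ℕ} (hA : A ≠ 0) (hB : B ≠ 0) (hD : D ≠ 0)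
    (h : q * padicNorm 2 (B : ℚ) = padicNorm 2 (A : ℚ) * padicNorm 2 (D : ℚ)) :
    q * 2 ^ (padicValNat 2 A + padicValNat 2 D) = 2 ^ padicValNat 2 B := by
  rw [nN hA, nN hB, nN hD] at h
  rw [pow_add]
  have ha0 : (2 : ℚ) ^ padicValNat 2 A ≠ 0 := by positivity
  have hb0 : (2 : ℚ) ^ padicValNat 2 B ≠ 0 := by positivity
  have hd0 : (2 : ℚ) ^ padicValNat 2 D ≠ 0 := by positivity
  field_simp at h
  linear_combination h

private theorem choose_two_val {n : ℕ} (h : 1 ≤ n) :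
    padicValNat 2 (Nat.choose (n + 1) 2) + 1 = padicValNat 2 n + padicValNat 2 (n + 1) := by
  have h1 : Nat.choose (n + 1) 2 * 2 = n * (n + 1) := by
    rw [Nat.choose_two_right, Nat.add_sub_cancel, mul_comm (n + 1) n]
    exact Nat.div_mul_cancel (Nat.even_mul_succ_self n).two_dvd
  have h2 : Nat.choose (n + 1) 2 ≠ 0 := (Nat.choose_pos (by omega)).ne'
  have h3 := congrArg (padicValNat 2) h1
  rw [padicValNat.mul h2 (by norm_num), padicValNat.mul (by omega) (by omega)] at h3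
  have h4 : padicValNat 2 2 = 1 := padicValNat_self
  rw [h4] at h3
  exact h3

private theorem val_two_mul {n : ℕ} (h : 1 ≤ n) :
    padicValNat 2 (2 * n) = 1 + padicValNat 2 n := by
  rw [padicValNat.mul (by norm_num) (by omega), padicValNat_self]

private theorem val_odd {n : ℕ} (h : n % 2 = 1) : padicValNat 2 n = 0 :=
  padicValNat.eq_zero_of_not_dvd (by omega)

private theorem val_even {n : ℕ} (h0 : n ≠ 0) (h : n % 2 = 0) : 1 ≤ padicValNat 2 n :=
  one_le_padicValNat_of_dvd h0 (by omega)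

private theorem three_ne {n r : ℕ} : 3 * n ≠ 2 ^ r := by
  intro h
  have h1 : 3 ∣ 2 ^ r := ⟨n, h.symm⟩
  have h2 := (Nat.Prime.dvd_of_dvd_pow Nat.prime_three h1)
  omega

theorem qL_two {r e w n t : ℕ} (he : e ≤ 1) (hw : w = 2 ^ r) (hn : 3 * n + e ≤ w) (h1 : 1 ≤ t)
    (ht : t < n) : 2 * padicNorm 2 (qL e w n (n - t)) ≤ 4 ^ t := by
  have hN := qL_norm he hn h1 ht
  have ha : padicValNat 2 (Nat.choose (w - n + t) (2 * t)) =
      padicValNat 2 (Nat.choose (n + t - 1) (2 * t)) := by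
    have h := choose_near (r := r) (m := n - t - 1) (k := 2 * t) (by omega)
    rw [show 2 ^ r - 1 - (n - t - 1) = w - n + t by omega,
      show n - t - 1 + 2 * t = n + t - 1 by omega] at h
    exact h
  have hb : padicValNat 2 (Nat.choose (w - 2 * n + t) t) =
      padicValNat 2 (Nat.choose (2 * n - 1) t) := by
    have h := choose_near (r := r) (m := 2 * n - t - 1) (k := t) (by omega)
    rw [show 2 ^ r - 1 - (2 * n - t - 1) = w - 2 * n + t by omega,
      show 2 * n - t - 1 + t = 2 * n - 1 by omega] at h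
    exact h
  have hlo := nt_lo (n := n) (t := t) (c := 0) h1 ht (by omega)
  simp only [add_zero, zero_ne_one, false_and, if_false] at hlo
  have hA : Nat.choose (w - n + t) (2 * t) ≠ 0 := (Nat.choose_pos (by omega)).ne'
  have hB : Nat.choose (w - 2 * n + t) t ≠ 0 := (Nat.choose_pos (by omega)).ne'
  have := key (s := 1) (t := t) hA hB hN (by rw [ha, hb]; exact hlo)
  linarith

theorem qU_two {r e w n t : ℕ} (he : e ≤ 1) (hw : w = 2 ^ r) (hn : 3 * n + e ≤ w) (h1 : 1 ≤ t)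
    (ht : t ≤ n) : 2 * padicNorm 2 (qU e w n (n + t)) ≤ 4 ^ t := by
  have h3 : 3 * n ≠ 2 ^ r := three_ne
  have hlt : 2 * n + t < w := by omega
  have hN := qU_norm he hn h1 ht hlt
  have hb : padicValNat 2 (Nat.choose (w - 2 * n - 1) t) =
      padicValNat 2 (Nat.choose (2 * n + t) t) := by
    have h := choose_near (r := r) (m := 2 * n) (k := t) (by omega)
    rw [show 2 ^ r - 1 - 2 * n = w - 2 * n - 1 by omega] at h
    exact h
  have hup := nt_up (n := n) (t := t) (c := 0) h1 ht (by omega)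
  simp only [add_zero, zero_ne_one, false_and, if_false] at hup
  have hA : Nat.choose (n + t) (2 * t) ≠ 0 := (Nat.choose_pos (by omega)).ne'
  have hB : Nat.choose (w - 2 * n - 1) t ≠ 0 := (Nat.choose_pos (by omega)).ne'
  have := key (s := 1) (t := t) hA hB hN (by rw [hb]; exact hup)
  linarith

private theorem qL_one_eq {r w n : ℕ} (hw : w + 1 = 2 ^ r) (hn : 3 * n + 1 ≤ w) (h1 : 2 ≤ n) :
    padicNorm 2 (qL 1 w n (n - 1)) * 2 ^ (padicValNat 2 (n + 1) + padicValNat 2 (3 * n + 1)) =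
      4 := by
  have hN := qL_one_norm hn h1
  have ha : padicValNat 2 (Nat.choose (w - n + 1) 2) = padicValNat 2 (Nat.choose (n + 1) 2) := by
    have h := choose_near (r := r) (m := n - 1) (k := 2) (by omega)
    rw [show 2 ^ r - 1 - (n - 1) = w - n + 1 by omega,
      show n - 1 + 2 = n + 1 by omega] at h
    exact h
  have hb : padicValNat 2 (w - 2 * n + 1) = padicValNat 2 (2 * n) := by
    have h := val_sub (r := r) (m := 2 * n) (by omega) (by omega)
    rw [show 2 ^ r - 2 * n = w - 2 * n + 1 by omega] at h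
    exact h
  have hd : padicValNat 2 (w - 3 * n) = padicValNat 2 (3 * n + 1) := by
    have h := val_sub (r := r) (m := 3 * n + 1) (by omega) (by omega)
    rw [show 2 ^ r - (3 * n + 1) = w - 3 * n by omega] at h
    exact h
  have hA : Nat.choose (w - n + 1) 2 ≠ 0 := (Nat.choose_pos (by omega)).ne'
  have hE := keyEq (q := padicNorm 2 (qL 1 w n (n - 1))) (A := Nat.choose (w - n + 1) 2)
    (B := w - 2 * n + 1) (D := w - 3 * n) hA (by omega) (by omega) hN
  have h2 := choose_two_val (n := n) (by omega)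
  have h3 := val_two_mul (n := n) (by omega)
  rw [ha, hb, hd, h3] at hE
  have h4 : padicNorm 2 (qL 1 w n (n - 1)) *
      2 ^ (padicValNat 2 (Nat.choose (n + 1) 2) + 1 + padicValNat 2 (3 * n + 1)) =
      2 ^ (2 + padicValNat 2 n) := by
    rw [show padicValNat 2 (Nat.choose (n + 1) 2) + 1 + padicValNat 2 (3 * n + 1) =
      padicValNat 2 (Nat.choose (n + 1) 2) + padicValNat 2 (3 * n + 1) + 1 by ring, pow_succ,
      ← mul_assoc, hE]
    ring
  rw [h2] at h4
  have h5 : (2 : ℚ) ^ padicValNat 2 n ≠ 0 := by positivity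
  have h6 : padicNorm 2 (qL 1 w n (n - 1)) *
      2 ^ (padicValNat 2 (n + 1) + padicValNat 2 (3 * n + 1)) * 2 ^ padicValNat 2 n =
      4 * 2 ^ padicValNat 2 n := by
    have h7 : padicNorm 2 (qL 1 w n (n - 1)) *
      2 ^ (padicValNat 2 (n + 1) + padicValNat 2 (3 * n + 1)) * 2 ^ padicValNat 2 n =
      padicNorm 2 (qL 1 w n (n - 1)) *
      2 ^ (padicValNat 2 n + padicValNat 2 (n + 1) + padicValNat 2 (3 * n + 1)) := by ring
    rw [h7, h4]
    ring
  exact mul_right_cancel₀ h5 h6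

private theorem qU_one_eq {r w n : ℕ} (hw : w + 1 = 2 ^ r) (hn : 3 * n + 1 ≤ w) (h1 : 1 ≤ n) :
    padicNorm 2 (qU 1 w n (n + 1)) * 2 ^ (padicValNat 2 n + padicValNat 2 (3 * n + 2)) = 4 := by
  have hlt : 2 * n + 1 < w := by omega
  have hN := qU_one_norm hn h1 hlt
  have hb : padicValNat 2 (w - 2 * n - 1) = padicValNat 2 (2 * (n + 1)) := by
    have h := val_sub (r := r) (m := 2 * (n + 1)) (by omega) (by omega)
    rw [show 2 ^ r - 2 * (n + 1) = w - 2 * n - 1 by omega] at h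
    exact h
  have hd : padicValNat 2 (2 * w - 3 * n) = padicValNat 2 (3 * n + 2) := by
    have hp : 2 ^ (r + 1) = 2 * 2 ^ r := by ring
    have h := val_sub (r := r + 1) (m := 3 * n + 2) (by omega) (by omega)
    rw [show 2 ^ (r + 1) - (3 * n + 2) = 2 * w - 3 * n by omega] at h
    exact h
  have hA : Nat.choose (n + 1) 2 ≠ 0 := (Nat.choose_pos (by omega)).ne'
  have hE := keyEq (q := padicNorm 2 (qU 1 w n (n + 1))) (A := Nat.choose (n + 1) 2)
    (B := w - 2 * n - 1) (D := 2 * w - 3 * n) hA (by omega) (by omega) hN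
  have h2 := choose_two_val (n := n) (by omega)
  have h3 := val_two_mul (n := n + 1) (by omega)
  rw [hb, hd, h3] at hE
  have h4 : padicNorm 2 (qU 1 w n (n + 1)) *
      2 ^ (padicValNat 2 (Nat.choose (n + 1) 2) + 1 + padicValNat 2 (3 * n + 2)) =
      2 ^ (2 + padicValNat 2 (n + 1)) := by
    rw [show padicValNat 2 (Nat.choose (n + 1) 2) + 1 + padicValNat 2 (3 * n + 2) =
      padicValNat 2 (Nat.choose (n + 1) 2) + padicValNat 2 (3 * n + 2) + 1 by ring, pow_succ,
      ← mul_assoc, hE]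
    ring
  rw [h2] at h4
  have h5 : (2 : ℚ) ^ padicValNat 2 (n + 1) ≠ 0 := by positivity
  have h6 : padicNorm 2 (qU 1 w n (n + 1)) *
      2 ^ (padicValNat 2 n + padicValNat 2 (3 * n + 2)) * 2 ^ padicValNat 2 (n + 1) =
      4 * 2 ^ padicValNat 2 (n + 1) := by
    have h7 : padicNorm 2 (qU 1 w n (n + 1)) *
      2 ^ (padicValNat 2 n + padicValNat 2 (3 * n + 2)) * 2 ^ padicValNat 2 (n + 1) =
      padicNorm 2 (qU 1 w n (n + 1)) *
      2 ^ (padicValNat 2 n + padicValNat 2 (n + 1) + padicValNat 2 (3 * n + 2)) := by ring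
    rw [h7, h4]
    ring
  exact mul_right_cancel₀ h5 h6

/-- From `q * 2 ^ (a + b) = 4` with `1 ≤ a`, `1 ≤ b`: `2 * q ≤ 4`. -/
private theorem le_of_eq4 {q : ℚ} {a b : ℕ} (h0 : 0 ≤ q) (ha : 1 ≤ a) (hb : 1 ≤ b)
    (h : q * 2 ^ (a + b) = 4) : 2 * q ≤ 4 := by
  have h1 : (2 : ℚ) ^ 2 ≤ 2 ^ (a + b) := pow_le_pow_right₀ (by norm_num) (by omega)
  have h2 : q * 2 ^ 2 ≤ q * 2 ^ (a + b) := mul_le_mul_of_nonneg_left h1 h0
  rw [h] at h2
  linarith

theorem qL_near {r w n t : ℕ} (hw : w + 1 = 2 ^ r) (hn : 3 * n + 1 ≤ w) (h1 : 1 ≤ t)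
    (ht : t < n) (h : ¬ (t = 1 ∧ n % 2 = 0)) : 2 * padicNorm 2 (qL 1 w n (n - t)) ≤ 4 ^ t := by
  by_cases ht1 : t = 1
  · subst ht1
    have hodd : n % 2 = 1 := by
      by_contra hc
      exact h ⟨rfl, by omega⟩
    have hE := qL_one_eq hw hn (by omega)
    have := le_of_eq4 (padicNorm.nonneg _) (val_even (n := n + 1) (by omega) (by omega))
      (val_even (n := 3 * n + 1) (by omega) (by omega)) hE
    linarith
  · have hN := qL_norm (le_refl 1) hn h1 ht
    have ha : padicValNat 2 (Nat.choose (w - n + t) (2 * t)) =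
        padicValNat 2 (Nat.choose (n + 1 + t - 1) (2 * t)) := by
      have h := choose_near (r := r) (m := n - t) (k := 2 * t) (by omega)
      rw [show 2 ^ r - 1 - (n - t) = w - n + t by omega,
        show n - t + 2 * t = n + 1 + t - 1 by omega] at h
      exact h
    have hb : padicValNat 2 (Nat.choose (w - 2 * n + t) t) =
        padicValNat 2 (Nat.choose (2 * n + 1 - 1) t) := by
      have h := choose_near (r := r) (m := 2 * n - t) (k := t) (by omega)
      rw [show 2 ^ r - 1 - (2 * n - t) = w - 2 * n + t by omega,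
        show 2 * n - t + t = 2 * n + 1 - 1 by omega] at h
      exact h
    have hlo := nt_lo (n := n) (t := t) (c := 1) h1 ht (by omega)
    rw [if_neg (by tauto)] at hlo
    have hA : Nat.choose (w - n + t) (2 * t) ≠ 0 := (Nat.choose_pos (by omega)).ne'
    have hB : Nat.choose (w - 2 * n + t) t ≠ 0 := (Nat.choose_pos (by omega)).ne'
    have := key (s := 1) (t := t) hA hB hN (by rw [ha, hb]; exact hlo)
    linarith

theorem qL_near_unit {r w n : ℕ} (hw : w + 1 = 2 ^ r) (hn : 3 * n + 1 ≤ w) (h1 : 2 ≤ n)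
    (h : n % 2 = 0) : padicNorm 2 (qL 1 w n (n - 1)) = 4 := by
  have hE := qL_one_eq hw hn h1
  rw [val_odd (n := n + 1) (by omega), val_odd (n := 3 * n + 1) (by omega)] at hE
  simpa using hE

theorem qU_near {r w n t : ℕ} (hw : w + 1 = 2 ^ r) (hn : 3 * n + 1 ≤ w) (h1 : 1 ≤ t)
    (ht : t ≤ n) (h : ¬ (t = 1 ∧ n % 2 = 1)) : 2 * padicNorm 2 (qU 1 w n (n + t)) ≤ 4 ^ t := by
  by_cases ht1 : t = 1
  · subst ht1
    have hev : n % 2 = 0 := by
      by_contra hc
      exact h ⟨rfl, by omega⟩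
    have hE := qU_one_eq hw hn ht
    have := le_of_eq4 (padicNorm.nonneg _) (val_even (n := n) (by omega) hev)
      (val_even (n := 3 * n + 2) (by omega) (by omega)) hE
    linarith
  · have hlt : 2 * n + t < w := by omega
    have hN := qU_norm (le_refl 1) hn h1 ht hlt
    have hb : padicValNat 2 (Nat.choose (w - 2 * n - 1) t) =
        padicValNat 2 (Nat.choose (2 * n + 1 + t) t) := by
      have h := choose_near (r := r) (m := 2 * n + 1) (k := t) (by omega)
      rw [show 2 ^ r - 1 - (2 * n + 1) = w - 2 * n - 1 by omega] at h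
      exact h
    have hup := nt_up (n := n) (t := t) (c := 1) h1 ht (by omega)
    rw [if_neg (by tauto)] at hup
    have hA : Nat.choose (n + t) (2 * t) ≠ 0 := (Nat.choose_pos (by omega)).ne'
    have hB : Nat.choose (w - 2 * n - 1) t ≠ 0 := (Nat.choose_pos (by omega)).ne'
    have := key (s := 1) (t := t) hA hB hN (by rw [hb]; exact hup)
    linarith

theorem qU_near_unit {r w n : ℕ} (hw : w + 1 = 2 ^ r) (hn : 3 * n + 1 ≤ w) (h1 : 1 ≤ n)
    (h : n % 2 = 1) : padicNorm 2 (qU 1 w n (n + 1)) = 4 := by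
  have hE := qU_one_eq hw hn h1
  rw [val_odd h, val_odd (n := 3 * n + 2) (by omega)] at hE
  simpa using hE

end MT2
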