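import Pool.Agent.Lib_MP_bfd926_ab.ADefs
import Pool.Agent.Lib_MP_bfd926_sq.SLeft

/-!
# The rows `l ^ (n) * N`, closed form

Let `c = n * (n - w)`, `z_j = ∑_{i ∈ Icc 1 n} yv w n i * K4 w i j` (this is minus four times the `z` of
the notes; the sign and the factor `-1/4` do not matter). The private lemma `sLeft_step` of `SLeft`
(copy it) is, with `j + 1` instead of `j`,
`2 * (2 * w - 1 - 2 * j) * (c_j - c) * z_j = (j - 1) * (j * (j - 2 * w) - 4 * c) * z_{j-1}` for all `j ≥ 1`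
(`c_j = j * (j - w)`), and `z_n = kap w n` (`kapsum_self`).
In the same way (`int_B`, the proof of `lv_null` / `lv_top` in `SLeft`) for all `j ≥ 1`
`hrow w n j = -(1/2) * (2 * w - 1 - 2 * j) * z_j + (j - 1) * z_{j-1}` (check the constants with `lv_top`:
`hrow w n n = -(1/2) * (2 * w - 1 - 2 * n) * kap w n = lv w n n * del w n`).
With `j * (j - 2 * w) - 4 * c = (j - 2 * n) * (j + 2 * n - 2 * w)`, `c_j - c = (j - n) * (j + n - w)` and
`(j - 2 * n) * (j + 2 * n - 2 * w) - 4 * (j - n) * (j + n - w) = j * (2 * w - 3 * j)`, for `j > n`: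
`hrow w n j = -(1/4) * z_{j-1} * (j - 1) * j * (2 * w - 3 * j) / ((j - n) * (j + n - w))`.
So, for `j = n + t`, `1 ≤ t ≤ n`, `2 * n + t < w`,
`hrow w n j / hrow w n n = ∏_{s=1}^{t-1} [-(n+s-1)(n-s)(2w-3n-s) / (2(2w-1-2n-2s) s (w-2n-s))] *
  (n+t-1)(n+t)(2w-3n-3t) / (-2 t (w-2n-t) (2w-1-2n))`
(checked by computer), and this is the claim:
`∏_{s=1}^{t-1} (n+s-1)(n-s) * (n+t-1)(n+t) = (2t)! * C(n+t, 2t)`, `∏_{s=1}^{t} (w-2n-s) = t! * C(w-2n-1, t)`,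
`∏_{s=1}^{t-1} (M-s) * (M-3t) = t! * (C(M,t) - 3 C(M-1,t-1))`, `M = 2w-3n`,
`(2t)! = 2^t * t! * ∏_{m<t} (2m+1)`. An induction on `t` may be easier: the claim for `z`:
`z_{n+t} * 2^t * t! * ∏_{m<t} (2w-3-2n-2m) * (w-2n-1)⋯(w-2n-t) = ± …`.
-/

namespace MT2

private noncomputable def aUpZ (w n j : ℕ) : ℚ :=
  ∑ l ∈ Finset.range n, yv w n (l + 1) * (K4 w (l + 1) j : ℚ)

private theorem aUp_sum {M : Type} [AddCommMonoid M] (F : ℕ → M) (n : ℕ) :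
    ∑ j ∈ Finset.Icc 1 n, F j = ∑ l ∈ Finset.range n, F (l + 1) := by
  rw [Finset.range_eq_Ico, Finset.sum_Ico_add' F 0 n 1]
  congr 1

private theorem aUp_step {w n j : ℕ} (hn : 3 * n ≤ w) :
    2 * (2 * (w : ℚ) - 1 - 2 * ((j : ℚ) + 1)) * (((j : ℚ) + 1) * ((j + 1) - w) - n * (n - w)) *
        aUpZ w n (j + 1) =
      (j : ℚ) * (((j : ℚ) + 1) * ((j + 1) - 2 * w) - 4 * (n * (n - w))) * aUpZ w n j := by
  have key : ∀ l ∈ Finset.range n,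
      2 * (2 * (w : ℚ) - 1 - 2 * ((j : ℚ) + 1)) * (((j : ℚ) + 1) * ((j + 1) - w) - n * (n - w)) *
        (yv w n (l + 1) * (K4 w (l + 1) (j + 1) : ℚ)) -
      (j : ℚ) * (((j : ℚ) + 1) * ((j + 1) - 2 * w) - 4 * (n * (n - w))) *
        (yv w n (l + 1) * (K4 w (l + 1) j : ℚ)) =
      (4 * (l : ℚ) - 2) * (l * (l - w) - n * (n - w)) * yv w n l * (N w l (j + 1) : ℚ) -
        (4 * ((l + 1 : ℕ) : ℚ) - 2) * (((l + 1 : ℕ) : ℚ) * (((l + 1 : ℕ) : ℚ) - w) -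
          n * (n - w)) * yv w n (l + 1) * (N w ((l + 1 : ℕ) : ℤ) (j + 1) : ℚ) := by
    intro l hl
    have hA := congrArg (Int.cast : ℤ → ℚ) (int_A (w : ℤ) ((l : ℤ) + 1) ((j : ℤ) + 1))
    have hB := congrArg (Int.cast : ℤ → ℚ) (int_B (w : ℤ) ((l : ℤ) + 1) ((j : ℤ) + 1))
    simp only [add_sub_cancel_right] at hA hB
    have hr := yv_rec (i := l) hn (Finset.mem_range.1 hl)
    push_cast at hA hB ⊢
    linear_combination (yv w n (l + 1)) * hA - 2 * (n * (n - w)) * (yv w n (l + 1)) * hB -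
      (N w l (j + 1) : ℚ) * hr
  have hsum := Finset.sum_congr (rfl : Finset.range n = Finset.range n) key
  rw [Finset.sum_sub_distrib, ← Finset.mul_sum, ← Finset.mul_sum] at hsum
  have htel := Finset.sum_range_sub' (fun l : ℕ => (4 * (l : ℚ) - 2) *
    (l * (l - w) - n * (n - w)) * yv w n l * (N w l (j + 1) : ℚ)) n
  rw [htel] at hsum
  have h0 : N w ((0 : ℕ) : ℤ) ((j : ℤ) + 1) = 0 := N_zero (by push_cast; omega)
  rw [h0] at hsum
  unfold aUpZ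
  push_cast at hsum ⊢
  linear_combination hsum

private theorem aUp_lvsum (w n j : ℕ) :
    hrow w n (j + 1) =
      1 / 2 * (-(2 * (w : ℚ) - 1 - 2 * (j + 1)) * aUpZ w n (j + 1) +
        2 * (j : ℚ) * aUpZ w n j) := by
  unfold hrow
  rw [aUp_sum (fun i => lv w n i * (N w i ((j + 1 : ℕ) : ℤ) : ℚ))]
  have key : ∀ l ∈ Finset.range n,
      lv w n (l + 1) * (N w ((l + 1 : ℕ) : ℤ) ((j : ℤ) + 1) : ℚ) -
      1 / 2 * (-(2 * (w : ℚ) - 1 - 2 * (j + 1)) *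
        (yv w n (l + 1) * (K4 w (l + 1) (j + 1) : ℚ)) +
        2 * (j : ℚ) * (yv w n (l + 1) * (K4 w (l + 1) j : ℚ))) =
      -((l : ℚ) + 1 - w) * yv w n (l + 1) * (N w l ((j : ℤ) + 1) : ℚ) -
        -(((l + 1 : ℕ) : ℚ) + 1 - w) * yv w n (l + 1 + 1) *
          (N w ((l + 1 : ℕ) : ℤ) ((j : ℤ) + 1) : ℚ) := by
    intro l _
    have hB := congrArg (Int.cast : ℤ → ℚ) (int_B (w : ℤ) ((l : ℤ) + 1) ((j : ℤ) + 1))
    simp only [add_sub_cancel_right] at hB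
    unfold lv
    push_cast at hB ⊢
    linear_combination 1 / 2 * (yv w n (l + 1)) * hB
  have hsum := Finset.sum_congr (rfl : Finset.range n = Finset.range n) key
  rw [Finset.sum_sub_distrib, ← Finset.mul_sum, Finset.sum_add_distrib, ← Finset.mul_sum,
    ← Finset.mul_sum] at hsum
  have htel := Finset.sum_range_sub' (fun l : ℕ => -((l : ℚ) + 1 - w) * yv w n (l + 1) *
    (N w l ((j : ℤ) + 1) : ℚ)) n
  rw [htel] at hsum
  have h0 : N w ((0 : ℕ) : ℤ) ((j : ℤ) + 1) = 0 := N_zero (by push_cast; omega)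
  rw [h0, yv_gt (Nat.lt_succ_self n)] at hsum
  unfold aUpZ
  push_cast at hsum ⊢
  linear_combination hsum

private theorem aUpZ_self {w n : ℕ} (hn : 3 * n ≤ w) (h1 : 1 ≤ n) : aUpZ w n n = kap w n := by
  have hk := kapsum_self hn h1
  rw [aUp_sum (fun i => yv w n i * (K4 w i n : ℚ))] at hk
  rw [← hk]
  unfold aUpZ
  push_cast
  rfl

private theorem aUp_ch (a k : ℕ) :
    (Nat.choose a (k + 1) : ℚ) * ((k : ℚ) + 1) = (Nat.choose a k : ℚ) * ((a : ℚ) - k) := by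
  rcases le_or_gt k a with h | h
  · have h1 := congrArg (Nat.cast : ℕ → ℚ) (Nat.choose_succ_right_eq a k)
    push_cast [Nat.cast_sub h] at h1
    exact h1
  · rw [Nat.choose_eq_zero_of_lt h, Nat.choose_eq_zero_of_lt (by omega : a < k + 1)]
    simp

private theorem aUp_ch2 (a k : ℕ) :
    (Nat.choose (a + 1) (k + 1) : ℚ) * ((k : ℚ) + 1) = ((a : ℚ) + 1) * (Nat.choose a k : ℚ) := by
  have h1 := congrArg (Nat.cast : ℕ → ℚ) (Nat.add_one_mul_choose_eq a k)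
  push_cast at h1
  exact h1.symm

private theorem aUp_closed {w n : ℕ} (hn : 3 * (n + 1) ≤ w) (s : ℕ) :
    aUpZ w (n + 1) (n + 1 + s) * (Nat.choose (w - 2 * (n + 1) - 1) s : ℚ) *
        (∏ m ∈ Finset.range s, (2 * (w : ℚ) - 3 - 2 * ((n : ℚ) + 1) - 2 * m)) =
      (-1) ^ s * kap w (n + 1) * (∏ m ∈ Finset.range s, (2 * (m : ℚ) + 1)) *
        (Nat.choose (n + s) (2 * s) : ℚ) * (Nat.choose (2 * w - 3 * (n + 1) - 1) s : ℚ) := by
  have ca : ((w - 2 * (n + 1) - 1 : ℕ) : ℚ) = (w : ℚ) - 2 * (n + 1) - 1 := by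
    rw [Nat.cast_sub (by omega), Nat.cast_sub (by omega)]
    push_cast
    ring
  have cb : ((2 * w - 3 * (n + 1) - 1 : ℕ) : ℚ) = 2 * (w : ℚ) - 3 * (n + 1) - 1 := by
    rw [Nat.cast_sub (by omega), Nat.cast_sub (by omega)]
    push_cast
    ring
  induction s with
  | zero =>
    have h := aUpZ_self hn (by omega : 1 ≤ n + 1)
    simp [h]
  | succ s ih =>
    have hs := aUp_step (w := w) (n := n + 1) (j := n + 1 + s) hn
    have e1 := aUp_ch (w - 2 * (n + 1) - 1) s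
    have e2 := aUp_ch (2 * w - 3 * (n + 1) - 1) s
    have e3 := aUp_ch (n + s) (2 * s)
    have e4 := aUp_ch2 (n + s) (2 * s + 1)
    rw [ca] at e1
    rw [cb] at e2
    rw [show n + 1 + (s + 1) = n + 1 + s + 1 by ring, show n + (s + 1) = n + s + 1 by ring,
      show 2 * (s + 1) = 2 * s + 1 + 1 by ring, Finset.prod_range_succ, Finset.prod_range_succ,
      pow_succ]
    push_cast at hs e1 e2 e3 e4 ⊢
    set Z1 := aUpZ w (n + 1) (n + 1 + s + 1)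
    set Z0 := aUpZ w (n + 1) (n + 1 + s)
    set A0 := (Nat.choose (w - 2 * (n + 1) - 1) s : ℚ)
    set A1 := (Nat.choose (w - 2 * (n + 1) - 1) (s + 1) : ℚ)
    set B0 := (Nat.choose (2 * w - 3 * (n + 1) - 1) s : ℚ)
    set B1 := (Nat.choose (2 * w - 3 * (n + 1) - 1) (s + 1) : ℚ)
    set C0 := (Nat.choose (n + s) (2 * s) : ℚ)
    set C1 := (Nat.choose (n + s) (2 * s + 1) : ℚ)
    set C2 := (Nat.choose (n + s + 1) (2 * s + 1 + 1) : ℚ)
    set P := ∏ m ∈ Finset.range s, (2 * (w : ℚ) - 3 - 2 * ((n : ℚ) + 1) - 2 * m)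
    set Q := ∏ m ∈ Finset.range s, (2 * (m : ℚ) + 1)
    set E := ((-1 : ℚ)) ^ s
    set k := kap w (n + 1)
    have h0 : (2 : ℚ) * ((s : ℚ) + 1) * ((s : ℚ) + 1) ≠ 0 := by positivity
    apply mul_left_cancel₀ h0
    have f1 : 2 * ((s : ℚ) + 1) * ((w : ℚ) - 2 * (n + 1) - 1 - s) *
        (2 * (w : ℚ) - 3 - 2 * ((n : ℚ) + 1) - 2 * s) * Z1 =
        -((n : ℚ) + 1 + s) * ((n : ℚ) - s) * (2 * w - 3 * (n + 1) - 1 - s) * Z0 := by
      linear_combination -hs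
    have f2 : (2 * (s : ℚ) + 2) * (2 * s + 1) * C2 = ((n : ℚ) + s + 1) * ((n : ℚ) - s) * C0 := by
      linear_combination (2 * (s : ℚ) + 1) * e4 + ((n : ℚ) + s + 1) * e3
    linear_combination (2 * ((s : ℚ) + 1) * Z1 * P * (2 * (w : ℚ) - 3 - 2 * ((n : ℚ) + 1) - 2 * s)) * e1
      + A0 * P * f1 - ((n : ℚ) + 1 + s) * ((n : ℚ) - s) * (2 * w - 3 * (n + 1) - 1 - s) * ih
      + E * k * Q * ((s : ℚ) + 1) * B1 * f2
      + E * k * Q * ((n : ℚ) + s + 1) * ((n : ℚ) - s) * C0 * e2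

theorem hrow_self {w n : ℕ} (hn : 3 * n ≤ w) (h1 : 1 ≤ n) :
    hrow w n n = lv w n n * del w n := by
  unfold hrow
  rw [lv_top hn h1, lv_self]
  unfold del
  have h2 : (2 * (n : ℚ) - 1) ≠ 0 := by
    have : (1 : ℚ) ≤ n := by exact_mod_cast h1
    linarith
  field_simp

theorem hrow_closed {w n t : ℕ} (h1 : 1 ≤ n) (ht1 : 1 ≤ t) (htn : t ≤ n) (hn : 3 * n ≤ w)
    (ht : 2 * n + t < w) :
    hrow w n (n + t) * (∏ m ∈ Finset.range t, (2 * (w : ℚ) - 1 - 2 * n - 2 * m)) *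
        (Nat.choose (w - 2 * n - 1) t : ℚ) =
      (-1) ^ t * (lv w n n * del w n) * (∏ m ∈ Finset.range t, (2 * (m : ℚ) + 1)) *
        (Nat.choose (n + t) (2 * t) : ℚ) *
        ((Nat.choose (2 * w - 3 * n) t : ℚ) - 3 * (Nat.choose (2 * w - 3 * n - 1) (t - 1) : ℚ)) := by
  have hD : lv w n n * del w n = -(1 / 2) * (2 * w - 1 - 2 * n) * kap w n := by
    rw [← hrow_self hn h1]
    unfold hrow
    exact lv_top hn h1
  rw [hD]
  obtain ⟨n, rfl⟩ : ∃ k, n = k + 1 := ⟨n - 1, by omega⟩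
  obtain ⟨s, rfl⟩ : ∃ k, t = k + 1 := ⟨t - 1, by omega⟩
  have hc := aUp_closed hn s
  have hs := aUp_step (w := w) (n := n + 1) (j := n + 1 + s) hn
  have hl := aUp_lvsum w (n + 1) (n + 1 + s)
  have ca : ((w - 2 * (n + 1) - 1 : ℕ) : ℚ) = (w : ℚ) - 2 * (n + 1) - 1 := by
    rw [Nat.cast_sub (by omega), Nat.cast_sub (by omega)]
    push_cast
    ring
  have cb : ((2 * w - 3 * (n + 1) - 1 : ℕ) : ℚ) = 2 * (w : ℚ) - 3 * (n + 1) - 1 := by
    rw [Nat.cast_sub (by omega), Nat.cast_sub (by omega)]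
    push_cast
    ring
  have e1 := aUp_ch (w - 2 * (n + 1) - 1) s
  have e2 := aUp_ch2 (2 * w - 3 * (n + 1) - 1) s
  have e3 := aUp_ch2 (n + s) (2 * s)
  have e4 := aUp_ch2 (n + s + 1) (2 * s + 1)
  have hM : 2 * w - 3 * (n + 1) - 1 + 1 = 2 * w - 3 * (n + 1) := by omega
  rw [ca] at e1
  rw [cb, hM] at e2
  have hP : ∏ m ∈ Finset.range (s + 1), (2 * (w : ℚ) - 1 - 2 * ((n + 1 : ℕ) : ℚ) - 2 * m) =
      (∏ m ∈ Finset.range s, (2 * (w : ℚ) - 3 - 2 * ((n : ℚ) + 1) - 2 * m)) *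
        (2 * (w : ℚ) - 1 - 2 * ((n : ℚ) + 1)) := by
    rw [Finset.prod_range_succ']
    congr 1
    · refine Finset.prod_congr rfl fun m _ => ?_
      push_cast
      ring
    · push_cast
      ring
  rw [hP, Nat.add_sub_cancel, show n + 1 + (s + 1) = n + 1 + s + 1 by ring,
    show 2 * (s + 1) = 2 * s + 1 + 1 by ring, Finset.prod_range_succ, pow_succ, hl]
  rw [show n + s + 1 + 1 = n + 1 + s + 1 by ring] at e4
  push_cast at hc hs e1 e2 e3 e4 ⊢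
  set Z1 := aUpZ w (n + 1) (n + 1 + s + 1)
  set Z0 := aUpZ w (n + 1) (n + 1 + s)
  set A0 := (Nat.choose (w - 2 * (n + 1) - 1) s : ℚ)
  set A1 := (Nat.choose (w - 2 * (n + 1) - 1) (s + 1) : ℚ)
  set B0 := (Nat.choose (2 * w - 3 * (n + 1) - 1) s : ℚ)
  set BM := (Nat.choose (2 * w - 3 * (n + 1)) (s + 1) : ℚ)
  set C0 := (Nat.choose (n + s) (2 * s) : ℚ)
  set C1 := (Nat.choose (n + s + 1) (2 * s + 1) : ℚ)
  set C2 := (Nat.choose (n + 1 + s + 1) (2 * s + 1 + 1) : ℚ)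
  set P := ∏ m ∈ Finset.range s, (2 * (w : ℚ) - 3 - 2 * ((n : ℚ) + 1) - 2 * m)
  set Q := ∏ m ∈ Finset.range s, (2 * (m : ℚ) + 1)
  set E := ((-1 : ℚ)) ^ s
  set k := kap w (n + 1)
  have h0 : (4 : ℚ) * ((s : ℚ) + 1) * ((s : ℚ) + 1) ≠ 0 := by positivity
  apply mul_left_cancel₀ h0
  set h := 1 / 2 * (-(2 * (w : ℚ) - 1 - 2 * ((n : ℚ) + 1 + s + 1)) * Z1 +
    2 * ((n : ℚ) + 1 + s) * Z0) with hh
  have f1 : 4 * ((s : ℚ) + 1) * ((w : ℚ) - 2 * (n + 1) - 1 - s) * h =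
      ((n : ℚ) + 1 + s) * ((n : ℚ) + s + 2) * (2 * w - 3 * (n + s + 2)) * Z0 := by
    rw [hh]
    linear_combination hs
  have f2 : 2 * ((s : ℚ) + 1) * (2 * s + 1) * C2 =
      ((n : ℚ) + s + 2) * ((n : ℚ) + s + 1) * C0 := by
    linear_combination (2 * (s : ℚ) + 1) * e4 + ((n : ℚ) + s + 2) * e3
  have f3 : ((s : ℚ) + 1) * (BM - 3 * B0) = (2 * (w : ℚ) - 3 * (n + s + 2)) * B0 := by
    linear_combination e2
  linear_combination (4 * ((s : ℚ) + 1) * h * P * (2 * (w : ℚ) - 1 - 2 * ((n : ℚ) + 1))) * e1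
    + (P * (2 * (w : ℚ) - 1 - 2 * ((n : ℚ) + 1)) * A0) * f1
    + (((n : ℚ) + 1 + s) * ((n : ℚ) + s + 2) * (2 * w - 3 * (n + s + 2)) *
        (2 * (w : ℚ) - 1 - 2 * ((n : ℚ) + 1))) * hc
    - (E * k * Q * (2 * (w : ℚ) - 1 - 2 * ((n : ℚ) + 1)) * ((s : ℚ) + 1) * (BM - 3 * B0)) * f2
    - (E * k * Q * (2 * (w : ℚ) - 1 - 2 * ((n : ℚ) + 1)) *
        (((n : ℚ) + s + 2) * ((n : ℚ) + s + 1)) * C0) * f3

end MT2
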