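import Pool.Agent.Lib_MP_bfd926_ab.AFinB
import Pool.Agent.Lib_MP_bfd926_ab.AFinC

/-!
# The eigenvalues of `T₂` in level one, weights `2 ^ m - 2`, `2 ^ m` and `2 ^ m + 2`

In the weights `k = 2 ^ m - 2`, `2 ^ m`, `2 ^ m + 2` the Hecke operator `T₂` on `S_k(SL₂(ℤ))`,
`(T₂ f)(z) = 2 ^ (k - 1) f(2 z) + (f(z / 2) + f((z + 1) / 2)) / 2`, has `dim S_k` distinct eigenvalues.
-/

open UpperHalfPlane
open scoped MatrixGroups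

namespace Pool.Agent.Lib_MP_bfd926_ab.WPower

theorem result (m k : ℕ) (hm : 3 ≤ m) (hk : k + 2 = 2 ^ m ∨ k = 2 ^ m ∨ k = 2 ^ m + 2) :
    ∃ (_ : FiniteDimensional ℂ (CuspForm 𝒮ℒ (k : ℤ))) (T : Module.End ℂ (CuspForm 𝒮ℒ (k : ℤ))),
      (∀ (f : CuspForm 𝒮ℒ (k : ℤ)) (z : ℍ),
        T f z = 2 ^ ((k : ℤ) - 1) * f (ofComplex (2 * z)) +
          (f (ofComplex (z / 2)) + f (ofComplex ((z + 1) / 2))) / 2) ∧
      {μ : ℂ | T.HasEigenvalue μ}.ncard = Module.finrank ℂ (CuspForm 𝒮ℒ (k : ℤ)) := by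
  rcases hk with hk | hk | hk
  · obtain ⟨hfin, T, h1, h2, -⟩ := MT2.thmC m k hm hk
    exact ⟨hfin, T, h1, h2⟩
  · obtain ⟨hfin, T, h1, h2, -⟩ := MT2.thmB m 0 k (by omega) (by omega) (by omega)
    exact ⟨hfin, T, h1, h2⟩
  · obtain ⟨hfin, T, h1, h2, -⟩ := MT2.thmB m 1 k (by omega) (by omega) (by omega)
    exact ⟨hfin, T, h1, h2⟩

end Pool.Agent.Lib_MP_bfd926_ab.WPower
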